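import Mathlib
import Pool.Agent.TH279.MD.Level
import Pool.Agent.W746.LD.Koebe
import Pool.Agent.H712R2.Par

/-!
# The transfer operator of `z ^ d + c`, and families of inverse branches
-/

set_option autoImplicit false

open Set Filter Metric MeasureTheory

namespace Pool.Agent.Y298.SH

open Pool.Agent.TH279.MD
open Pool.Agent.W746.LD (Univ KC exists_KC)

/-- The transfer operator (with weight `|f'| ^ -2`) on nonnegative functions. -/
noncomputable def LE (d : ℕ) (c : ℂ) (φ : ℂ → ENNReal) (w : ℂ) : ENNReal :=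
  (∑ ζ ∈ RU d, φ (ζ * rt d (w - c))) * ENNReal.ofReal (1 / ((d : ℝ) ^ 2 * ‖w - c‖ ^ al d))

/-- The truncated operator. -/
noncomputable def LT (d : ℕ) (T : ℂ → ENNReal) (c : ℂ) (φ : ℂ → ENNReal) : ℂ → ENNReal :=
  LE d c (fun y => T y * φ y)

theorem LE_mono {d : ℕ} {c : ℂ} {φ ψ : ℂ → ENNReal} (h : ∀ y, φ y ≤ ψ y) (w : ℂ) :
    LE d c φ w ≤ LE d c ψ w := by
  unfold LE
  gcongr with ζ hζ
  exact h _

theorem LE_iter_mono {d : ℕ} {c : ℂ} (m : ℕ) {φ ψ : ℂ → ENNReal} (h : ∀ y, φ y ≤ ψ y) (w : ℂ) :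
    (LE d c)^[m] φ w ≤ (LE d c)^[m] ψ w := by
  induction m generalizing φ ψ w with
  | zero => exact h w
  | succ m ih =>
    rw [Function.iterate_succ_apply, Function.iterate_succ_apply]
    exact ih (fun y => LE_mono h y) w

theorem LT_le {d : ℕ} {T : ℂ → ENNReal} (hT : ∀ y, T y ≤ 1) {c : ℂ} (φ : ℂ → ENNReal) (w : ℂ) :
    LT d T c φ w ≤ LE d c φ w := by
  unfold LT
  apply LE_mono
  intro y
  calc T y * φ y ≤ 1 * φ y := by gcongr; exact hT y
    _ = φ y := one_mul _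

theorem LT_mono {d : ℕ} {T : ℂ → ENNReal} {c : ℂ} {φ ψ : ℂ → ENNReal} (h : ∀ y, φ y ≤ ψ y)
    (w : ℂ) : LT d T c φ w ≤ LT d T c ψ w := by
  unfold LT
  apply LE_mono
  intro y
  gcongr
  exact h y

theorem LT_iter_mono {d : ℕ} {T : ℂ → ENNReal} {c : ℂ} (m : ℕ) {φ ψ : ℂ → ENNReal}
    (h : ∀ y, φ y ≤ ψ y) (w : ℂ) :
    (LT d T c)^[m] φ w ≤ (LT d T c)^[m] ψ w := by
  induction m generalizing φ ψ w with
  | zero => exact h w
  | succ m ih =>
    rw [Function.iterate_succ_apply, Function.iterate_succ_apply]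
    exact ih (fun y => LT_mono h y) w

theorem LT_iter_le {d : ℕ} {T : ℂ → ENNReal} (hT : ∀ y, T y ≤ 1) {c : ℂ} (m : ℕ)
    (φ : ℂ → ENNReal) (w : ℂ) : (LT d T c)^[m] φ w ≤ (LE d c)^[m] φ w := by
  induction m generalizing φ w with
  | zero => exact le_rfl
  | succ m ih =>
    rw [Function.iterate_succ_apply, Function.iterate_succ_apply]
    exact (ih _ w).trans (LE_iter_mono m (fun y => LT_le hT φ y) w)

theorem RU_mul {d : ℕ} (hd : 2 ≤ d) {ω ζ : ℂ} (hω : ω ∈ RU d) (hζ : ζ ∈ RU d) : ζ * ω ∈ RU d := by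
  rw [mem_RU hd] at *
  rw [mul_pow, hω, hζ, mul_one]

theorem RU_inv {d : ℕ} (hd : 2 ≤ d) {ω : ℂ} (hω : ω ∈ RU d) : ω⁻¹ ∈ RU d := by
  rw [mem_RU hd] at *
  rw [inv_pow, hω, inv_one]

theorem sum_RU_mul {M : Type*} [AddCommMonoid M] {d : ℕ} (hd : 2 ≤ d) (φ : ℂ → M) {ω : ℂ}
    (hω : ω ∈ RU d) (y : ℂ) : ∑ ζ ∈ RU d, φ (ζ * (ω * y)) = ∑ ζ ∈ RU d, φ (ζ * y) := by
  have h0 := RU_ne_zero hd hω
  refine Finset.sum_nbij' (fun ζ => ζ * ω) (fun ζ => ζ * ω⁻¹) ?_ ?_ ?_ ?_ ?_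
  · intro ζ hζ
    exact RU_mul hd hω hζ
  · intro ζ hζ
    exact RU_mul hd (RU_inv hd hω) hζ
  · intro ζ _
    field_simp
  · intro ζ _
    field_simp
  · intro ζ _
    rw [mul_assoc]

/-- the sum over the roots does not depend on the choice of the root -/
theorem sum_rt {M : Type*} [AddCommMonoid M] {d : ℕ} (hd : 2 ≤ d) (φ : ℂ → M) {h w : ℂ}
    (hw : h ^ d = w) : ∑ ζ ∈ RU d, φ (ζ * rt d w) = ∑ ζ ∈ RU d, φ (ζ * h) := by
  have h1 : rt d w ^ d = h ^ d := by rw [rt_pow hd, hw]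
  by_cases hh : h = 0
  · rw [hh, zero_pow (by omega)] at h1
    have h2 : rt d w = 0 := by
      by_contra h3
      exact pow_ne_zero d h3 h1
    rw [hh, h2]
  · have h2 : rt d w / h ∈ RU d := by
      rw [mem_RU hd, div_pow, h1, div_self (pow_ne_zero d hh)]
    have h3 : rt d w = (rt d w / h) * h := by field_simp
    rw [h3, sum_RU_mul hd φ h2]

theorem norm_pow_al {d : ℕ} (hd : 2 ≤ d) {h w : ℂ} (hw : h ^ d = w) :
    ‖w‖ ^ al d = ‖h‖ ^ (2 * (d - 1)) := by
  rw [← hw, norm_pow, pow_al hd (norm_nonneg _)]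

theorem LE_root {d : ℕ} (hd : 2 ≤ d) {c h w : ℂ} (hw : h ^ d = w - c) (φ : ℂ → ENNReal) :
    LE d c φ w = (∑ ζ ∈ RU d, φ (ζ * h)) *
      ENNReal.ofReal (1 / ((d : ℝ) ^ 2 * ‖h‖ ^ (2 * (d - 1)))) := by
  unfold LE
  rw [sum_rt hd φ hw, norm_pow_al hd hw]

/-- A holomorphic root on a ball. -/
theorem exists_root_ball {d : ℕ} (hd : 2 ≤ d) {g : ℂ → ℂ} {w : ℂ} {R : ℝ} (hR : 0 < R)
    (hg : DifferentiableOn ℂ g (ball w R)) (h0 : ∀ x ∈ ball w R, g x ≠ 0) :
    ∃ h : ℂ → ℂ, DifferentiableOn ℂ h (ball w R) ∧ (∀ x ∈ ball w R, h x ^ d = g x) ∧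
      ∀ x ∈ ball w R, h x ≠ 0 := by
  have hd0 : (d : ℂ) ≠ 0 := by exact_mod_cast (by omega : d ≠ 0)
  obtain ⟨l, hl1, hl2, hl3⟩ := Pool.Agent.H712R2.M.exists_log_ball hR hg h0
    (Complex.log (g w)) (Complex.exp_log (h0 w (mem_ball_self hR)))
  refine ⟨fun ζ => Complex.exp (l ζ / d), (hl1.div_const _).cexp, ?_, fun x _ => Complex.exp_ne_zero _⟩
  intro x hx
  rw [← Complex.exp_nat_mul, mul_div_cancel₀ _ hd0, hl3 x hx]

/-- the derivative of a root -/
theorem deriv_root {d : ℕ} {g h : ℂ → ℂ} {w : ℂ} {R : ℝ}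
    (hh : DifferentiableOn ℂ h (ball w R)) {c : ℂ}
    (hhg : ∀ x ∈ ball w R, h x ^ d = g x - c) {x : ℂ} (hx : x ∈ ball w R) :
    deriv g x = d * h x ^ (d - 1) * deriv h x := by
  have h1 : HasDerivAt h (deriv h x) x :=
    (hh.differentiableAt (isOpen_ball.mem_nhds hx)).hasDerivAt
  have h2 := (h1.pow d).add_const c
  have h3 : (fun y => h y ^ d + c) =ᶠ[nhds x] g := by
    filter_upwards [isOpen_ball.mem_nhds hx] with y hy
    rw [hhg y hy]
    ring
  have h4 := h2.congr_of_eventuallyEq (h3.symm)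
  exact h4.deriv

/-- The families of inverse branches. -/
theorem fam {d : ℕ} (hd : 2 ≤ d) (c w : ℂ) {R : ℝ} (hR : 0 < R) (T : ℂ → ENNReal)
    (hT : ∀ y, T y ≤ 1) (m : ℕ)
    (hit : ∀ j < m, ∀ g : ℂ → ℂ, DifferentiableOn ℂ g (ball w R) →
      (∀ x ∈ ball w R, (f d c)^[j] (g x) = x) → (∃ ζ ∈ RU d, T (ζ * rt d (g w - c)) ≠ 0) →
      ∀ x ∈ ball w R, g x ≠ c) :
    ∃ (ι : Type) (_ : Fintype ι) (g : ι → ℂ → ℂ), (∀ i, DifferentiableOn ℂ (g i) (ball w R)) ∧
      (∀ i, ∀ x ∈ ball w R, (f d c)^[m] (g i x) = x) ∧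
      (∀ φ : ℂ → ENNReal, (LT d T c)^[m] φ w ≤
        ∑ i, ENNReal.ofReal (‖deriv (g i) w‖ ^ 2) * φ (g i w)) ∧
      (∀ φ : ℂ → ENNReal, ∀ x ∈ ball w R, ∑ i, ENNReal.ofReal (‖deriv (g i) x‖ ^ 2) * φ (g i x) ≤
        (LE d c)^[m] φ x) := by
  classical
  have hdR : (0 : ℝ) < d := by exact_mod_cast (by omega : 0 < d)
  have hwR : w ∈ ball w R := mem_ball_self hR
  induction m with
  | zero =>
    refine ⟨Unit, inferInstance, fun _ x => x, fun _ => differentiableOn_id, fun _ x _ => rfl,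
      ?_, ?_⟩
    · intro φ
      simp
    · intro φ x _
      simp
  | succ m ih =>
    obtain ⟨ι, _, g, hg, hgm, hup, hlow⟩ := ih (fun j hj => hit j (by omega))
    have hroot : ∀ i : {i : ι // ∀ x ∈ ball w R, g i x ≠ c}, ∃ h : ℂ → ℂ,
        DifferentiableOn ℂ h (ball w R) ∧ (∀ x ∈ ball w R, h x ^ d = g i x - c) ∧
        ∀ x ∈ ball w R, h x ≠ 0 := fun i =>
      exists_root_ball hd hR ((hg i).sub_const c) (fun x hx => sub_ne_zero.mpr (i.2 x hx))
    choose h hh1 hh2 hh3 using hroot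
    -- the key identity
    have key : ∀ (φ : ℂ → ENNReal), ∀ x ∈ ball w R,
        ∑ p : {i : ι // ∀ x ∈ ball w R, g i x ≠ c} × (RU d),
          ENNReal.ofReal (‖deriv (fun y => (p.2 : ℂ) * h p.1 y) x‖ ^ 2) *
            φ ((p.2 : ℂ) * h p.1 x) =
        ∑ i : {i : ι // ∀ x ∈ ball w R, g i x ≠ c},
          ENNReal.ofReal (‖deriv (g i) x‖ ^ 2) * LE d c φ (g i x) := by
      intro φ x hx
      rw [Fintype.sum_prod_type]
      apply Finset.sum_congr rfl
      intro i _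
      rw [LE_root hd (hh2 i x hx), Finset.sum_coe_sort (RU d)
        (fun ζ => ENNReal.ofReal (‖deriv (fun y => ζ * h i y) x‖ ^ 2) * φ (ζ * h i x)),
        ← mul_assoc, mul_comm (ENNReal.ofReal _) (∑ ζ ∈ RU d, _), mul_assoc,
        ← ENNReal.ofReal_mul (by positivity), Finset.sum_mul]
      apply Finset.sum_congr rfl
      intro ζ hζ
      rw [mul_comm]
      congr 2
      have h1 : DifferentiableAt ℂ (h i) x := (hh1 i).differentiableAt (isOpen_ball.mem_nhds hx)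
      rw [deriv_const_mul _ h1, norm_mul, RU_norm hd hζ, one_mul,
        deriv_root (hh1 i) (hh2 i) hx, norm_mul, norm_mul, norm_pow, Complex.norm_natCast]
      have h2 : 0 < ‖h i x‖ := norm_pos_iff.mpr (hh3 i x hx)
      rw [pow_mul' ‖h i x‖ 2 (d - 1)]
      field_simp
    refine ⟨{i : ι // ∀ x ∈ ball w R, g i x ≠ c} × (RU d), inferInstance,
      fun p y => (p.2 : ℂ) * h p.1 y, ?_, ?_, ?_, ?_⟩
    · intro p
      exact (hh1 p.1).const_mul _
    · intro p x hx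
      beta_reduce
      rw [Function.iterate_succ_apply]
      have h1 : f d c ((p.2 : ℂ) * h p.1 x) = g p.1 x := by
        unfold f
        rw [mul_pow, (mem_RU hd).mp p.2.2, one_mul, hh2 p.1 x hx]
        ring
      rw [h1, hgm _ x hx]
    · intro φ
      rw [Function.iterate_succ_apply, key φ w hwR]
      refine (hup (LT d T c φ)).trans ?_
      have h1 : ∀ i : ι, ENNReal.ofReal (‖deriv (g i) w‖ ^ 2) * LT d T c φ (g i w) ≤
          if ∀ x ∈ ball w R, g i x ≠ c then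
            ENNReal.ofReal (‖deriv (g i) w‖ ^ 2) * LE d c φ (g i w) else 0 := by
        intro i
        split_ifs with hi
        · gcongr
          exact LT_le hT φ _
        · have h2 : ∀ ζ ∈ RU d, T (ζ * rt d (g i w - c)) = 0 := by
            intro ζ hζ
            by_contra h3
            exact hi (hit m (by omega) (g i) (hg i) (hgm i) ⟨ζ, hζ, h3⟩)
          have h3 : LT d T c φ (g i w) = 0 := by
            unfold LT LE
            rw [Finset.sum_eq_zero, zero_mul]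
            intro ζ hζ
            beta_reduce
            rw [h2 ζ hζ, zero_mul]
          rw [h3, mul_zero]
      refine (Finset.sum_le_sum fun i _ => h1 i).trans (le_of_eq ?_)
      rw [← Finset.sum_filter, ← Finset.sum_subtype_eq_sum_filter]
      apply Finset.sum_congr _ (fun _ _ => rfl)
      ext i
      simp
    · intro φ x hx
      rw [Function.iterate_succ_apply, key φ x hx]
      refine le_trans ?_ (hlow (LE d c φ) x hx)
      calc ∑ i : {i : ι // ∀ x ∈ ball w R, g i x ≠ c},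
            ENNReal.ofReal (‖deriv (g i) x‖ ^ 2) * LE d c φ (g i x)
          = ∑ i with (∀ x ∈ ball w R, g i x ≠ c),
            ENNReal.ofReal (‖deriv (g i) x‖ ^ 2) * LE d c φ (g i x) := by
              rw [← Finset.sum_subtype_eq_sum_filter]
              apply Finset.sum_congr _ (fun _ _ => rfl)
              ext i
              simp
        _ ≤ ∑ i, ENNReal.ofReal (‖deriv (g i) x‖ ^ 2) * LE d c φ (g i x) :=
              Finset.sum_le_sum_of_subset (Finset.filter_subset _ _)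

end Pool.Agent.Y298.SH
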