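import Mathlib
import Pool.Agent.Y298.SH.Op

/-!
# Harnack inequality for the iterates of the transfer operator; duality
-/

set_option autoImplicit false

open Set Filter Metric MeasureTheory

namespace Pool.Agent.Y298.SH

open Pool.Agent.TH279.MD
open Pool.Agent.W746.LD (Univ KC exists_KC)

/-- The iterates of the operator on `1`. -/
noncomputable def UU (d : ℕ) (c : ℂ) (m : ℕ) (w : ℂ) : ENNReal := (LE d c)^[m] (fun _ => 1) w

theorem univ_branch {d : ℕ} {c w : ℂ} {R : ℝ} {m : ℕ} {g : ℂ → ℂ}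
    (hg : DifferentiableOn ℂ g (ball w R)) (hgm : ∀ x ∈ ball w R, (f d c)^[m] (g x) = x) :
    Univ g w R := by
  refine ⟨hg, ?_⟩
  intro x hx y hy hxy
  rw [← hgm x hx, ← hgm y hy, hxy]

theorem harnackT {C0 c0 : ℝ} (K : KC C0 c0) {d : ℕ} (hd : 2 ≤ d) (c w : ℂ) {R : ℝ} (hR : 0 < R)
    (T : ℂ → ENNReal) (hT : ∀ y, T y ≤ 1) (m : ℕ)
    (hit : ∀ j < m, ∀ g : ℂ → ℂ, DifferentiableOn ℂ g (ball w R) →
      (∀ x ∈ ball w R, (f d c)^[j] (g x) = x) → (∃ ζ ∈ RU d, T (ζ * rt d (g w - c)) ≠ 0) →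
      ∀ x ∈ ball w R, g x ≠ c) {x : ℂ} (hx : ‖x - w‖ ≤ R / 4) :
    (LT d T c)^[m] (fun _ => 1) w ≤ ENNReal.ofReal (C0 ^ 2) * UU d c m x := by
  obtain ⟨ι, _, g, hg, hgm, hup, hlow⟩ := fam hd c w hR T hT m hit
  have hC0 := K.one_le
  have hxb : x ∈ ball w R := by
    rw [mem_ball, dist_eq_norm]
    linarith
  refine (hup _).trans ?_
  unfold UU
  refine le_trans ?_ (mul_le_mul_right (hlow (fun _ => 1) x hxb) _)
  rw [Finset.mul_sum]
  apply Finset.sum_le_sum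
  intro i _
  rw [← mul_assoc, ← ENNReal.ofReal_mul (by positivity)]
  gcongr
  have h1 := (K.kdist (g i) w R hR (univ_branch (hg i) (hgm i)) x hx).2
  calc ‖deriv (g i) w‖ ^ 2 ≤ (C0 * ‖deriv (g i) x‖) ^ 2 := by gcongr
    _ = _ := by ring

theorem LT_one (d : ℕ) (c : ℂ) : LT d (fun _ => 1) c = LE d c := by
  funext φ w
  unfold LT
  simp

theorem harnack {C0 c0 : ℝ} (K : KC C0 c0) {d : ℕ} (hd : 2 ≤ d) (c w : ℂ) {R : ℝ} (hR : 0 < R)
    (m : ℕ) (hP : ∀ j, (f d c)^[j] c ∉ ball w R) {x : ℂ} (hx : ‖x - w‖ ≤ R / 4) :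
    UU d c m w ≤ ENNReal.ofReal (C0 ^ 2) * UU d c m x := by
  have h := harnackT K hd c w hR (fun _ => 1) (fun _ => le_rfl) m (by
    intro j _ g _ hgj _ x hx hxc
    apply hP j
    have h1 := hgj x hx
    rw [hxc] at h1
    rw [h1]
    exact hx) hx
  rw [LT_one] at h
  exact h

theorem measurable_LE {d : ℕ} {c : ℂ} {φ : ℂ → ENNReal} (h : Measurable φ) :
    Measurable (LE d c φ) := by
  unfold LE
  have h1 : Measurable fun w : ℂ => rt d (w - c) := (measurable_rt d).comp (measurable_sub_const c)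
  apply Measurable.mul
  · apply Finset.measurable_fun_sum
    intro ζ _
    exact h.comp (h1.const_mul ζ)
  · apply ENNReal.measurable_ofReal.comp
    exact measurable_const.div (measurable_const.mul
      ((continuous_id.sub continuous_const).norm.measurable.pow_const (al d)))

theorem measurable_LE_iter {d : ℕ} {c : ℂ} (m : ℕ) {φ : ℂ → ENNReal} (h : Measurable φ) :
    Measurable ((LE d c)^[m] φ) := by
  induction m generalizing φ with
  | zero => exact h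
  | succ m ih =>
    rw [Function.iterate_succ_apply]
    exact ih (measurable_LE h)

theorem dualE {d : ℕ} (hd : 2 ≤ d) (c : ℂ) {S : Set ℂ} (hS : MeasurableSet S) {ψ : ℂ → ENNReal}
    (hψ : Measurable ψ) : ∫⁻ y in (f d c) ⁻¹' S, ψ y = ∫⁻ w in S, LE d c ψ w :=
  dual hd c hS hψ

theorem dual_iter {d : ℕ} (hd : 2 ≤ d) (c : ℂ) (m : ℕ) {S : Set ℂ} (hS : MeasurableSet S)
    {ψ : ℂ → ENNReal} (hψ : Measurable ψ) :
    ∫⁻ y in ((f d c)^[m]) ⁻¹' S, ψ y = ∫⁻ w in S, (LE d c)^[m] ψ w := by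
  induction m generalizing ψ S with
  | zero => rfl
  | succ m ih =>
    have h1 : ((f d c)^[m + 1]) ⁻¹' S = (f d c) ⁻¹' (((f d c)^[m]) ⁻¹' S) := by
      rw [← preimage_comp, ← Function.iterate_succ]
    rw [h1, dualE hd c ((continuous_fn d c m).measurable hS) hψ, ih hS (measurable_LE hψ),
      Function.iterate_succ_apply]

theorem vol_iter {d : ℕ} (hd : 2 ≤ d) (c : ℂ) (m : ℕ) {S : Set ℂ} (hS : MeasurableSet S) :
    volume (((f d c)^[m]) ⁻¹' S) = ∫⁻ w in S, UU d c m w := by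
  have h := dual_iter hd c m hS (ψ := fun _ => 1) measurable_const
  rw [lintegral_one, Measure.restrict_apply_univ] at h
  exact h

/-- Summability of the iterates at a point far out. -/
theorem sum_far {C0 c0 : ℝ} (K : KC C0 c0) {d : ℕ} (hd : 2 ≤ d) {c : ℂ} (hc : ‖c‖ ≤ 2)
    (hb : ∀ j, ‖(f d c)^[j] c‖ ≤ 2) {w : ℂ} (hw : 6 ≤ ‖w‖) :
    ∑' m, UU d c m w ≠ ⊤ := by
  set ρ : ℝ := ‖w‖ - 3 with hρ
  have hρ1 : ‖c‖ + 1 ≤ ρ := by linarith
  have hC0 := K.one_le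
  have hsub : ball w (1 / 4) ⊆ WW ρ := by
    intro x hx
    rw [mem_ball, dist_eq_norm] at hx
    have h1 : ‖w‖ ≤ ‖x‖ + ‖x - w‖ := by
      calc ‖w‖ = ‖x - (x - w)‖ := by congr 1; ring
        _ ≤ _ := norm_sub_le _ _
    have h2 : ‖x‖ ≤ ‖w‖ + ‖x - w‖ := by
      calc ‖x‖ = ‖w + (x - w)‖ := by congr 1; ring
        _ ≤ _ := norm_add_le _ _
    exact ⟨by linarith, by linarith⟩
  have hm : ∀ m, UU d c m w * volume (ball w (1 / 4 : ℝ)) ≤
      ENNReal.ofReal (C0 ^ 2) * volume (((f d c)^[m]) ⁻¹' WW ρ) := by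
    intro m
    have h1 : ∀ x ∈ ball w (1 / 4 : ℝ), UU d c m w ≤ ENNReal.ofReal (C0 ^ 2) * UU d c m x := by
      intro x hx
      rw [mem_ball, dist_eq_norm] at hx
      refine harnack K hd c w one_pos m ?_ (by linarith)
      intro j hj
      rw [mem_ball, dist_eq_norm] at hj
      have h3 : ‖w‖ ≤ ‖(f d c)^[j] c‖ + ‖(f d c)^[j] c - w‖ := by
        calc ‖w‖ = ‖(f d c)^[j] c - ((f d c)^[j] c - w)‖ := by congr 1; ring
          _ ≤ _ := norm_sub_le _ _
      have := hb j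
      linarith
    calc UU d c m w * volume (ball w (1 / 4 : ℝ)) = ∫⁻ x in ball w (1 / 4 : ℝ), UU d c m w := by
          rw [setLIntegral_const]
      _ ≤ ∫⁻ x in ball w (1 / 4 : ℝ), ENNReal.ofReal (C0 ^ 2) * UU d c m x :=
          setLIntegral_mono' measurableSet_ball h1
      _ = ENNReal.ofReal (C0 ^ 2) * ∫⁻ x in ball w (1 / 4 : ℝ), UU d c m x :=
          lintegral_const_mul' _ _ ENNReal.ofReal_ne_top
      _ = ENNReal.ofReal (C0 ^ 2) * volume (((f d c)^[m]) ⁻¹' ball w (1 / 4 : ℝ)) := by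
          rw [vol_iter hd c m measurableSet_ball]
      _ ≤ _ := by
          gcongr
  have hsum : ∑' m, volume (((f d c)^[m]) ⁻¹' WW ρ) ≠ ⊤ := by
    rw [← measure_iUnion (pre_disj hd hρ1)
      (fun m => (continuous_fn d c m).measurable (measurableSet_WW ρ))]
    exact ne_top_of_le_ne_top (isCompact_closedBall (0 : ℂ) (3 * ρ + 3)).measure_lt_top.ne
      (measure_mono (iUnion_subset fun m => pre_sub hd hρ1 m))
  intro htop
  have h1 : (∑' m, UU d c m w) * volume (ball w (1 / 4 : ℝ)) ≤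
      ENNReal.ofReal (C0 ^ 2) * ∑' m, volume (((f d c)^[m]) ⁻¹' WW ρ) := by
    rw [← ENNReal.tsum_mul_right, ← ENNReal.tsum_mul_left]
    exact ENNReal.tsum_le_tsum hm
  have h2 : volume (ball w (1 / 4 : ℝ)) ≠ 0 := (measure_ball_pos _ _ (by norm_num)).ne'
  rw [htop, ENNReal.top_mul h2, top_le_iff] at h1
  exact ENNReal.mul_ne_top ENNReal.ofReal_ne_top hsum h1

end Pool.Agent.Y298.SH
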