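import Mathlib
import Pool.Agent.Y298.SH.Harn

/-!
# Uniformly expanding critical orbit: summability of the transfer operator off the orbit
-/

set_option autoImplicit false

open Set Filter Metric MeasureTheory

namespace Pool.Agent.Y298.SH

open Pool.Agent.TH279.MD
open Pool.Agent.W746.LD (Univ KC exists_KC)

/-- Uniform expansion along a bounded critical orbit. -/
structure SHyp (d M : ℕ) (c₀ : ℂ) : Prop where
  hd : 2 ≤ d
  hM : 1 ≤ M
  bd : ∀ j, ‖(f d c₀)^[j] c₀‖ ≤ 2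
  exp : ∀ j, 2 ≤ ‖deriv ((f d c₀)^[M]) ((f d c₀)^[j] c₀)‖

/-- The postcritical set. -/
def PP (d : ℕ) (c₀ : ℂ) : Set ℂ := closure (range fun j : ℕ => (f d c₀)^[j] c₀)

variable {d M : ℕ} {c₀ : ℂ}

theorem isClosed_PP : IsClosed (PP d c₀) := isClosed_closure

theorem orb_mem_PP (j : ℕ) : (f d c₀)^[j] c₀ ∈ PP d c₀ := subset_closure ⟨j, rfl⟩

theorem SHyp.PP_bd (h : SHyp d M c₀) {x : ℂ} (hx : x ∈ PP d c₀) : ‖x‖ ≤ 2 := by
  have h1 : PP d c₀ ⊆ closedBall 0 2 := by
    apply closure_minimal _ isClosed_closedBall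
    rintro _ ⟨j, rfl⟩
    rw [mem_closedBall_zero_iff]
    exact h.bd j
  have := h1 hx
  rwa [mem_closedBall_zero_iff] at this

theorem PP_maps {x : ℂ} (hx : x ∈ PP d c₀) (n : ℕ) : (f d c₀)^[n] x ∈ PP d c₀ := by
  have h1 : MapsTo ((f d c₀)^[n]) (range fun j : ℕ => (f d c₀)^[j] c₀)
      (range fun j : ℕ => (f d c₀)^[j] c₀) := by
    rintro _ ⟨j, rfl⟩
    exact ⟨n + j, Function.iterate_add_apply _ _ _ _⟩
  exact h1.closure (continuous_fn d c₀ n) hx

theorem continuous_deriv_fn (d : ℕ) (c : ℂ) (n : ℕ) : Continuous (deriv ((f d c)^[n])) := by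
  have h1 : ContDiff ℂ 1 ((f d c)^[n]) := (differentiable_fn d c n).contDiff
  exact h1.continuous_deriv le_rfl

theorem SHyp.PP_exp (h : SHyp d M c₀) {x : ℂ} (hx : x ∈ PP d c₀) :
    2 ≤ ‖deriv ((f d c₀)^[M]) x‖ := by
  have h1 : PP d c₀ ⊆ {x | 2 ≤ ‖deriv ((f d c₀)^[M]) x‖} := by
    apply closure_minimal
    · rintro _ ⟨j, rfl⟩
      exact h.exp j
    · exact isClosed_le continuous_const (continuous_deriv_fn d c₀ M).norm
  exact h1 hx

theorem deriv_iter_add (d : ℕ) (c : ℂ) (m n : ℕ) (x : ℂ) :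
    deriv ((f d c)^[m + n]) x = deriv ((f d c)^[m]) ((f d c)^[n] x) * deriv ((f d c)^[n]) x := by
  rw [Function.iterate_add]
  exact deriv_comp x (differentiable_fn d c m _) (differentiable_fn d c n _)

theorem SHyp.PP_exp_mul (h : SHyp d M c₀) {x : ℂ} (hx : x ∈ PP d c₀) (q : ℕ) :
    2 ^ q ≤ ‖deriv ((f d c₀)^[M * q]) x‖ := by
  induction q with
  | zero => simp
  | succ q ih =>
    have h1 : M * (q + 1) = M + M * q := by ring
    rw [h1, deriv_iter_add, norm_mul, pow_succ, mul_comm ((2 : ℝ) ^ q)]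
    exact mul_le_mul (h.PP_exp (PP_maps hx _)) ih (by positivity) (norm_nonneg _)

/-- Cauchy's estimate. -/
theorem cauchy_iter {c x : ℂ} {s : ℝ} (hs : 0 < s) {n : ℕ}
    (hb : ∀ y ∈ ball x s, ‖(f d c)^[n] y‖ ≤ 2) : ‖deriv ((f d c)^[n]) x‖ ≤ 4 / s := by
  have h1 := Complex.norm_deriv_le_of_forall_mem_sphere_norm_le (f := (f d c)^[n]) (c := x)
    (R := s / 2) (C := 2) (by positivity) ((differentiable_fn d c n).diffContOnCl) (by
      intro y hy
      apply hb
      rw [mem_sphere] at hy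
      rw [mem_ball, hy]
      linarith)
  have h2 : (2 : ℝ) / (s / 2) = 4 / s := by field_simp; norm_num
  rwa [h2] at h1

/-- Near a point of the postcritical set there are points with large orbits. -/
theorem SHyp.not_bdd (h : SHyp d M c₀) {x : ℂ} (hx : x ∈ PP d c₀) {s : ℝ} (hs : 0 < s) :
    ∃ y ∈ ball x s, ∃ n, 2 < ‖(f d c₀)^[n] y‖ := by
  by_contra hcon
  push Not at hcon
  obtain ⟨q, hq⟩ := pow_unbounded_of_one_lt (4 / s) (one_lt_two : (1 : ℝ) < 2)
  have h1 := cauchy_iter (d := d) (c := c₀) hs (n := M * q) (fun y hy => hcon y hy _)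
  have h2 := h.PP_exp_mul hx q
  linarith

theorem SHyp.int_PP (h : SHyp d M c₀) {x : ℂ} {s : ℝ} (hs : 0 < s) :
    ∃ y ∈ ball x s, y ∉ PP d c₀ := by
  by_contra hcon
  push Not at hcon
  obtain ⟨y, hy, n, hn⟩ := h.not_bdd (hcon x (mem_ball_self hs)) hs
  exact absurd (h.PP_bd (PP_maps (hcon y hy) n)) (not_le.mpr hn)

theorem norm_iter_ge {d : ℕ} (hd : 2 ≤ d) {c z : ℂ} (hc : ‖c‖ ≤ 2) (hz : 4 ≤ ‖z‖) (n : ℕ) :
    4 ≤ ‖(f d c)^[n] z‖ := by
  induction n with
  | zero => exact hz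
  | succ n ih =>
    rw [Function.iterate_succ_apply']
    have h1 := sq_le_f hd (c := c) (z := (f d c)^[n] z) (by linarith)
    nlinarith

/-- A bounded open set with frontier in the postcritical set is empty. -/
theorem SHyp.no_hole (h : SHyp d M c₀) {Ω : Set ℂ} (ho : IsOpen Ω) (hb : Bornology.IsBounded Ω)
    (hf : frontier Ω ⊆ PP d c₀) : Ω = ∅ := by
  by_contra hne
  obtain ⟨a, ha⟩ := nonempty_iff_ne_empty.mpr hne
  have hd := h.hd
  have hc2 : ‖c₀‖ ≤ 2 := h.bd 0
  -- boundedness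
  have hbd : ∀ n, ∀ y ∈ Ω, ‖(f d c₀)^[n] y‖ ≤ 2 := by
    intro n y hy
    refine Complex.norm_le_of_forall_mem_frontier_norm_le hb
      (differentiable_fn d c₀ n).diffContOnCl ?_ (subset_closure hy)
    intro x hx
    exact h.PP_bd (PP_maps (hf hx) n)
  -- the critical point is not hit
  have hne0 : ∀ n, ∀ y ∈ Ω, (f d c₀)^[n] y ≠ 0 := by
    intro n y hy h0
    have hana : AnalyticOnNhd ℂ ((f d c₀)^[n + 1]) univ := fun z _ =>
      (differentiable_fn d c₀ (n + 1)).analyticAt z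
    have hopen := hana.is_constant_or_isOpen isPreconnected_univ
    rcases hopen with ⟨w, hw⟩ | hopen
    · have h1 := hw c₀ (mem_univ _)
      have h2 := hw 4 (mem_univ _)
      have h3 := norm_iter_ge hd hc2 (z := 4) (by simp) (n + 1)
      have h4 := h.bd (n + 1)
      rw [h2, ← h1] at h3
      linarith
    · have h1 := hopen Ω (subset_univ _) ho
      have h2 : c₀ ∈ (f d c₀)^[n + 1] '' Ω := by
        refine ⟨y, hy, ?_⟩
        rw [Function.iterate_succ_apply', h0]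
        unfold f
        rw [zero_pow (by omega), zero_add]
      obtain ⟨s, hs, hsub⟩ := Metric.isOpen_iff.mp h1 c₀ h2
      obtain ⟨x, hx, k, hk⟩ := h.not_bdd (orb_mem_PP (d := d) (c₀ := c₀) 0) hs
      obtain ⟨y', hy', hyx⟩ := hsub hx
      rw [← hyx, ← Function.iterate_add_apply] at hk
      exact absurd (hbd _ y' hy') (not_le.mpr hk)
  have hder : ∀ n, ∀ y ∈ Ω, deriv ((f d c₀)^[n]) y ≠ 0 := by
    intro n
    induction n with
    | zero => intro y _; simp
    | succ n ih =>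
      intro y hy
      rw [add_comm, deriv_iter_add]
      refine mul_ne_zero ?_ (ih y hy)
      have h1 : deriv ((f d c₀)^[1]) ((f d c₀)^[n] y) = d * ((f d c₀)^[n] y) ^ (d - 1) := by
        rw [Function.iterate_one]
        have h2 : HasDerivAt (f d c₀) (d * ((f d c₀)^[n] y) ^ (d - 1)) ((f d c₀)^[n] y) := by
          unfold f
          simpa using (hasDerivAt_pow d _).add_const c₀
        exact h2.deriv
      rw [h1]
      exact mul_ne_zero (by exact_mod_cast (by omega : d ≠ 0)) (pow_ne_zero _ (hne0 n y hy))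
  -- contradiction
  obtain ⟨s, hs, hsub⟩ := Metric.isOpen_iff.mp ho a ha
  obtain ⟨q, hq⟩ := pow_unbounded_of_one_lt (4 / s) (one_lt_two : (1 : ℝ) < 2)
  have h1 := cauchy_iter (d := d) (c := c₀) hs (n := M * q) (fun y hy => hbd _ y (hsub hy))
  have hcl : ∀ y ∈ closure Ω, deriv ((f d c₀)^[M * q]) y ≠ 0 := by
    intro y hy
    by_cases hyo : y ∈ Ω
    · exact hder _ y hyo
    · have h2 : y ∈ frontier Ω := by
        rw [frontier, ho.interior_eq]
        exact ⟨hy, hyo⟩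
      have h3 := h.PP_exp_mul (hf h2) q
      intro h4
      rw [h4, norm_zero] at h3
      exact absurd h3 (not_le.mpr (by positivity))
  have h2 : ‖(deriv ((f d c₀)^[M * q]) a)⁻¹‖ ≤ (2 ^ q)⁻¹ := by
    refine Complex.norm_le_of_forall_mem_frontier_norm_le (f := fun y => (deriv ((f d c₀)^[M * q]) y)⁻¹)
      hb ⟨?_, ?_⟩ ?_ (subset_closure ha)
    · intro y hy
      have h3 : Differentiable ℂ (deriv ((f d c₀)^[M * q])) := by
        have := ((differentiable_fn d c₀ (M * q)).contDiff (n := 2)).differentiable_deriv_two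
        exact this
      exact ((h3 y).inv (hder _ y hy)).differentiableWithinAt
    · exact (continuous_deriv_fn d c₀ _).continuousOn.inv₀ hcl
    · intro y hy
      rw [norm_inv]
      exact inv_anti₀ (by positivity) (h.PP_exp_mul (hf hy) q)
  rw [norm_inv] at h2
  have h3 : 0 < ‖deriv ((f d c₀)^[M * q]) a‖ := norm_pos_iff.mpr (hder _ a ha)
  have h4 : (2 : ℝ) ^ q ≤ ‖deriv ((f d c₀)^[M * q]) a‖ :=
    (inv_le_inv₀ h3 (by positivity)).mp h2
  linarith

/-- **Summability off the postcritical set.** -/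
theorem SHyp.summable (h : SHyp d M c₀) {w : ℂ} (hw : w ∉ PP d c₀) :
    ∑' m, UU d c₀ m w ≠ ⊤ := by
  obtain ⟨C0, c0, K⟩ := exists_KC
  have hd := h.hd
  have hC0 := K.one_le
  set Ω : Set ℂ := {w | w ∉ PP d c₀ ∧ ∑' m, UU d c₀ m w = ⊤} with hΩ
  -- local comparison
  have hloc : ∀ w, w ∉ PP d c₀ → ∃ s > 0, ball w s ⊆ (PP d c₀)ᶜ ∧ ∀ x ∈ ball w s,
      (∑' m, UU d c₀ m x ≤ ENNReal.ofReal (C0 ^ 2) * ∑' m, UU d c₀ m w) ∧
      (∑' m, UU d c₀ m w ≤ ENNReal.ofReal (C0 ^ 2) * ∑' m, UU d c₀ m x) := by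
    intro w hw
    obtain ⟨R, hR, hsub⟩ := Metric.isOpen_iff.mp isClosed_PP.isOpen_compl w hw
    refine ⟨R / 8, by positivity, (ball_subset_ball (by linarith)).trans hsub, ?_⟩
    intro x hx
    rw [mem_ball, dist_eq_norm] at hx
    constructor
    · rw [← ENNReal.tsum_mul_left]
      refine ENNReal.tsum_le_tsum fun m => harnack K hd c₀ x (R := R / 2) (by positivity) m ?_ ?_
      · intro j hj
        refine hsub ?_ (orb_mem_PP j)
        rw [mem_ball] at hj ⊢
        have h1 : dist x w < R / 8 := by rw [dist_eq_norm]; exact hx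
        linarith [dist_triangle ((f d c₀)^[j] c₀) x w]
      · rw [norm_sub_rev]
        linarith
    · rw [← ENNReal.tsum_mul_left]
      refine ENNReal.tsum_le_tsum fun m => harnack K hd c₀ w hR m ?_ (by linarith)
      intro j hj
      exact hsub hj (orb_mem_PP j)
  have hopen : IsOpen Ω := by
    rw [Metric.isOpen_iff]
    rintro w ⟨hw1, hw2⟩
    obtain ⟨s, hs, hsub, hcomp⟩ := hloc w hw1
    refine ⟨s, hs, fun x hx => ⟨hsub hx, ?_⟩⟩
    by_contra hne
    have h1 := (hcomp x hx).2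
    rw [hw2, top_le_iff] at h1
    exact ENNReal.mul_ne_top ENNReal.ofReal_ne_top hne h1
  have hbdd : Bornology.IsBounded Ω := by
    refine (Metric.isBounded_ball (x := (0 : ℂ)) (r := 6)).subset ?_
    rintro w ⟨hw1, hw2⟩
    rw [mem_ball_zero_iff]
    by_contra hcon
    exact sum_far K hd (h.bd 0) h.bd (not_lt.mp hcon) hw2
  have hfr : frontier Ω ⊆ PP d c₀ := by
    intro w hw
    by_contra hwP
    obtain ⟨s, hs, hsub, hcomp⟩ := hloc w hwP
    rw [frontier, hopen.interior_eq] at hw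
    obtain ⟨x, hxΩ, hx⟩ := Metric.mem_closure_iff.mp hw.1 s hs
    rw [dist_comm] at hx
    apply hw.2
    refine ⟨hwP, ?_⟩
    by_contra hne
    have h1 := (hcomp x hx).1
    rw [hxΩ.2, top_le_iff] at h1
    exact ENNReal.mul_ne_top ENNReal.ofReal_ne_top hne h1
  have hempty := h.no_hole hopen hbdd hfr
  intro htop
  have : w ∈ Ω := ⟨hw, htop⟩
  rw [hempty] at this
  exact this

theorem SHyp.tendsto (h : SHyp d M c₀) {w : ℂ} (hw : w ∉ PP d c₀) :
    Tendsto (fun m => UU d c₀ m w) atTop (nhds 0) :=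
  ENNReal.tendsto_atTop_zero_of_tsum_ne_top (h.summable hw)

end Pool.Agent.Y298.SH
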