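import Mathlib
import Pool.Agent.Y298.SH.Decay

/-!
# Uniform Lipschitz estimates, uniform expansion near the postcritical set
-/

set_option autoImplicit false

open Set Filter Metric MeasureTheory

namespace Pool.Agent.Y298.SH

open Pool.Agent.TH279.MD
open Pool.Agent.W746.LD (Univ KC exists_KC)

theorem contDiff_iter (d n : ℕ) : ContDiff ℂ 1 (fun p : ℂ × ℂ => (f d p.1)^[n] p.2) := by
  induction n with
  | zero => exact contDiff_snd
  | succ n ih =>
    have h1 : (fun p : ℂ × ℂ => (f d p.1)^[n + 1] p.2) =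
        fun p : ℂ × ℂ => ((f d p.1)^[n] p.2) ^ d + p.1 := by
      funext p
      rw [Function.iterate_succ_apply']
      rfl
    rw [h1]
    exact (ih.pow d).add contDiff_fst

theorem deriv_f (d : ℕ) (c y : ℂ) : deriv (f d c) y = d * y ^ (d - 1) := by
  have h2 : HasDerivAt (f d c) (d * y ^ (d - 1)) y := by
    unfold f
    simpa using (hasDerivAt_pow d _).add_const c
  exact h2.deriv

theorem deriv_iter_eq (d n : ℕ) (c u : ℂ) :
    deriv ((f d c)^[n]) u = ∏ i ∈ Finset.range n, (d : ℂ) * ((f d c)^[i] u) ^ (d - 1) := by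
  induction n with
  | zero => simp
  | succ n ih =>
    rw [Finset.prod_range_succ, ← ih, add_comm, deriv_iter_add, Function.iterate_one, deriv_f,
      mul_comm]

theorem contDiff_deriv (d n : ℕ) : ContDiff ℂ 1 (fun p : ℂ × ℂ => deriv ((f d p.1)^[n]) p.2) := by
  simp only [deriv_iter_eq]
  apply contDiff_prod
  intro i _
  exact contDiff_const.mul ((contDiff_iter d i).pow _)

theorem lip_cpt {F : ℂ × ℂ → ℂ} (hF : ContDiff ℂ 1 F) : ∃ L : ℝ, 1 ≤ L ∧
    ∀ c c' u u' : ℂ, ‖c‖ ≤ 3 → ‖c'‖ ≤ 3 → ‖u‖ ≤ 4 → ‖u'‖ ≤ 4 →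
      ‖F (c, u) - F (c', u')‖ ≤ L * (‖c - c'‖ + ‖u - u'‖) := by
  obtain ⟨K, hK⟩ := LocallyLipschitzOn.exists_lipschitzOnWith_of_compact
    ((isCompact_closedBall (0 : ℂ) 3).prod (isCompact_closedBall (0 : ℂ) 4))
    (hF.locallyLipschitz.locallyLipschitzOn)
  refine ⟨max 1 K, le_max_left _ _, ?_⟩
  intro c c' u u' hc hc' hu hu'
  have h1 := hK.dist_le_mul (c, u) ⟨by rw [mem_closedBall_zero_iff]; exact hc,
    by rw [mem_closedBall_zero_iff]; exact hu⟩ (c', u') ⟨by rw [mem_closedBall_zero_iff]; exact hc',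
    by rw [mem_closedBall_zero_iff]; exact hu'⟩
  rw [dist_eq_norm] at h1
  have h2 : dist (c, u) (c', u') ≤ ‖c - c'‖ + ‖u - u'‖ := by
    rw [Prod.dist_eq, dist_eq_norm, dist_eq_norm]
    exact max_le (by linarith [norm_nonneg (u - u')]) (by linarith [norm_nonneg (c - c')])
  refine h1.trans (mul_le_mul (le_max_right _ _) h2 dist_nonneg (by positivity))

/-- The uniform Lipschitz condition with constant `L` for the first `M` iterates. -/
def Lip (d M : ℕ) (L : ℝ) : Prop := ∀ c c' u u' : ℂ, ‖c‖ ≤ 3 → ‖c'‖ ≤ 3 → ‖u‖ ≤ 4 → ‖u'‖ ≤ 4 →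
  ∀ n ≤ M, ‖(f d c)^[n] u - (f d c')^[n] u'‖ ≤ L * (‖c - c'‖ + ‖u - u'‖) ∧
      ‖deriv ((f d c)^[n]) u - deriv ((f d c')^[n]) u'‖ ≤ L * (‖c - c'‖ + ‖u - u'‖)

/-- The uniform Lipschitz estimates. -/
theorem tay (d M : ℕ) : ∃ L : ℝ, 1 ≤ L ∧ Lip d M L := by
  choose L₁ hL₁ H₁ using fun n => lip_cpt (contDiff_iter d n)
  choose L₂ hL₂ H₂ using fun n => lip_cpt (contDiff_deriv d n)
  refine ⟨∑ n ∈ Finset.range (M + 1), (L₁ n + L₂ n), ?_, ?_⟩
  · have h1 := Finset.single_le_sum (f := fun n => L₁ n + L₂ n) (s := Finset.range (M + 1))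
      (fun n _ => by have := hL₁ n; have := hL₂ n; positivity)
      (Finset.mem_range.mpr (by omega : 0 < M + 1))
    have := hL₁ 0
    have := hL₂ 0
    linarith
  · intro c c' u u' hc hc' hu hu' n hn
    have h1 := Finset.single_le_sum (f := fun n => L₁ n + L₂ n) (s := Finset.range (M + 1))
      (fun n _ => by have := hL₁ n; have := hL₂ n; positivity)
      (Finset.mem_range.mpr (by omega : n < M + 1))
    have h2 := hL₁ n
    have h3 := hL₂ n
    have h4 : 0 ≤ ‖c - c'‖ + ‖u - u'‖ := by positivity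
    constructor
    · refine (H₁ n c c' u u' hc hc' hu hu').trans ?_
      apply mul_le_mul_of_nonneg_right _ h4
      linarith
    · refine (H₂ n c c' u u' hc hc' hu hu').trans ?_
      apply mul_le_mul_of_nonneg_right _ h4
      linarith

variable {d M : ℕ} {c₀ : ℂ}

theorem SHyp.isCompact_PP (h : SHyp d M c₀) : IsCompact (PP d c₀) :=
  (isCompact_closedBall (0 : ℂ) 2).of_isClosed_subset isClosed_PP (fun x hx => by
    rw [mem_closedBall_zero_iff]; exact h.PP_bd hx)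

theorem SHyp.deriv_ne (h : SHyp d M c₀) {z : ℂ} (hz : z ∈ PP d c₀) {n : ℕ} (hn : n ≤ M) :
    deriv ((f d c₀)^[n]) z ≠ 0 := by
  intro h0
  have h1 := h.PP_exp hz
  rw [show M = (M - n) + n by omega, deriv_iter_add, h0, mul_zero, norm_zero] at h1
  linarith

theorem SHyp.deriv_lb (h : SHyp d M c₀) : ∃ κ : ℝ, 0 < κ ∧ κ ≤ 1 ∧ ∀ z ∈ PP d c₀, ∀ n ≤ M,
    κ ≤ ‖deriv ((f d c₀)^[n]) z‖ := by
  have h1 : ∀ n : ℕ, ∃ κ : ℝ, 0 < κ ∧ κ ≤ 1 ∧ (n ≤ M → ∀ z ∈ PP d c₀,
      κ ≤ ‖deriv ((f d c₀)^[n]) z‖) := by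
    intro n
    by_cases hn : n ≤ M
    · obtain ⟨z₀, hz₀, hmin⟩ := h.isCompact_PP.exists_isMinOn ⟨_, orb_mem_PP 0⟩
        (continuous_deriv_fn d c₀ n).norm.continuousOn
      refine ⟨min 1 ‖deriv ((f d c₀)^[n]) z₀‖,
        lt_min one_pos (norm_pos_iff.mpr (h.deriv_ne hz₀ hn)), min_le_left _ _, fun _ z hz => ?_⟩
      exact (min_le_right _ _).trans (hmin hz)
    · exact ⟨1, one_pos, le_rfl, fun h => absurd h hn⟩
  choose κ hκ0 hκ1 hκ using h1
  refine ⟨∏ n ∈ Finset.range (M + 1), κ n, Finset.prod_pos fun n _ => hκ0 n,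
    Finset.prod_le_one (fun n _ => (hκ0 n).le) (fun n _ => hκ1 n), ?_⟩
  intro z hz n hn
  refine le_trans ?_ (hκ n hn z hz)
  rw [← Finset.mul_prod_erase _ _ (Finset.mem_range.mpr (by omega : n < M + 1))]
  exact mul_le_of_le_one_right (hκ0 n).le
    (Finset.prod_le_one (fun n _ => (hκ0 n).le) (fun n _ => hκ1 n))

/-- Mean value form: near `z`, `f_c^n` is close to the affine map with slope `(f_{c₀}^n)'(z)`. -/
theorem affine_close {L : ℝ} (HL : Lip d M L)
    (hL : 0 ≤ L) {c z : ℂ} (hc₀ : ‖c₀‖ ≤ 3) (hc : ‖c‖ ≤ 3) (hz : ‖z‖ ≤ 2) {ρ : ℝ} (hρ1 : ρ ≤ 1)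
    {n : ℕ} (hn : n ≤ M) {u u' : ℂ} (hu : ‖u - z‖ ≤ ρ) (hu' : ‖u' - z‖ ≤ ρ) :
    ‖((f d c)^[n] u - (f d c)^[n] u') - deriv ((f d c₀)^[n]) z * (u - u')‖ ≤
      L * (‖c - c₀‖ + ρ) * ‖u - u'‖ := by
  have h1 := (convex_closedBall z ρ).norm_image_sub_le_of_norm_deriv_le (𝕜 := ℂ)
    (f := fun x => (f d c)^[n] x - deriv ((f d c₀)^[n]) z * x) (C := L * (‖c - c₀‖ + ρ))
    (x := u') (y := u) ?_ ?_ ?_ ?_
  · refine le_trans (le_of_eq ?_) h1
    congr 1
    ring
  · intro x _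
    exact (differentiable_fn d c n x).sub ((differentiableAt_id).const_mul _)
  · intro x hx
    rw [mem_closedBall, dist_eq_norm] at hx
    have e1 : deriv (fun x => (f d c)^[n] x - deriv ((f d c₀)^[n]) z * x) x =
        deriv ((f d c)^[n]) x - deriv ((f d c₀)^[n]) z := by
      have e2 : HasDerivAt (fun x => (f d c)^[n] x - deriv ((f d c₀)^[n]) z * x)
          (deriv ((f d c)^[n]) x - deriv ((f d c₀)^[n]) z * 1) x :=
        (differentiable_fn d c n x).hasDerivAt.sub ((hasDerivAt_id x).const_mul _)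
      rw [e2.deriv, mul_one]
    rw [e1]
    have h4 : ‖x‖ ≤ 4 := by
      calc ‖x‖ = ‖(x - z) + z‖ := by congr 1; ring
        _ ≤ ‖x - z‖ + ‖z‖ := norm_add_le _ _
        _ ≤ 4 := by linarith
    refine (HL c c₀ x z hc hc₀ h4 (by linarith) n hn).2.trans ?_
    gcongr
  · rw [mem_closedBall, dist_eq_norm]; exact hu'
  · rw [mem_closedBall, dist_eq_norm]; exact hu

/-- **Expansion along the postcritical set, on a definite neighbourhood.** -/
theorem SHyp.expand (h : SHyp d M c₀) : ∃ ρ κ : ℝ, 0 < ρ ∧ ρ ≤ 1 ∧ 0 < κ ∧ κ ≤ 1 ∧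
    ∀ z ∈ PP d c₀, ∀ n : ℕ, ∀ u : ℂ,
      (∀ i < n, ‖(f d c₀)^[i] u - (f d c₀)^[i] z‖ < ρ) →
      κ * ‖u - z‖ ≤ ‖(f d c₀)^[n] u - (f d c₀)^[n] z‖ := by
  obtain ⟨L, hL1, HL⟩ := tay d M
  have hc₀3 : ‖c₀‖ ≤ 3 := (h.bd 0).trans (by norm_num)
  obtain ⟨κ, hκ0, hκ1, hκ⟩ := h.deriv_lb
  have hM := h.hM
  set ρ : ℝ := κ / (2 * L) with hρ
  have hρ0 : 0 < ρ := by positivity
  have hρ1 : ρ ≤ 1 := by
    rw [hρ, div_le_one (by positivity)]
    linarith
  have hLρ : L * ρ = κ / 2 := by rw [hρ]; field_simp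
  -- one step
  have step : ∀ z ∈ PP d c₀, ∀ n ≤ M, ∀ u : ℂ, ‖u - z‖ < ρ →
      (‖deriv ((f d c₀)^[n]) z‖ - κ / 2) * ‖u - z‖ ≤ ‖(f d c₀)^[n] u - (f d c₀)^[n] z‖ := by
    intro z hz n hn u hu
    have h1 := affine_close (M := M) HL (by linarith) (c := c₀) (z := z) hc₀3 hc₀3 (h.PP_bd hz)
      hρ1 hn (u := u) (u' := z) hu.le (by simpa using hρ0.le)
    rw [sub_self, norm_zero, zero_add, hLρ] at h1
    have h2 : ‖deriv ((f d c₀)^[n]) z * (u - z)‖ ≤ ‖(f d c₀)^[n] u - (f d c₀)^[n] z‖ +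
        ‖((f d c₀)^[n] u - (f d c₀)^[n] z) - deriv ((f d c₀)^[n]) z * (u - z)‖ := by
      have := norm_sub_le ((f d c₀)^[n] u - (f d c₀)^[n] z)
        (((f d c₀)^[n] u - (f d c₀)^[n] z) - deriv ((f d c₀)^[n]) z * (u - z))
      rwa [sub_sub_cancel] at this
    rw [norm_mul] at h2
    linarith
  refine ⟨ρ, κ / 2, hρ0, hρ1, by positivity, by linarith, ?_⟩
  intro z hz n
  induction n using Nat.strong_induction_on generalizing z with
  | _ n ih =>
    intro u hu
    by_cases hnM : n < M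
    · rcases Nat.eq_zero_or_pos n with rfl | hn
      · simp only [Function.iterate_zero, id_eq]
        have := norm_nonneg (u - z)
        nlinarith
      · have h1 : ‖u - z‖ < ρ := by simpa using hu 0 hn
        refine le_trans ?_ (step z hz n hnM.le u h1)
        apply mul_le_mul_of_nonneg_right _ (norm_nonneg _)
        have := hκ z hz n hnM.le
        linarith
    · have hMn : M ≤ n := not_lt.mp hnM
      have h1 : ‖u - z‖ < ρ := by simpa using hu 0 (by omega)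
      have h2 := step z hz M le_rfl u h1
      have h3 := ih (n - M) (by omega) _ (PP_maps hz M) ((f d c₀)^[M] u) (by
        intro i hi
        rw [← Function.iterate_add_apply, ← Function.iterate_add_apply]
        exact hu (i + M) (by omega))
      rw [← Function.iterate_add_apply, ← Function.iterate_add_apply,
        show n - M + M = n by omega] at h3
      have h4 := h.PP_exp hz
      have h5 := norm_nonneg (u - z)
      refine le_trans ?_ h3
      apply mul_le_mul_of_nonneg_left _ (by positivity)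
      nlinarith

/-- **No hits.** Inverse branches on a small ball whose value at the centre is not close to the
critical value do not take the critical value. -/
theorem SHyp.nohit (h : SHyp d M c₀) {δ : ℝ} (hδ : 0 < δ) : ∃ R : ℝ, 0 < R ∧ ∀ (w : ℂ) (j : ℕ)
    (g : ℂ → ℂ), DifferentiableOn ℂ g (ball w R) →
      (∀ x ∈ ball w R, (f d c₀)^[j] (g x) = x) → δ ≤ ‖g w - c₀‖ → ∀ x ∈ ball w R, g x ≠ c₀ := by
  obtain ⟨ρ, κ, hρ0, hρ1, hκ0, hκ1, hexp⟩ := h.expand
  set R : ℝ := min (ρ * κ / 4) (δ * κ / 2) with hR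
  have hR0 : 0 < R := by positivity
  have hR1 : R ≤ ρ * κ / 4 := min_le_left _ _
  have hR2 : R ≤ δ * κ / 2 := min_le_right _ _
  refine ⟨R, hR0, ?_⟩
  intro w j g hg hgj hgw x₀ hx₀ hgx
  have hzj : (f d c₀)^[j] c₀ = x₀ := by rw [← hgj x₀ hx₀, hgx]
  set S : Set ℂ := {y | y ∈ ball w R ∧ ∀ i ∈ Finset.range (j + 1),
    ‖(f d c₀)^[i] (g y) - (f d c₀)^[i] c₀‖ < ρ} with hS
  have hcont : ∀ i, ContinuousOn (fun y => ‖(f d c₀)^[i] (g y) - (f d c₀)^[i] c₀‖) (ball w R) :=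
    fun i => (((continuous_fn d c₀ i).comp_continuousOn hg.continuousOn).sub
      continuousOn_const).norm
  have hSo : IsOpen S := by
    have h1 : S = ⋂ i ∈ Finset.range (j + 1), (ball w R ∩ (fun y =>
        ‖(f d c₀)^[i] (g y) - (f d c₀)^[i] c₀‖) ⁻¹' Iio ρ) := by
      ext y
      simp only [hS, mem_ofPred_eq, mem_iInter, mem_inter_iff, mem_preimage, mem_Iio]
      constructor
      · rintro ⟨h1, h2⟩ i hi
        exact ⟨h1, h2 i hi⟩
      · intro h1
        exact ⟨(h1 0 (by simp)).1, fun i hi => (h1 i hi).2⟩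
    rw [h1]
    apply isOpen_biInter_finset
    intro i _
    exact (hcont i).isOpen_inter_preimage isOpen_ball isOpen_Iio
  -- the estimate on `S`
  have hest : ∀ y ∈ S, ∀ i ≤ j, κ * ‖(f d c₀)^[i] (g y) - (f d c₀)^[i] c₀‖ ≤ ‖y - x₀‖ := by
    rintro y ⟨hy, hyS⟩ i hi
    have h1 := hexp _ (orb_mem_PP (d := d) (c₀ := c₀) i) (j - i) ((f d c₀)^[i] (g y)) (by
      intro k hk
      rw [← Function.iterate_add_apply, ← Function.iterate_add_apply]
      exact hyS (k + i) (Finset.mem_range.mpr (by omega)))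
    rw [← Function.iterate_add_apply, ← Function.iterate_add_apply, Nat.sub_add_cancel hi,
      hgj y hy, hzj] at h1
    exact h1
  have hdist : ∀ y ∈ ball w R, ‖y - x₀‖ < 2 * R := by
    intro y hy
    rw [← dist_eq_norm]
    rw [mem_ball] at hy hx₀
    rw [dist_comm] at hx₀
    linarith [dist_triangle y w x₀]
  have hsub : ball w R ⊆ S := by
    refine (convex_ball w R).isPreconnected.subset_of_closure_inter_subset hSo ?_ ?_
    · refine ⟨x₀, hx₀, hx₀, ?_⟩
      intro i _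
      rw [hgx, sub_self, norm_zero]
      exact hρ0
    · rintro y ⟨hyc, hyb⟩
      refine ⟨hyb, ?_⟩
      intro i hi
      have hij : i ≤ j := by have := Finset.mem_range.mp hi; omega
      have h1 : κ * ‖(f d c₀)^[i] (g y) - (f d c₀)^[i] c₀‖ ≤ ‖y - x₀‖ := by
        have hc1 : ContinuousAt (fun y => κ * ‖(f d c₀)^[i] (g y) - (f d c₀)^[i] c₀‖) y :=
          ((hcont i).continuousAt (isOpen_ball.mem_nhds hyb)).const_mul κ
        have hc2 : ContinuousAt (fun y => ‖y - x₀‖) y := by fun_prop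
        have : (nhdsWithin y S).NeBot := mem_closure_iff_nhdsWithin_neBot.mp hyc
        refine le_of_tendsto_of_tendsto (hc1.mono_left (nhdsWithin_le_nhds (s := S)))
          (hc2.mono_left (nhdsWithin_le_nhds (s := S))) ?_
        filter_upwards [self_mem_nhdsWithin] with x hx
        exact hest x hx i hij
      have h2 := hdist y hyb
      have h3 : κ * ‖(f d c₀)^[i] (g y) - (f d c₀)^[i] c₀‖ < κ * ρ := by
        have : ρ * κ / 4 * 2 < κ * ρ := by
          have : 0 < κ * ρ := by positivity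
          linarith
        linarith
      exact lt_of_mul_lt_mul_left h3 hκ0.le
  have h1 := hest w (hsub (mem_ball_self hR0)) 0 (by omega)
  simp only [Function.iterate_zero, id_eq] at h1
  have h2 : ‖w - x₀‖ < R := by
    rw [mem_ball, dist_comm, dist_eq_norm] at hx₀
    exact hx₀
  have h3 : κ * δ ≤ κ * ‖g w - c₀‖ := mul_le_mul_of_nonneg_left hgw hκ0.le
  have h4 : 0 < δ * κ := by positivity
  linarith

end Pool.Agent.Y298.SH
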