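import Mathlib
import Pool.Agent.Y298.SH.Tay

/-!
# The truncated operator
-/

set_option autoImplicit false

open Set Filter Metric MeasureTheory

namespace Pool.Agent.Y298.SH

open Pool.Agent.TH279.MD
open Pool.Agent.W746.LD (Univ KC exists_KC)

/-- The cutoff. -/
noncomputable def chi (δ : ℝ) (y : ℂ) : ℝ := min 1 (max 0 (‖y‖ / δ - 1))

theorem chi_nonneg (δ : ℝ) (y : ℂ) : 0 ≤ chi δ y := le_min zero_le_one (le_max_left _ _)

theorem chi_le_one (δ : ℝ) (y : ℂ) : chi δ y ≤ 1 := min_le_left _ _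

theorem chi_zero {δ : ℝ} (hδ : 0 < δ) {y : ℂ} (hy : ‖y‖ ≤ δ) : chi δ y = 0 := by
  unfold chi
  have h1 : ‖y‖ / δ - 1 ≤ 0 := by
    rw [sub_nonpos, div_le_one hδ]
    exact hy
  rw [max_eq_left h1, min_eq_right zero_le_one]

theorem chi_one {δ : ℝ} (hδ : 0 < δ) {y : ℂ} (hy : 2 * δ ≤ ‖y‖) : chi δ y = 1 := by
  unfold chi
  have h1 : 1 ≤ ‖y‖ / δ - 1 := by
    rw [le_sub_iff_add_le, le_div_iff₀ hδ]
    linarith
  rw [max_eq_right (by linarith), min_eq_left h1]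

theorem continuous_chi (δ : ℝ) : Continuous (chi δ) := by
  unfold chi
  fun_prop

/-- The truncated weight. -/
noncomputable def wt (d : ℕ) (δ : ℝ) (y : ℂ) : ℝ :=
  chi δ y / ((d : ℝ) ^ 2 * (max ‖y‖ δ) ^ (2 * (d - 1)))

theorem wt_eq {d : ℕ} {δ : ℝ} (hδ : 0 < δ) (y : ℂ) :
    wt d δ y = chi δ y * (1 / ((d : ℝ) ^ 2 * ‖y‖ ^ (2 * (d - 1)))) := by
  unfold wt
  rcases le_or_gt ‖y‖ δ with h | h
  · rw [chi_zero hδ h, zero_div, zero_mul]
  · rw [max_eq_left h.le, mul_one_div]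

theorem wt_nonneg {d : ℕ} {δ : ℝ} (hδ : 0 < δ) (y : ℂ) : 0 ≤ wt d δ y := by
  rw [wt_eq hδ]
  exact mul_nonneg (chi_nonneg _ _) (by positivity)

theorem continuous_wt {d : ℕ} (hd : 2 ≤ d) {δ : ℝ} (hδ : 0 < δ) : Continuous (wt d δ) := by
  unfold wt
  apply (continuous_chi δ).div (by fun_prop)
  intro y
  have h1 : 0 < max ‖y‖ δ := lt_max_of_lt_right hδ
  have h2 : (0 : ℝ) < d := by exact_mod_cast (by omega : 0 < d)
  positivity

/-- The truncated operator on real functions. -/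
noncomputable def RO (d : ℕ) (δ : ℝ) (c : ℂ) (φ : ℂ → ℝ) : ℂ → ℝ :=
  TR d c (fun y => wt d δ y * φ y)

theorem RO_apply (d : ℕ) (δ : ℝ) (c : ℂ) (φ : ℂ → ℝ) (w : ℂ) : RO d δ c φ w =
    ∑ ζ ∈ RU d, wt d δ (ζ * rt d (w - c)) * φ (ζ * rt d (w - c)) := rfl

/-- The iterates on `1`. -/
noncomputable def psi (d : ℕ) (δ : ℝ) (c : ℂ) (m : ℕ) : ℂ → ℝ := (RO d δ c)^[m] (fun _ => 1)

theorem psi_succ (d : ℕ) (δ : ℝ) (c : ℂ) (m : ℕ) :
    psi d δ c (m + 1) = RO d δ c (psi d δ c m) := by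
  unfold psi
  rw [Function.iterate_succ_apply']

theorem RO_nonneg {d : ℕ} {δ : ℝ} (hδ : 0 < δ) {c : ℂ} {φ : ℂ → ℝ} (h : ∀ y, 0 ≤ φ y) (w : ℂ) :
    0 ≤ RO d δ c φ w :=
  Finset.sum_nonneg fun _ _ => mul_nonneg (wt_nonneg hδ _) (h _)

theorem psi_nonneg {d : ℕ} {δ : ℝ} (hδ : 0 < δ) (c : ℂ) (m : ℕ) (w : ℂ) :
    0 ≤ psi d δ c m w := by
  induction m generalizing w with
  | zero => exact zero_le_one
  | succ m ih =>
    rw [psi_succ]
    exact RO_nonneg hδ ih w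

/-- Joint continuity of the sum over the preimages. -/
theorem continuous_TR2 {d : ℕ} (hd : 2 ≤ d) {F : ℂ × ℂ → ℝ} (hF : Continuous F) :
    Continuous fun p : ℂ × ℂ => TR d p.1 (fun y => F (p.1, y)) p.2 := by
  set G : ℂ × ℂ → ℝ := fun p => ∑ ζ ∈ RU d, F (p.1, ζ * p.2) with hG
  have hGc : Continuous G := by
    apply continuous_finsetSum
    intro ζ _
    exact hF.comp (continuous_fst.prodMk (continuous_const.mul continuous_snd))
  have hGi : ∀ ω ∈ RU d, ∀ c y, G (c, ω * y) = G (c, y) := fun ω hω c y =>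
    sum_RU_mul hd (fun y => F (c, y)) hω y
  have key : Continuous fun p : ℂ × ℂ => G (p.1, rt d p.2) := by
    rw [continuous_iff_continuousAt]
    rintro ⟨c₁, z₁⟩
    rw [Metric.continuousAt_iff]
    intro ε hε
    have hδ : ∀ ζ : ℂ, ∃ δ > 0, ∀ ⦃x : ℂ × ℂ⦄, dist x (c₁, ζ * rt d z₁) < δ →
        dist (G x) (G (c₁, ζ * rt d z₁)) < ε := fun ζ =>
      Metric.continuousAt_iff.1 (hGc.continuousAt (x := (c₁, ζ * rt d z₁))) ε hε
    choose δ hδ0 hδ1 using hδ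
    obtain ⟨δ', hδ'0, hδ'⟩ : ∃ δ' : ℝ, 0 < δ' ∧ ∀ ζ ∈ RU d, δ' ≤ δ ζ := by
      have hne : (RU d).Nonempty := ⟨1, one_mem_RU hd⟩
      exact ⟨(RU d).inf' hne δ, (Finset.lt_inf'_iff hne).mpr fun ζ _ => hδ0 ζ,
        fun ζ hζ => Finset.inf'_le _ hζ⟩
    refine ⟨min δ' (∏ ζ ∈ RU d, δ ζ), lt_min hδ'0 (Finset.prod_pos fun ζ _ => hδ0 ζ), ?_⟩
    rintro ⟨c, w⟩ hw
    rw [Prod.dist_eq, max_lt_iff] at hw
    have hw1 : dist c c₁ < δ' := hw.1.trans_le (min_le_left _ _)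
    have hw2 : dist w z₁ < ∏ ζ ∈ RU d, δ ζ := hw.2.trans_le (min_le_right _ _)
    have h3 : dist w z₁ = ∏ ζ ∈ RU d, dist (rt d w) (ζ * rt d z₁) := by
      have h4 := pow_sub_pow hd (rt d w) (rt d z₁)
      rw [rt_pow hd, rt_pow hd] at h4
      rw [dist_eq_norm, h4, norm_prod]
      refine Finset.prod_congr rfl fun ζ _ => ?_
      rw [dist_eq_norm]
    rw [h3] at hw2
    have h4 : ∃ ζ ∈ RU d, dist (rt d w) (ζ * rt d z₁) < δ ζ := by
      by_contra h5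
      push Not at h5
      exact absurd hw2 (not_lt.2 (Finset.prod_le_prod (fun ζ _ => (hδ0 ζ).le) h5))
    obtain ⟨ζ, hζ, h5⟩ := h4
    have h6 := hδ1 ζ (x := (c, rt d w)) (by
      rw [Prod.dist_eq]
      exact max_lt (hw1.trans_le (hδ' ζ hζ)) h5)
    rwa [hGi ζ hζ] at h6
  exact key.comp (continuous_fst.prodMk (continuous_snd.sub continuous_fst))

theorem continuous_psi {d : ℕ} (hd : 2 ≤ d) {δ : ℝ} (hδ : 0 < δ) (m : ℕ) :
    Continuous fun p : ℂ × ℂ => psi d δ p.1 m p.2 := by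
  induction m with
  | zero => exact continuous_const
  | succ m ih =>
    simp only [psi_succ]
    exact continuous_TR2 hd (F := fun p : ℂ × ℂ => wt d δ p.2 * psi d δ p.1 m p.2)
      (((continuous_wt hd hδ).comp continuous_snd).mul ih)

/-- Comparison with the operator on `ENNReal`-valued functions. -/
theorem LE_ofReal {d : ℕ} (hd : 2 ≤ d) {δ : ℝ} (hδ : 0 < δ) {c : ℂ} {φ : ℂ → ℝ}
    (hφ : ∀ y, 0 ≤ φ y) (w : ℂ) :
    LE d c (fun y => ENNReal.ofReal (chi δ y * φ y)) w = ENNReal.ofReal (RO d δ c φ w) := by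
  unfold LE RO TR
  rw [Finset.sum_mul, ENNReal.ofReal_sum_of_nonneg
    (fun ζ _ => mul_nonneg (wt_nonneg hδ _) (hφ _))]
  apply Finset.sum_congr rfl
  intro ζ hζ
  rw [← ENNReal.ofReal_mul (mul_nonneg (chi_nonneg _ _) (hφ _)), wt_eq hδ]
  have h1 : (ζ * rt d (w - c)) ^ d = w - c := by
    rw [mul_pow, (mem_RU hd).mp hζ, one_mul, rt_pow hd]
  rw [norm_pow_al hd h1]
  congr 1
  ring

theorem LT_iter_ofReal {d : ℕ} (hd : 2 ≤ d) {δ : ℝ} (hδ : 0 < δ) {c : ℂ} (m : ℕ) (w : ℂ) :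
    (LT d (fun y => ENNReal.ofReal (chi δ y)) c)^[m] (fun _ => 1) w =
      ENNReal.ofReal (psi d δ c m w) := by
  induction m generalizing w with
  | zero =>
    show (1 : ENNReal) = ENNReal.ofReal 1
    rw [ENNReal.ofReal_one]
  | succ m ih =>
    rw [Function.iterate_succ_apply', psi_succ, ← LE_ofReal hd hδ (psi_nonneg hδ c m)]
    unfold LT
    congr 1
    funext y
    rw [ENNReal.ofReal_mul (chi_nonneg _ _)]
    congr 1
    exact ih y

theorem psi_le_UU {d : ℕ} (hd : 2 ≤ d) {δ : ℝ} (hδ : 0 < δ) {c : ℂ} (m : ℕ) (w : ℂ) :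
    ENNReal.ofReal (psi d δ c m w) ≤ UU d c m w := by
  rw [← LT_iter_ofReal hd hδ]
  exact LT_iter_le (fun y => by
    rw [← ENNReal.ofReal_one]
    exact ENNReal.ofReal_le_ofReal (chi_le_one _ _)) m _ w

variable {d M : ℕ} {c₀ : ℂ}

/-- **Pointwise decay of the truncated iterates, everywhere.** -/
theorem SHyp.psi_tendsto (h : SHyp d M c₀) {δ : ℝ} (hδ : 0 < δ) (w : ℂ) :
    Tendsto (fun m => psi d δ c₀ m w) atTop (nhds 0) := by
  obtain ⟨C0, c0, K⟩ := exists_KC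
  have hd := h.hd
  have hC0 := K.one_le
  obtain ⟨R, hR, hno⟩ := h.nohit (δ := δ ^ d) (by positivity)
  obtain ⟨x, hx, hxP⟩ := h.int_PP (x := w) (s := R / 4) (by positivity)
  rw [mem_ball, dist_eq_norm] at hx
  have h1 : ∀ m, ENNReal.ofReal (psi d δ c₀ m w) ≤ ENNReal.ofReal (C0 ^ 2) * UU d c₀ m x := by
    intro m
    rw [← LT_iter_ofReal hd hδ]
    refine harnackT K hd c₀ w hR _ (fun y => by
      rw [← ENNReal.ofReal_one]
      exact ENNReal.ofReal_le_ofReal (chi_le_one _ _)) m ?_ hx.le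
    rintro j _ g hg hgj ⟨ζ, hζ, hT⟩
    refine hno w j g hg hgj ?_
    have h2 : δ < ‖ζ * rt d (g w - c₀)‖ := by
      by_contra hcon
      rw [chi_zero hδ (not_lt.mp hcon), ENNReal.ofReal_zero] at hT
      exact hT rfl
    rw [norm_mul, RU_norm hd hζ, one_mul] at h2
    have h3 : ‖rt d (g w - c₀)‖ ^ d = ‖g w - c₀‖ := by rw [← norm_pow, rt_pow hd]
    rw [← h3]
    exact pow_le_pow_left₀ hδ.le h2.le d
  have h2 : Tendsto (fun m => ENNReal.ofReal (C0 ^ 2) * UU d c₀ m x) atTop (nhds 0) := by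
    have := ENNReal.Tendsto.const_mul (h.tendsto hxP) (a := ENNReal.ofReal (C0 ^ 2))
      (Or.inr ENNReal.ofReal_ne_top)
    simpa using this
  have h3 : Tendsto (fun m => ENNReal.ofReal (psi d δ c₀ m w)) atTop (nhds 0) :=
    tendsto_of_tendsto_of_tendsto_of_le_of_le tendsto_const_nhds h2 (fun _ => bot_le) h1
  have h4 := (ENNReal.tendsto_toReal ENNReal.zero_ne_top).comp h3
  refine h4.congr ?_
  intro m
  simp only [Function.comp]
  rw [ENNReal.toReal_ofReal (psi_nonneg hδ c₀ m w)]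

theorem pre_ball {d : ℕ} (hd : 2 ≤ d) {c : ℂ} {r : ℝ} (hc : ‖c‖ ≤ 3) (hr : 4 ≤ r) {w ζ : ℂ}
    (hw : ‖w‖ ≤ r) (hζ : ζ ∈ RU d) : ‖ζ * rt d (w - c)‖ ≤ r := by
  by_contra hcon
  have h1 := f_large hd hc hr (not_le.mp hcon)
  have h2 : f d c (ζ * rt d (w - c)) = w := by
    unfold f
    rw [mul_pow, (mem_RU hd).mp hζ, one_mul, rt_pow hd]
    ring
  rw [h2] at h1
  linarith

theorem RO_iter_le {d : ℕ} (hd : 2 ≤ d) {δ : ℝ} (hδ : 0 < δ) {c : ℂ} {r : ℝ} (hc : ‖c‖ ≤ 3)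
    (hr : 4 ≤ r) {φ : ℂ → ℝ} {C : ℝ} (h : ∀ w, ‖w‖ ≤ r → φ w ≤ C) (m : ℕ) {w : ℂ}
    (hw : ‖w‖ ≤ r) : (RO d δ c)^[m] φ w ≤ C * psi d δ c m w := by
  induction m generalizing w with
  | zero =>
    show φ w ≤ C * 1
    rw [mul_one]
    exact h w hw
  | succ m ih =>
    rw [Function.iterate_succ_apply', psi_succ, RO_apply, RO_apply, Finset.mul_sum]
    apply Finset.sum_le_sum
    intro ζ hζ
    have h1 := ih (pre_ball hd hc hr hw hζ)
    have h2 := wt_nonneg (d := d) hδ (ζ * rt d (w - c))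
    calc wt d δ (ζ * rt d (w - c)) * (RO d δ c)^[m] φ (ζ * rt d (w - c))
        ≤ wt d δ (ζ * rt d (w - c)) * (C * psi d δ c m (ζ * rt d (w - c))) :=
          mul_le_mul_of_nonneg_left h1 h2
      _ = C * (wt d δ (ζ * rt d (w - c)) * psi d δ c m (ζ * rt d (w - c))) := by ring

theorem RO_iter_add (d : ℕ) (δ : ℝ) (c : ℂ) (m n : ℕ) :
    psi d δ c (m + n) = (RO d δ c)^[m] (psi d δ c n) := by
  unfold psi
  rw [Function.iterate_add_apply]

theorem continuous_psi_right {d : ℕ} (hd : 2 ≤ d) {δ : ℝ} (hδ : 0 < δ) (c : ℂ) (m : ℕ) :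
    Continuous (psi d δ c m) := by
  have h1 : Continuous (fun w : ℂ => ((c, w) : ℂ × ℂ)) := by fun_prop
  have h2 : Continuous (fun w : ℂ => psi d δ ((c, w) : ℂ × ℂ).1 m ((c, w) : ℂ × ℂ).2) :=
    (continuous_psi hd hδ m).comp h1
  exact h2

/-- **Uniform decay of the truncated iterates.** -/
theorem SHyp.psi_small (h : SHyp d M c₀) {δ : ℝ} (hδ : 0 < δ) {r : ℝ} (hr : 4 ≤ r) {ε : ℝ}
    (hε : 0 < ε) : ∃ m : ℕ, 1 ≤ m ∧ ∀ w : ℂ, ‖w‖ ≤ r → psi d δ c₀ m w ≤ ε := by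
  have hd := h.hd
  have hc3 : ‖c₀‖ ≤ 3 := (h.bd 0).trans (by norm_num)
  -- stopping times
  have h1 : ∀ w : ℂ, ∃ m : ℕ, 1 ≤ m ∧ psi d δ c₀ m w < 1 / 2 := by
    intro w
    have h2 := (h.psi_tendsto hδ w).eventually_lt_const (by norm_num : (0 : ℝ) < 1 / 2)
    obtain ⟨m, hm1, hm2⟩ := (h2.and (eventually_ge_atTop 1)).exists
    exact ⟨m, hm2, hm1⟩
  choose mm hmm1 hmm2 using h1
  obtain ⟨t, ht⟩ := (isCompact_closedBall (0 : ℂ) r).elim_finite_subcover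
    (fun x : ℂ => {w | psi d δ c₀ (mm x) w < 1 / 2})
    (fun x => isOpen_lt (continuous_psi_right hd hδ c₀ _) continuous_const)
    (fun x _ => mem_iUnion.mpr ⟨x, hmm2 x⟩)
  obtain ⟨N, hN⟩ : ∃ N : ℕ, ∀ x ∈ t, mm x ≤ N := ⟨t.sup mm, fun x hx => Finset.le_sup hx⟩
  have hN1 : ∀ w : ℂ, ‖w‖ ≤ r → ∃ m, 1 ≤ m ∧ m ≤ N ∧ psi d δ c₀ m w < 1 / 2 := by
    intro w hw
    have h2 := ht (mem_closedBall_zero_iff.mpr hw)
    simp only [mem_iUnion] at h2
    obtain ⟨x, hx, hxw⟩ := h2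
    exact ⟨mm x, hmm1 x, hN x hx, hxw⟩
  obtain ⟨A, hA0, hA⟩ : ∃ A : ℝ, 0 < A ∧ ∀ n ≤ N, ∀ w : ℂ, ‖w‖ ≤ r → psi d δ c₀ n w ≤ A := by
    have h2 : ∀ n, ∃ B : ℝ, 0 < B ∧ ∀ w : ℂ, ‖w‖ ≤ r → psi d δ c₀ n w ≤ B := by
      intro n
      obtain ⟨B, hB⟩ := (isCompact_closedBall (0 : ℂ) r).exists_bound_of_continuousOn
        (continuous_psi_right hd hδ c₀ n).continuousOn
      refine ⟨|B| + 1, by positivity, fun w hw => ?_⟩
      have h3 := hB w (mem_closedBall_zero_iff.mpr hw)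
      rw [Real.norm_eq_abs] at h3
      have h4 := le_abs_self (psi d δ c₀ n w)
      have h5 := le_abs_self B
      linarith
    choose B hB0 hB using h2
    refine ⟨∑ n ∈ Finset.range (N + 1), B n, Finset.sum_pos (fun n _ => hB0 n) (by simp), ?_⟩
    intro n hn w hw
    refine (hB n w hw).trans ?_
    exact Finset.single_le_sum (f := B) (fun n _ => (hB0 n).le)
      (Finset.mem_range.mpr (by omega : n < N + 1))
  have key : ∀ k n : ℕ, k * N ≤ n → ∀ w : ℂ, ‖w‖ ≤ r → psi d δ c₀ n w ≤ A * (1 / 2) ^ k := by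
    intro k
    induction k with
    | zero =>
      intro n
      induction n using Nat.strong_induction_on with
      | _ n ih =>
        intro _ w hw
        rw [pow_zero, mul_one]
        by_cases hn : n ≤ N
        · exact hA n hn w hw
        · obtain ⟨m, hm1, hm2, hm3⟩ := hN1 w hw
          have h2 : psi d δ c₀ n w ≤ A * psi d δ c₀ m w := by
            rw [show n = m + (n - m) by omega, RO_iter_add]
            refine RO_iter_le hd hδ hc3 hr (fun y hy => ?_) m hw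
            have := ih (n - m) (by omega) (by omega) y hy
            rwa [pow_zero, mul_one] at this
          nlinarith
    | succ k ih =>
      intro n hn w hw
      obtain ⟨m, hm1, hm2, hm3⟩ := hN1 w hw
      have hkn : k * N ≤ n - m ∧ m ≤ n := by
        have : (k + 1) * N = k * N + N := by ring
        omega
      have h2 : psi d δ c₀ n w ≤ A * (1 / 2) ^ k * psi d δ c₀ m w := by
        rw [show n = m + (n - m) by omega, RO_iter_add]
        exact RO_iter_le hd hδ hc3 hr (fun y hy => ih (n - m) hkn.1 y hy) m hw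
      have h3 : 0 < A * (1 / 2) ^ k := by positivity
      rw [pow_succ]
      nlinarith
  obtain ⟨k, hk⟩ := exists_pow_lt_of_lt_one (by positivity : 0 < ε / A)
    (by norm_num : (1 / 2 : ℝ) < 1)
  refine ⟨k * N + 1, by omega, fun w hw => ?_⟩
  refine (key k (k * N + 1) (by omega) w hw).trans ?_
  rw [lt_div_iff₀ hA0] at hk
  linarith

/-- **Uniform bound of the Green sums near the critical point.** -/
theorem SHyp.psi_sum (h : SHyp d M c₀) : ∃ ρ₀ Γ : ℝ, 0 < ρ₀ ∧ 0 ≤ Γ ∧ ∀ δ : ℝ, 0 < δ → ∀ m : ℕ,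
    ∀ y : ℂ, ‖y‖ ≤ ρ₀ → ∑ j ∈ Finset.range m, psi d δ c₀ j y ≤ Γ := by
  obtain ⟨C0, c0, K⟩ := exists_KC
  have hd := h.hd
  have hM := h.hM
  have hC0 := K.one_le
  have h0 : (0 : ℂ) ∉ PP d c₀ := by
    intro h0
    have h1 := h.PP_exp h0
    rw [show M = (M - 1) + 1 by omega, deriv_iter_add, Function.iterate_one, deriv_f,
      zero_pow (by omega), mul_zero, mul_zero, norm_zero] at h1
    linarith
  obtain ⟨R, hR, hsub⟩ := Metric.isOpen_iff.mp isClosed_PP.isOpen_compl 0 h0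
  have hS := h.summable h0
  set Γ : ENNReal := ENNReal.ofReal (C0 ^ 2) * ∑' m, UU d c₀ m 0 with hΓ
  have hΓt : Γ ≠ ⊤ := ENNReal.mul_ne_top ENNReal.ofReal_ne_top hS
  refine ⟨R / 8, Γ.toReal, by positivity, ENNReal.toReal_nonneg, ?_⟩
  intro δ hδ m y hy
  have h1 : ∀ j, UU d c₀ j y ≤ ENNReal.ofReal (C0 ^ 2) * UU d c₀ j 0 := by
    intro j
    refine harnack K hd c₀ y (R := R / 2) (by positivity) j ?_ ?_
    · intro i hi
      refine hsub ?_ (orb_mem_PP i)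
      rw [mem_ball] at hi ⊢
      have h2 : dist y 0 ≤ R / 8 := by rw [dist_zero_right]; exact hy
      linarith [dist_triangle ((f d c₀)^[i] c₀) y 0]
    · rw [zero_sub, norm_neg]
      linarith
  have h2 : ENNReal.ofReal (∑ j ∈ Finset.range m, psi d δ c₀ j y) ≤ Γ := by
    rw [ENNReal.ofReal_sum_of_nonneg (fun j _ => psi_nonneg hδ c₀ j y)]
    calc ∑ j ∈ Finset.range m, ENNReal.ofReal (psi d δ c₀ j y)
        ≤ ∑ j ∈ Finset.range m, ENNReal.ofReal (C0 ^ 2) * UU d c₀ j 0 :=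
          Finset.sum_le_sum fun j _ => (psi_le_UU hd hδ j y).trans (h1 j)
      _ ≤ ∑' j, ENNReal.ofReal (C0 ^ 2) * UU d c₀ j 0 := ENNReal.sum_le_tsum _
      _ = Γ := ENNReal.tsum_mul_left
  exact (ENNReal.ofReal_le_iff_le_toReal hΓt).mp h2

/-- Perturbation of the parameter. -/
theorem tube {F : ℂ × ℂ → ℝ} (hF : Continuous F) {c₀ : ℂ} {S : Set ℂ} (hS : IsCompact S) {b : ℝ}
    (h : ∀ w ∈ S, F (c₀, w) < b) : ∃ ε : ℝ, 0 < ε ∧ ∀ c : ℂ, ‖c - c₀‖ ≤ ε → ∀ w ∈ S,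
      F (c, w) ≤ b := by
  have h1 : ∀ᶠ c in nhds c₀, ∀ w ∈ S, F (c, w) < b := by
    apply hS.eventually_forall_of_forall_eventually
    intro w hw
    exact (hF.continuousAt (x := (c₀, w))).eventually_lt continuousAt_const (h w hw)
  obtain ⟨ε, hε, h2⟩ := Metric.eventually_nhds_iff.mp h1
  refine ⟨ε / 2, by positivity, fun c hc w hw => (h2 ?_ w hw).le⟩
  rw [dist_eq_norm]
  linarith

end Pool.Agent.Y298.SH
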