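import Mathlib
import Pool.Agent.Y298.SH.Tay

/-!
# Transversality: `∑ 1 / (f^n)'(c₀) ≠ 0`, by the contraction of the Ruelle operator in `L¹`
-/

set_option autoImplicit false

open Set Filter Metric MeasureTheory

namespace Pool.Agent.Y298.SH

open Pool.Agent.TH279.MD

/-- sums of powers of roots of unity -/
theorem sum_RU_pow {d : ℕ} (hd : 2 ≤ d) {m : ℕ} (hm : ¬ d ∣ m) : ∑ ζ ∈ RU d, ζ ^ m = 0 := by
  have hω := Complex.isPrimitiveRoot_exp d (by omega)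
  set ω : ℂ := Complex.exp (2 * Real.pi * Complex.I / d) with hωdef
  have hmem : ω ∈ RU d := (mem_RU hd).mpr hω.pow_eq_one
  have h1 := sum_RU_mul hd (fun x : ℂ => x ^ m) hmem 1
  have h2 : ∑ ζ ∈ RU d, (ζ * (ω * 1)) ^ m = ω ^ m * ∑ ζ ∈ RU d, ζ ^ m := by
    rw [Finset.mul_sum]
    apply Finset.sum_congr rfl
    intro ζ _
    rw [mul_one, mul_pow, mul_comm]
  have h3 : ∑ ζ ∈ RU d, (ζ * 1) ^ m = ∑ ζ ∈ RU d, ζ ^ m := by simp
  beta_reduce at h1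
  rw [h2, h3] at h1
  have h4 : ω ^ m ≠ 1 := fun h => hm ((hω.pow_eq_one_iff_dvd m).mp h)
  have h5 : (ω ^ m - 1) * ∑ ζ ∈ RU d, ζ ^ m = 0 := by rw [sub_mul, h1]; ring
  rcases mul_eq_zero.mp h5 with h6 | h6
  · exact absurd (sub_eq_zero.mp h6) h4
  · exact h6

/-- The Ruelle operator. -/
noncomputable def RT (d : ℕ) (c : ℂ) (G : ℂ → ℂ) (w : ℂ) : ℂ :=
  ∑ ζ ∈ RU d, G (ζ * rt d (w - c)) / ((d : ℂ) ^ 2 * (ζ * rt d (w - c)) ^ (2 * (d - 1)))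

theorem RT_cauchy {d : ℕ} (hd : 2 ≤ d) {c a w : ℂ} (ha : a ≠ 0) (hw : w ≠ c) (hwa : w ≠ f d c a) :
    RT d c (fun y => (y - a)⁻¹) w =
      (deriv (f d c) a)⁻¹ * ((w - f d c a)⁻¹ - (w - c)⁻¹) := by
  set y : ℂ := rt d (w - c) with hy
  have hyd : y ^ d = w - c := rt_pow hd _
  have hwc : w - c ≠ 0 := sub_ne_zero.mpr hw
  have hwfa : w - f d c a ≠ 0 := sub_ne_zero.mpr hwa
  have hy0 : y ≠ 0 := by
    intro h0
    rw [h0, zero_pow (by omega)] at hyd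
    exact hwc hyd.symm
  have hd0 : (d : ℂ) ≠ 0 := by exact_mod_cast (by omega : d ≠ 0)
  have hfa : w - f d c a = y ^ d - a ^ d := by rw [hyd]; unfold f; ring
  have h1 : ∀ ζ ∈ RU d, (ζ * y - a)⁻¹ / ((d : ℂ) ^ 2 * (ζ * y) ^ (2 * (d - 1))) =
      ∑ k ∈ Finset.range d, (((d : ℂ) ^ 2 * (w - c) ^ 2 * (w - f d c a))⁻¹ *
        (a ^ (d - 1 - k) * y ^ (k + 2))) * ζ ^ (k + 2) := by
    intro ζ hζ
    have hζ0 : ζ ≠ 0 := RU_ne_zero hd hζ
    have hx0 : ζ * y ≠ 0 := mul_ne_zero hζ0 hy0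
    have hxd : (ζ * y) ^ d = w - c := by rw [mul_pow, (mem_RU hd).mp hζ, one_mul, hyd]
    have hgeom := Commute.geom_sum₂_mul (Commute.all (ζ * y) a) d
    rw [hxd, ← hyd, ← hfa] at hgeom
    have hxa : ζ * y - a ≠ 0 := by
      intro h0
      rw [h0, mul_zero] at hgeom
      exact hwfa hgeom.symm
    have hinv : (ζ * y - a)⁻¹ = (∑ i ∈ Finset.range d, (ζ * y) ^ i * a ^ (d - 1 - i)) /
        (w - f d c a) := by
      rw [eq_div_iff hwfa, inv_mul_eq_iff_eq_mul₀ hxa, mul_comm]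
      exact hgeom.symm
    have hx2 : ((d : ℂ) ^ 2 * (ζ * y) ^ (2 * (d - 1)))⁻¹ =
        (ζ * y) ^ 2 / ((d : ℂ) ^ 2 * (w - c) ^ 2) := by
      have e1 : (ζ * y) ^ (2 * (d - 1)) * (ζ * y) ^ 2 = (w - c) ^ 2 := by
        rw [← pow_add, show 2 * (d - 1) + 2 = d * 2 by omega, pow_mul, hxd]
      rw [← e1]
      have : (ζ * y) ^ (2 * (d - 1)) ≠ 0 := pow_ne_zero _ hx0
      have : (ζ * y) ^ 2 ≠ 0 := pow_ne_zero _ hx0
      field_simp
    rw [div_eq_mul_inv, hx2, hinv, Finset.sum_div, Finset.sum_mul]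
    apply Finset.sum_congr rfl
    intro k _
    field_simp
    ring
  unfold RT
  rw [← hy, Finset.sum_congr rfl h1, Finset.sum_comm]
  have h2 : ∀ k ∈ Finset.range d, ∑ ζ ∈ RU d, (((d : ℂ) ^ 2 * (w - c) ^ 2 * (w - f d c a))⁻¹ *
        (a ^ (d - 1 - k) * y ^ (k + 2))) * ζ ^ (k + 2) =
      if k = d - 2 then ((d : ℂ) ^ 2 * (w - c) ^ 2 * (w - f d c a))⁻¹ * (a * (w - c)) * d else 0 := by
    intro k hk
    rw [Finset.mem_range] at hk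
    rw [← Finset.mul_sum]
    split_ifs with hkd
    · have e1 : k + 2 = d := by omega
      have e2 : d - 1 - k = 1 := by omega
      have e3 : ∑ ζ ∈ RU d, ζ ^ (k + 2) = d := by
        rw [e1]
        calc ∑ ζ ∈ RU d, ζ ^ d = ∑ ζ ∈ RU d, 1 :=
              Finset.sum_congr rfl fun ζ hζ => (mem_RU hd).mp hζ
          _ = d := by rw [Finset.sum_const, card_RU hd, nsmul_eq_mul, mul_one]
      rw [e3, e1, e2, pow_one, hyd]
    · rw [sum_RU_pow hd, mul_zero]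
      rintro ⟨q, hq⟩
      have hq1 : q = 1 := by
        have h3 : q < 2 := by
          by_contra hcon
          have : d * 2 ≤ d * q := Nat.mul_le_mul_left d (not_lt.mp hcon)
          have : k + 2 ≤ d + 1 := by omega
          -- d * 2 ≤ d + 1 only if d ≤ 1
          omega
        have h4 : q ≠ 0 := by
          rintro rfl
          omega
        omega
      rw [hq1, mul_one] at hq
      omega
  rw [Finset.sum_congr rfl h2, Finset.sum_ite_eq' (Finset.range d) (d - 2), if_pos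
    (Finset.mem_range.mpr (by omega)), deriv_f]
  have e4 : (w - f d c a)⁻¹ - (w - c)⁻¹ = a ^ d / ((w - f d c a) * (w - c)) := by
    rw [inv_sub_inv hwfa hwc]
    congr 1
    unfold f
    ring
  rw [e4]
  have e5 : a ^ d = a ^ (d - 1) * a := by
    rw [← pow_succ]
    congr 1
    omega
  rw [e5]
  have : a ^ (d - 1) ≠ 0 := pow_ne_zero _ ha
  field_simp

/-- contraction in `L¹` -/
theorem RT_contr {d : ℕ} (hd : 2 ≤ d) (c : ℂ) {S : Set ℂ} (hS : MeasurableSet S) {G : ℂ → ℂ}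
    (hG : Measurable G) : ∫⁻ w in S, ENNReal.ofReal ‖RT d c G w‖ ≤
      ∫⁻ y in (f d c) ⁻¹' S, ENNReal.ofReal ‖G y‖ := by
  have hm : Measurable fun y => ENNReal.ofReal ‖G y‖ := ENNReal.measurable_ofReal.comp hG.norm
  rw [dualE hd c hS hm]
  apply lintegral_mono
  intro w
  unfold LE RT
  have hk : ∀ ζ ∈ RU d, (ζ * rt d (w - c)) ^ d = w - c := fun ζ hζ => by
    rw [mul_pow, (mem_RU hd).mp hζ, one_mul, rt_pow hd]
  calc ENNReal.ofReal ‖∑ ζ ∈ RU d, G (ζ * rt d (w - c)) /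
        ((d : ℂ) ^ 2 * (ζ * rt d (w - c)) ^ (2 * (d - 1)))‖
      ≤ ENNReal.ofReal (∑ ζ ∈ RU d, ‖G (ζ * rt d (w - c)) /
        ((d : ℂ) ^ 2 * (ζ * rt d (w - c)) ^ (2 * (d - 1)))‖) :=
        ENNReal.ofReal_le_ofReal (norm_sum_le _ _)
    _ = ∑ ζ ∈ RU d, ENNReal.ofReal ‖G (ζ * rt d (w - c))‖ *
        ENNReal.ofReal (1 / ((d : ℝ) ^ 2 * ‖w - c‖ ^ al d)) := by
        rw [ENNReal.ofReal_sum_of_nonneg (fun ζ _ => norm_nonneg _)]
        apply Finset.sum_congr rfl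
        intro ζ hζ
        rw [← ENNReal.ofReal_mul (norm_nonneg _), norm_pow_al hd (hk ζ hζ), norm_div, norm_mul,
          norm_pow, norm_pow, Complex.norm_natCast, mul_one_div]
    _ = _ := by rw [Finset.sum_mul]

variable {d M : ℕ} {c₀ : ℂ}

/-- the reciprocals of the derivatives along the critical orbit -/
noncomputable def bb (d : ℕ) (c₀ : ℂ) (n : ℕ) : ℂ := (deriv ((f d c₀)^[n]) c₀)⁻¹

theorem bb_zero (d : ℕ) (c₀ : ℂ) : bb d c₀ 0 = 1 := by simp [bb]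

theorem bb_succ (d : ℕ) (c₀ : ℂ) (n : ℕ) :
    bb d c₀ (n + 1) = (deriv (f d c₀) ((f d c₀)^[n] c₀))⁻¹ * bb d c₀ n := by
  unfold bb
  rw [add_comm, deriv_iter_add, Function.iterate_one, mul_inv]

theorem SHyp.deriv_iter_lb (h : SHyp d M c₀) : ∃ κ : ℝ, 0 < κ ∧ κ ≤ 1 ∧ ∀ z ∈ PP d c₀, ∀ n : ℕ,
    κ * 2 ^ (n / M) ≤ ‖deriv ((f d c₀)^[n]) z‖ := by
  obtain ⟨κ, hκ0, hκ1, hκ⟩ := h.deriv_lb
  refine ⟨κ, hκ0, hκ1, ?_⟩
  intro z hz n
  have hn : n = n % M + M * (n / M) := by rw [Nat.mod_add_div]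
  have h1 : ‖deriv ((f d c₀)^[n]) z‖ = ‖deriv ((f d c₀)^[n % M]) ((f d c₀)^[M * (n / M)] z)‖ *
      ‖deriv ((f d c₀)^[M * (n / M)]) z‖ := by
    rw [← norm_mul, ← deriv_iter_add, ← hn]
  rw [h1]
  exact mul_le_mul (hκ _ (PP_maps hz _) _ (Nat.mod_lt n (by have := h.hM; omega)).le)
    (h.PP_exp_mul hz _) (by positivity) (norm_nonneg _)

theorem pow_div_le (M : ℕ) (hM : 1 ≤ M) : ∃ lam : ℝ, 0 < lam ∧ lam < 1 ∧
    ∀ n : ℕ, ((2 : ℝ) ^ (n / M))⁻¹ ≤ 2 * lam ^ n := by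
  have hM0 : (0 : ℝ) < M := by exact_mod_cast hM
  refine ⟨(1 / 2 : ℝ) ^ (1 / (M : ℝ)), by positivity, ?_, ?_⟩
  · exact Real.rpow_lt_one (by norm_num) (by norm_num) (by positivity)
  · intro n
    rw [← Real.rpow_natCast ((1 / 2 : ℝ) ^ (1 / (M : ℝ))) n, ← Real.rpow_mul (by norm_num)]
    have h1 : ((2 : ℝ) ^ (n / M))⁻¹ = 2 * (1 / 2 : ℝ) ^ (((n / M + 1 : ℕ)) : ℝ) := by
      rw [Real.rpow_natCast, pow_succ, one_div, inv_pow]
      ring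
    rw [h1]
    apply mul_le_mul_of_nonneg_left _ (by norm_num)
    apply Real.rpow_le_rpow_of_exponent_ge (by norm_num) (by norm_num)
    rw [one_div_mul_eq_div, div_le_iff₀ hM0]
    have h2 : n < (n / M + 1) * M := by
      rw [mul_comm]
      exact Nat.lt_mul_div_succ n (by omega)
    exact_mod_cast h2.le

theorem SHyp.bb_bound (h : SHyp d M c₀) : ∃ K lam : ℝ, 0 < K ∧ 0 < lam ∧ lam < 1 ∧
    ∀ n, ‖bb d c₀ n‖ ≤ K * lam ^ n := by
  obtain ⟨κ, hκ0, hκ1, hκ⟩ := h.deriv_iter_lb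
  obtain ⟨lam, hl0, hl1, hl⟩ := pow_div_le M h.hM
  refine ⟨2 / κ, lam, by positivity, hl0, hl1, ?_⟩
  intro n
  unfold bb
  rw [norm_inv]
  have h1 := hκ c₀ (orb_mem_PP (d := d) (c₀ := c₀) 0) n
  calc ‖deriv ((f d c₀)^[n]) c₀‖⁻¹ ≤ (κ * 2 ^ (n / M))⁻¹ := inv_anti₀ (by positivity) h1
    _ = κ⁻¹ * ((2 : ℝ) ^ (n / M))⁻¹ := by rw [mul_inv]
    _ ≤ κ⁻¹ * (2 * lam ^ n) := mul_le_mul_of_nonneg_left (hl n) (by positivity)
    _ = _ := by ring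

theorem SHyp.summable_bb (h : SHyp d M c₀) : Summable fun n => ‖bb d c₀ n‖ := by
  obtain ⟨K, lam, hK, hl0, hl1, hb⟩ := h.bb_bound
  exact Summable.of_nonneg_of_le (fun n => norm_nonneg _) hb
    ((summable_geometric_of_lt_one hl0.le hl1).mul_left K)

/-- partial sums of the Cauchy transform -/
noncomputable def HN (d : ℕ) (c₀ : ℂ) (N : ℕ) (z : ℂ) : ℂ :=
  ∑ n ∈ Finset.range N, bb d c₀ n * (z - (f d c₀)^[n] c₀)⁻¹

/-- the Cauchy transform -/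
noncomputable def HH (d : ℕ) (c₀ : ℂ) (z : ℂ) : ℂ :=
  ∑' n, bb d c₀ n * (z - (f d c₀)^[n] c₀)⁻¹

theorem RT_HN {d : ℕ} (hd : 2 ≤ d) {c₀ : ℂ} (h0 : ∀ n, (f d c₀)^[n] c₀ ≠ 0) (N : ℕ) {w : ℂ}
    (hw : ∀ n, w ≠ (f d c₀)^[n] c₀) :
    RT d c₀ (HN d c₀ N) w = HN d c₀ N w + bb d c₀ N * (w - (f d c₀)^[N] c₀)⁻¹ -
      (∑ n ∈ Finset.range (N + 1), bb d c₀ n) * (w - c₀)⁻¹ := by
  have h1 : RT d c₀ (HN d c₀ N) w = ∑ n ∈ Finset.range N, bb d c₀ n *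
      RT d c₀ (fun y => (y - (f d c₀)^[n] c₀)⁻¹) w := by
    unfold RT HN
    simp only [Finset.sum_div]
    rw [Finset.sum_comm]
    apply Finset.sum_congr rfl
    intro n _
    rw [Finset.mul_sum]
    apply Finset.sum_congr rfl
    intro ζ _
    rw [mul_div_assoc]
  have h2 : ∀ n ∈ Finset.range N, bb d c₀ n * RT d c₀ (fun y => (y - (f d c₀)^[n] c₀)⁻¹) w =
      bb d c₀ (n + 1) * (w - (f d c₀)^[n + 1] c₀)⁻¹ - bb d c₀ (n + 1) * (w - c₀)⁻¹ := by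
    intro n _
    have h3 : (f d c₀)^[n + 1] c₀ = f d c₀ ((f d c₀)^[n] c₀) := Function.iterate_succ_apply' _ _ _
    have hw0 : w ≠ c₀ := hw 0
    rw [RT_cauchy hd (h0 n) hw0 (by rw [← h3]; exact hw (n + 1)), bb_succ, ← h3]
    ring
  rw [h1, Finset.sum_congr rfl h2, Finset.sum_sub_distrib, ← Finset.sum_mul]
  have h3 := Finset.sum_range_succ' (fun n => bb d c₀ n * (w - (f d c₀)^[n] c₀)⁻¹) N
  have h4 := Finset.sum_range_succ (fun n => bb d c₀ n * (w - (f d c₀)^[n] c₀)⁻¹) N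
  have h5 := Finset.sum_range_succ' (fun n => bb d c₀ n) N
  rw [h4] at h3
  rw [h5]
  unfold HN
  rw [bb_zero] at *
  simp only [Function.iterate_zero, id_eq] at h3
  linear_combination -h3

end Pool.Agent.Y298.SH
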