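import Mathlib
import Pool.Agent.Y298.SH.Trans

/-!
# Transversality, continued
-/

set_option autoImplicit false

open Set Filter Metric MeasureTheory

namespace Pool.Agent.Y298.SH

open Pool.Agent.TH279.MD

variable {d M : ℕ} {c₀ : ℂ}

theorem SHyp.zero_notin (h : SHyp d M c₀) : (0 : ℂ) ∉ PP d c₀ := by
  have hd := h.hd
  have hM := h.hM
  intro h0
  have h1 := h.PP_exp h0
  rw [show M = (M - 1) + 1 by omega, deriv_iter_add, Function.iterate_one, deriv_f,
    zero_pow (by omega), mul_zero, mul_zero, norm_zero] at h1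
  linarith

/-- integrals of Cauchy kernels -/
theorem cauchy_int (R : ℝ) (hR : 0 < R) : ∃ C : ℝ, 0 < C ∧ ∀ a : ℂ,
    ∫⁻ w in closedBall (0 : ℂ) R, ENNReal.ofReal (‖w - a‖⁻¹) ≤ ENNReal.ofReal C := by
  obtain ⟨C, hC, H⟩ := area_rpow 1 one_pos (by norm_num)
  have hfin : volume (closedBall (0 : ℂ) R) ≠ ⊤ := (isCompact_closedBall _ _).measure_lt_top.ne
  refine ⟨C * ((volume (closedBall (0 : ℂ) R)).toReal ^ (1 - (1 : ℝ) / 2)) + 1, by positivity, ?_⟩
  intro a
  have h1 := H a (closedBall (0 : ℂ) R) (volume (closedBall (0 : ℂ) R)).toReal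
    measurableSet_closedBall ENNReal.toReal_nonneg (by rw [ENNReal.ofReal_toReal hfin])
  simp only [Real.rpow_one, one_div] at h1
  refine h1.trans (ENNReal.ofReal_le_ofReal ?_)
  simp only [one_div]
  linarith

theorem measurable_HN (d : ℕ) (c₀ : ℂ) (N : ℕ) : Measurable (HN d c₀ N) := by
  unfold HN
  apply Finset.measurable_fun_sum
  intro n _
  exact ((measurable_id.sub_const _).inv).const_mul _

theorem pre_sub_half {d : ℕ} (hd : 2 ≤ d) {c : ℂ} (hc : ‖c‖ ≤ 2) {R : ℝ} (hR : 6 ≤ R) :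
    (f d c) ⁻¹' closedBall 0 R ⊆ closedBall 0 (R / 2) := by
  intro z hz
  rw [mem_preimage, mem_closedBall_zero_iff] at hz
  rw [mem_closedBall_zero_iff]
  by_contra hcon
  rw [not_le] at hcon
  have h1 := sq_le_f hd (c := c) (z := z) (by linarith)
  nlinarith

/-- The Cauchy transforms are small far out, if the sum vanishes. -/
theorem SHyp.HN_far (h : SHyp d M c₀) {R : ℝ} (hR : 6 ≤ R) : ∃ C : ℝ, 0 < C ∧ ∀ N : ℕ,
    ∫⁻ w in {w : ℂ | R / 2 < ‖w‖ ∧ ‖w‖ < R}, ENNReal.ofReal ‖HN d c₀ N w‖ ≤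
      ENNReal.ofReal (C * (‖bb d c₀ N‖ + ‖∑ n ∈ Finset.range (N + 1), bb d c₀ n‖)) := by
  have hd := h.hd
  have hc2 : ‖c₀‖ ≤ 2 := h.bd 0
  obtain ⟨C, hC, HC⟩ := cauchy_int R (by linarith)
  refine ⟨C, hC, ?_⟩
  intro N
  set S : Set ℂ := closedBall 0 R with hS
  have hSm : MeasurableSet S := measurableSet_closedBall
  set T : ℂ := ∑ n ∈ Finset.range (N + 1), bb d c₀ n with hT
  have hm : Measurable fun w => ENNReal.ofReal ‖HN d c₀ N w‖ :=
    ENNReal.measurable_ofReal.comp (measurable_HN d c₀ N).norm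
  have hmk : ∀ a : ℂ, Measurable fun w : ℂ => ENNReal.ofReal (‖w - a‖⁻¹) := fun a =>
    ENNReal.measurable_ofReal.comp ((measurable_id.sub_const a).norm.inv)
  -- finiteness
  have hfin : ∫⁻ w in S, ENNReal.ofReal ‖HN d c₀ N w‖ ≠ ⊤ := by
    have h1 : ∫⁻ w in S, ENNReal.ofReal ‖HN d c₀ N w‖ ≤
        ∑ n ∈ Finset.range N, ENNReal.ofReal ‖bb d c₀ n‖ * ENNReal.ofReal C := by
      calc ∫⁻ w in S, ENNReal.ofReal ‖HN d c₀ N w‖
          ≤ ∫⁻ w in S, ∑ n ∈ Finset.range N, ENNReal.ofReal ‖bb d c₀ n‖ *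
              ENNReal.ofReal (‖w - (f d c₀)^[n] c₀‖⁻¹) := by
            apply lintegral_mono
            intro w
            unfold HN
            refine (ENNReal.ofReal_le_ofReal (norm_sum_le _ _)).trans ?_
            rw [ENNReal.ofReal_sum_of_nonneg (fun n _ => norm_nonneg _)]
            apply Finset.sum_le_sum
            intro n _
            rw [norm_mul, norm_inv, ENNReal.ofReal_mul (norm_nonneg _)]
        _ = ∑ n ∈ Finset.range N, ∫⁻ w in S, ENNReal.ofReal ‖bb d c₀ n‖ *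
              ENNReal.ofReal (‖w - (f d c₀)^[n] c₀‖⁻¹) :=
            lintegral_finsetSum' _ (fun n _ => ((hmk _).const_mul _).aemeasurable)
        _ ≤ _ := by
            apply Finset.sum_le_sum
            intro n _
            rw [lintegral_const_mul' _ _ ENNReal.ofReal_ne_top]
            gcongr
            exact HC _
    refine ne_top_of_le_ne_top ?_ h1
    exact (ENNReal.sum_lt_top.mpr fun n _ =>
      ENNReal.mul_lt_top ENNReal.ofReal_lt_top ENNReal.ofReal_lt_top).ne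
  -- the orbit is a null set
  have hae : ∀ᵐ w : ℂ, ∀ n, w ≠ (f d c₀)^[n] c₀ := by
    rw [ae_all_iff]
    intro n
    rw [ae_iff]
    simp
  have key : ∫⁻ w in S, ENNReal.ofReal ‖HN d c₀ N w‖ ≤
      (∫⁻ w in closedBall (0 : ℂ) (R / 2), ENNReal.ofReal ‖HN d c₀ N w‖) +
        ENNReal.ofReal (C * (‖bb d c₀ N‖ + ‖T‖)) := by
    calc ∫⁻ w in S, ENNReal.ofReal ‖HN d c₀ N w‖
        ≤ ∫⁻ w in S, (ENNReal.ofReal ‖RT d c₀ (HN d c₀ N) w‖ +
          (ENNReal.ofReal ‖bb d c₀ N‖ * ENNReal.ofReal (‖w - (f d c₀)^[N] c₀‖⁻¹) +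
            ENNReal.ofReal ‖T‖ * ENNReal.ofReal (‖w - c₀‖⁻¹))) := by
          apply lintegral_mono_ae
          apply ae_restrict_of_ae
          filter_upwards [hae] with w hw
          rw [← ENNReal.ofReal_mul (norm_nonneg _), ← ENNReal.ofReal_mul (norm_nonneg _),
            ← ENNReal.ofReal_add (by positivity) (by positivity),
            ← ENNReal.ofReal_add (by positivity) (by positivity)]
          apply ENNReal.ofReal_le_ofReal
          have h2 := RT_HN hd (fun n h0 => h.zero_notin (h0 ▸ orb_mem_PP n)) N hw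
          rw [← hT] at h2
          have h3 : HN d c₀ N w = RT d c₀ (HN d c₀ N) w - bb d c₀ N * (w - (f d c₀)^[N] c₀)⁻¹ +
              T * (w - c₀)⁻¹ := by rw [h2]; ring
          calc ‖HN d c₀ N w‖ = ‖RT d c₀ (HN d c₀ N) w - bb d c₀ N * (w - (f d c₀)^[N] c₀)⁻¹ +
              T * (w - c₀)⁻¹‖ := by rw [← h3]
            _ ≤ ‖RT d c₀ (HN d c₀ N) w - bb d c₀ N * (w - (f d c₀)^[N] c₀)⁻¹‖ +
              ‖T * (w - c₀)⁻¹‖ := norm_add_le _ _
            _ ≤ (‖RT d c₀ (HN d c₀ N) w‖ + ‖bb d c₀ N * (w - (f d c₀)^[N] c₀)⁻¹‖) +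
              ‖T * (w - c₀)⁻¹‖ := by gcongr; exact norm_sub_le _ _
            _ = _ := by rw [norm_mul, norm_mul, norm_inv, norm_inv]; ring
      _ = (∫⁻ w in S, ENNReal.ofReal ‖RT d c₀ (HN d c₀ N) w‖) +
          ((∫⁻ w in S, ENNReal.ofReal ‖bb d c₀ N‖ * ENNReal.ofReal (‖w - (f d c₀)^[N] c₀‖⁻¹)) +
            ∫⁻ w in S, ENNReal.ofReal ‖T‖ * ENNReal.ofReal (‖w - c₀‖⁻¹)) := by
          have hm1 : Measurable fun w : ℂ => ENNReal.ofReal ‖bb d c₀ N‖ *
              ENNReal.ofReal (‖w - (f d c₀)^[N] c₀‖⁻¹) +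
              ENNReal.ofReal ‖T‖ * ENNReal.ofReal (‖w - c₀‖⁻¹) :=
            ((hmk _).const_mul _).add ((hmk _).const_mul _)
          rw [lintegral_add_right _ hm1, lintegral_add_right _ ((hmk _).const_mul _)]
      _ ≤ _ := by
          apply add_le_add
          · refine (RT_contr hd c₀ hSm (measurable_HN d c₀ N)).trans ?_
            exact lintegral_mono_set (pre_sub_half hd hc2 hR)
          · rw [lintegral_const_mul' _ _ ENNReal.ofReal_ne_top,
              lintegral_const_mul' _ _ ENNReal.ofReal_ne_top, mul_add,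
              ENNReal.ofReal_add (by positivity) (by positivity),
              mul_comm C, mul_comm C, ENNReal.ofReal_mul (norm_nonneg _),
              ENNReal.ofReal_mul (norm_nonneg _)]
            gcongr
            · exact HC _
            · exact HC _
  have hA : MeasurableSet {w : ℂ | R / 2 < ‖w‖ ∧ ‖w‖ < R} :=
    (measurableSet_lt measurable_const continuous_norm.measurable).inter
      (measurableSet_lt continuous_norm.measurable measurable_const)
  have hdisj : Disjoint (closedBall (0 : ℂ) (R / 2)) {w : ℂ | R / 2 < ‖w‖ ∧ ‖w‖ < R} := by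
    rw [Set.disjoint_left]
    intro z hz hz'
    rw [mem_closedBall_zero_iff] at hz
    exact absurd hz'.1 (not_lt.mpr hz)
  have hsub : closedBall (0 : ℂ) (R / 2) ∪ {w : ℂ | R / 2 < ‖w‖ ∧ ‖w‖ < R} ⊆ S := by
    rintro z (hz | hz)
    · exact closedBall_subset_closedBall (by linarith) hz
    · rw [hS, mem_closedBall_zero_iff]
      exact hz.2.le
  have h3 : (∫⁻ w in closedBall (0 : ℂ) (R / 2), ENNReal.ofReal ‖HN d c₀ N w‖) +
      ∫⁻ w in {w : ℂ | R / 2 < ‖w‖ ∧ ‖w‖ < R}, ENNReal.ofReal ‖HN d c₀ N w‖ ≤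
      (∫⁻ w in closedBall (0 : ℂ) (R / 2), ENNReal.ofReal ‖HN d c₀ N w‖) +
        ENNReal.ofReal (C * (‖bb d c₀ N‖ + ‖T‖)) := by
    rw [← lintegral_union hA hdisj]
    exact (lintegral_mono_set hsub).trans key
  refine ENNReal.le_of_add_le_add_left ?_ h3
  exact ne_top_of_le_ne_top hfin (lintegral_mono_set (closedBall_subset_closedBall (by linarith)))

theorem orb_dist {x : ℂ} {R : ℝ} (hsub : ball x R ⊆ (PP d c₀)ᶜ) {y : ℂ}
    (hy : ‖y - x‖ ≤ R / 2) (n : ℕ) : R / 2 ≤ ‖y - (f d c₀)^[n] c₀‖ := by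
  by_contra hcon
  rw [not_le] at hcon
  refine hsub ?_ (orb_mem_PP n)
  rw [mem_ball, dist_eq_norm]
  calc ‖(f d c₀)^[n] c₀ - x‖ = ‖(y - x) - (y - (f d c₀)^[n] c₀)‖ := by congr 1; ring
    _ ≤ ‖y - x‖ + ‖y - (f d c₀)^[n] c₀‖ := norm_sub_le _ _
    _ < R := by linarith

theorem SHyp.diff_HH (h : SHyp d M c₀) : DifferentiableOn ℂ (HH d c₀) (PP d c₀)ᶜ := by
  intro x hx
  obtain ⟨R, hR, hsub⟩ := Metric.isOpen_iff.mp isClosed_PP.isOpen_compl x hx
  have h1 : DifferentiableOn ℂ (HH d c₀) (ball x (R / 2)) := by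
    unfold HH
    refine Complex.differentiableOn_tsum_of_summable_norm (u := fun n => ‖bb d c₀ n‖ * (2 / R))
      (h.summable_bb.mul_right _) ?_ isOpen_ball ?_
    · intro n y hy
      rw [mem_ball, dist_eq_norm] at hy
      have h2 := orb_dist hsub hy.le n
      have h3 : y - (f d c₀)^[n] c₀ ≠ 0 := by
        intro h0
        rw [h0, norm_zero] at h2
        linarith
      have h5 : DifferentiableAt ℂ (fun z : ℂ => z - (f d c₀)^[n] c₀) y :=
        differentiableAt_id.sub_const _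
      have h4 : DifferentiableAt ℂ (fun z => bb d c₀ n * (z - (f d c₀)^[n] c₀)⁻¹) y :=
        (h5.inv h3).const_mul _
      exact h4.differentiableWithinAt
    · intro n y hy
      rw [mem_ball, dist_eq_norm] at hy
      have h2 := orb_dist hsub hy.le n
      rw [norm_mul, norm_inv]
      apply mul_le_mul_of_nonneg_left _ (norm_nonneg _)
      calc ‖y - (f d c₀)^[n] c₀‖⁻¹ ≤ (R / 2)⁻¹ := inv_anti₀ (by positivity) h2
        _ = 2 / R := by rw [inv_div]
  exact (h1.differentiableAt (ball_mem_nhds x (by positivity))).differentiableWithinAt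

theorem SHyp.hasSum_HH (h : SHyp d M c₀) {x : ℂ} (hx : x ∉ PP d c₀) :
    HasSum (fun n => bb d c₀ n * (x - (f d c₀)^[n] c₀)⁻¹) (HH d c₀ x) := by
  obtain ⟨R, hR, hsub⟩ := Metric.isOpen_iff.mp isClosed_PP.isOpen_compl x hx
  apply Summable.hasSum
  refine Summable.of_norm_bounded (g := fun n => ‖bb d c₀ n‖ * (2 / R))
    (h.summable_bb.mul_right _) ?_
  intro n
  have h2 := orb_dist hsub (y := x) (by rw [sub_self, norm_zero]; positivity) n
  rw [norm_mul, norm_inv]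
  apply mul_le_mul_of_nonneg_left _ (norm_nonneg _)
  calc ‖x - (f d c₀)^[n] c₀‖⁻¹ ≤ (R / 2)⁻¹ := inv_anti₀ (by positivity) h2
    _ = 2 / R := by rw [inv_div]

/-- If the sum vanishes, the Cauchy transform vanishes far out. -/
theorem SHyp.HH_far (h : SHyp d M c₀) (h0 : ∑' n, bb d c₀ n = 0) {R : ℝ} (hR : 6 ≤ R) {x : ℂ}
    (hx1 : R / 2 < ‖x‖) (hx2 : ‖x‖ < R) : HH d c₀ x = 0 := by
  obtain ⟨C, hC, HC⟩ := h.HN_far hR
  set A : Set ℂ := {w : ℂ | R / 2 < ‖w‖ ∧ ‖w‖ < R} with hA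
  have hAo : IsOpen A := (isOpen_lt continuous_const continuous_norm).inter
    (isOpen_lt continuous_norm continuous_const)
  have hAP : A ⊆ (PP d c₀)ᶜ := by
    intro w hw hwP
    have h1 := h.PP_bd hwP
    have h2 : R / 2 < ‖w‖ := hw.1
    linarith
  have hsum : Summable (bb d c₀) := h.summable_bb.of_norm
  have hlim1 : Tendsto (fun N => ‖bb d c₀ N‖) atTop (nhds 0) := h.summable_bb.tendsto_atTop_zero
  have hlim2 : Tendsto (fun N => ‖∑ n ∈ Finset.range (N + 1), bb d c₀ n‖) atTop (nhds 0) := by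
    have h1 := (hsum.hasSum.tendsto_sum_nat).comp (tendsto_add_atTop_nat 1)
    rw [h0] at h1
    have h2 := h1.norm
    rw [norm_zero] at h2
    exact h2
  have hlim : Tendsto (fun N => ENNReal.ofReal (C * (‖bb d c₀ N‖ +
      ‖∑ n ∈ Finset.range (N + 1), bb d c₀ n‖))) atTop (nhds 0) := by
    have h1 := (hlim1.add hlim2).const_mul C
    rw [add_zero, mul_zero] at h1
    have h2 := ENNReal.tendsto_ofReal h1
    rwa [ENNReal.ofReal_zero] at h2
  have hint : Tendsto (fun N => ∫⁻ w in A, ENNReal.ofReal ‖HN d c₀ N w‖) atTop (nhds 0) :=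
    tendsto_of_tendsto_of_tendsto_of_le_of_le tendsto_const_nhds hlim (fun _ => bot_le) HC
  have hfatou : ∫⁻ w in A, ENNReal.ofReal ‖HH d c₀ w‖ = 0 := by
    have h1 : ∫⁻ w in A, ENNReal.ofReal ‖HH d c₀ w‖ ≤
        ∫⁻ w in A, liminf (fun N => ENNReal.ofReal ‖HN d c₀ N w‖) atTop := by
      apply setLIntegral_mono' hAo.measurableSet
      intro w hw
      have h2 := (h.hasSum_HH (hAP hw)).tendsto_sum_nat
      have h3 : Tendsto (fun N => ENNReal.ofReal ‖HN d c₀ N w‖) atTop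
          (nhds (ENNReal.ofReal ‖HH d c₀ w‖)) := ENNReal.tendsto_ofReal h2.norm
      rw [h3.liminf_eq]
    have h2 := lintegral_liminf_le' (μ := volume.restrict A) (u := atTop) (f := fun (N : ℕ) w =>
      ENNReal.ofReal ‖HN d c₀ N w‖) (fun N =>
        (ENNReal.measurable_ofReal.comp (measurable_HN d c₀ N).norm).aemeasurable)
    rw [hint.liminf_eq] at h2
    exact le_antisymm (h1.trans h2) bot_le
  have hcont : ContinuousOn (HH d c₀) A := h.diff_HH.continuousOn.mono hAP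
  have hae : ∀ᵐ w ∂(volume.restrict A), HH d c₀ w = 0 := by
    have hm : AEMeasurable (fun w => ENNReal.ofReal ‖HH d c₀ w‖) (volume.restrict A) :=
      (ENNReal.measurable_ofReal.comp_aemeasurable
        (hcont.norm.aemeasurable hAo.measurableSet))
    have h1 := (lintegral_eq_zero_iff' hm).mp hfatou
    filter_upwards [h1] with w hw
    have h2 : ‖HH d c₀ w‖ ≤ 0 := ENNReal.ofReal_eq_zero.mp hw
    exact norm_le_zero_iff.mp h2
  have h1 := MeasureTheory.Measure.eqOn_open_of_ae_eq (μ := volume) (f := HH d c₀)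
    (g := fun _ => (0 : ℂ)) hae hAo hcont continuousOn_const
  exact h1 ⟨hx1, hx2⟩

/-- **Transversality.** -/
theorem SHyp.trans (h : SHyp d M c₀) : ∑' n, bb d c₀ n ≠ 0 := by
  intro h0
  have hd := h.hd
  have hPo : IsOpen (PP d c₀)ᶜ := isClosed_PP.isOpen_compl
  have hana : AnalyticOnNhd ℂ (HH d c₀) (PP d c₀)ᶜ := h.diff_HH.analyticOnNhd hPo
  set Z : Set ℂ := {x | x ∉ PP d c₀ ∧ HH d c₀ =ᶠ[nhds x] 0} with hZ
  -- identity theorem on balls
  have hball : ∀ x R, ball x R ⊆ (PP d c₀)ᶜ → ∀ y ∈ ball x R, y ∈ Z → ∀ y' ∈ ball x R, y' ∈ Z := by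
    intro x R hsub y hy hyZ y' hy'
    have h1 := (hana.mono hsub).eqOn_zero_of_preconnected_of_eventuallyEq_zero
      (convex_ball x R).isPreconnected hy hyZ.2
    refine ⟨hsub hy', ?_⟩
    filter_upwards [isOpen_ball.mem_nhds hy'] with v hv
    exact h1 hv
  set Ω : Set ℂ := (PP d c₀)ᶜ \ Z with hΩ
  have hopen : IsOpen Ω := by
    rw [Metric.isOpen_iff]
    rintro x ⟨hx1, hx2⟩
    obtain ⟨R, hR, hsub⟩ := Metric.isOpen_iff.mp hPo x hx1
    refine ⟨R, hR, fun y hy => ⟨hsub hy, fun hyZ => ?_⟩⟩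
    exact hx2 (hball x R hsub y hy hyZ x (mem_ball_self hR))
  have hbdd : Bornology.IsBounded Ω := by
    refine (Metric.isBounded_ball (x := (0 : ℂ)) (r := 6)).subset ?_
    rintro x ⟨hx1, hx2⟩
    rw [mem_ball_zero_iff]
    by_contra hcon
    rw [not_lt] at hcon
    apply hx2
    refine ⟨hx1, ?_⟩
    have h1 : IsOpen {w : ℂ | (3 / 2 * ‖x‖) / 2 < ‖w‖ ∧ ‖w‖ < 3 / 2 * ‖x‖} :=
      (isOpen_lt continuous_const continuous_norm).inter
        (isOpen_lt continuous_norm continuous_const)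
    filter_upwards [h1.mem_nhds ⟨by linarith, by linarith⟩] with w hw
    exact h.HH_far h0 (R := 3 / 2 * ‖x‖) (by linarith) hw.1 hw.2
  have hfr : frontier Ω ⊆ PP d c₀ := by
    intro x hx
    by_contra hxP
    obtain ⟨R, hR, hsub⟩ := Metric.isOpen_iff.mp hPo x hxP
    rw [frontier, hopen.interior_eq] at hx
    obtain ⟨y, hyΩ, hy⟩ := Metric.mem_closure_iff.mp hx.1 R hR
    rw [dist_comm] at hy
    have hxZ : x ∈ Z := by
      by_contra hxZ
      exact hx.2 ⟨hxP, hxZ⟩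
    exact hyΩ.2 (hball x R hsub x (mem_ball_self hR) hxZ y hy)
  have hempty := h.no_hole hopen hbdd hfr
  have hzero : ∀ x, x ∉ PP d c₀ → HH d c₀ x = 0 := by
    intro x hx
    have h1 : x ∉ Ω := by rw [hempty]; exact notMem_empty x
    have h2 : x ∈ Z := by
      by_contra h2
      exact h1 ⟨hx, h2⟩
    exact h2.2.self_of_nhds
  -- the critical value is isolated in the postcritical set
  obtain ⟨r, hr, hrsub⟩ := Metric.isOpen_iff.mp hPo 0 h.zero_notin
  set ρ : ℝ := r ^ d with hρ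
  have hρ0 : 0 < ρ := by positivity
  have hiso : ∀ n, ρ ≤ ‖(f d c₀)^[n + 1] c₀ - c₀‖ := by
    intro n
    have h1 : (f d c₀)^[n + 1] c₀ - c₀ = ((f d c₀)^[n] c₀) ^ d := by
      rw [Function.iterate_succ_apply']
      unfold f
      ring
    rw [h1, norm_pow]
    apply pow_le_pow_left₀ hr.le
    by_contra hcon
    exact hrsub (mem_ball_zero_iff.mpr (not_le.mp hcon)) (orb_mem_PP n)
  have hPiso : ∀ x ∈ PP d c₀, x = c₀ ∨ ρ ≤ ‖x - c₀‖ := by
    intro x hx
    have h1 : PP d c₀ ⊆ {x | x = c₀ ∨ ρ ≤ ‖x - c₀‖} := by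
      apply closure_minimal
      · rintro _ ⟨n, rfl⟩
        cases n with
        | zero => exact Or.inl rfl
        | succ n => exact Or.inr (hiso n)
      · exact isClosed_singleton.union (isClosed_le continuous_const
          ((continuous_id.sub continuous_const).norm))
    exact h1 hx
  -- the pole
  set Kb : ℝ := (∑' n, ‖bb d c₀ n‖) * (2 / ρ) with hKb
  have hKb0 : 0 ≤ Kb := mul_nonneg (tsum_nonneg fun n => norm_nonneg _) (by positivity)
  set ε : ℝ := min (ρ / 2) (1 / (Kb + 1)) / 2 with hε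
  have hε0 : 0 < ε := by positivity
  have hε1 : ε < ρ / 2 := by
    have : min (ρ / 2) (1 / (Kb + 1)) ≤ ρ / 2 := min_le_left _ _
    have : 0 < min (ρ / 2) (1 / (Kb + 1)) := by positivity
    linarith
  have hε2 : ε < 1 / (Kb + 1) := by
    have : min (ρ / 2) (1 / (Kb + 1)) ≤ 1 / (Kb + 1) := min_le_right _ _
    have : 0 < min (ρ / 2) (1 / (Kb + 1)) := by positivity
    linarith
  set x : ℂ := c₀ + ε with hx
  have hxc : ‖x - c₀‖ = ε := by
    rw [hx, add_sub_cancel_left, Complex.norm_real, Real.norm_of_nonneg hε0.le]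
  have hxP : x ∉ PP d c₀ := by
    intro hxP
    rcases hPiso x hxP with h1 | h1
    · rw [h1, sub_self, norm_zero] at hxc
      linarith
    · rw [hxc] at h1
      linarith
  have hS := h.hasSum_HH hxP
  rw [hzero x hxP] at hS
  have h1 := hS.tsum_eq
  rw [hS.summable.tsum_eq_zero_add, bb_zero, one_mul, Function.iterate_zero, id_eq] at h1
  have h2 : (x - c₀)⁻¹ = -∑' n, bb d c₀ (n + 1) * (x - (f d c₀)^[n + 1] c₀)⁻¹ :=
    eq_neg_of_add_eq_zero_left h1
  have hsum' : Summable fun n => ‖bb d c₀ (n + 1)‖ :=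
    (summable_nat_add_iff 1).mpr h.summable_bb
  have h3 : ‖∑' n, bb d c₀ (n + 1) * (x - (f d c₀)^[n + 1] c₀)⁻¹‖ ≤ Kb := by
    have h4 : ∀ n, ‖bb d c₀ (n + 1) * (x - (f d c₀)^[n + 1] c₀)⁻¹‖ ≤
        ‖bb d c₀ (n + 1)‖ * (2 / ρ) := by
      intro n
      rw [norm_mul, norm_inv]
      apply mul_le_mul_of_nonneg_left _ (norm_nonneg _)
      have h5 : ρ / 2 ≤ ‖x - (f d c₀)^[n + 1] c₀‖ := by
        have h6 := hiso n
        have h7 : ‖(f d c₀)^[n + 1] c₀ - c₀‖ ≤ ‖x - (f d c₀)^[n + 1] c₀‖ + ‖x - c₀‖ := by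
          calc ‖(f d c₀)^[n + 1] c₀ - c₀‖ = ‖(x - c₀) - (x - (f d c₀)^[n + 1] c₀)‖ := by
                congr 1; ring
            _ ≤ ‖x - c₀‖ + ‖x - (f d c₀)^[n + 1] c₀‖ := norm_sub_le _ _
            _ = _ := add_comm _ _
        linarith
      calc ‖x - (f d c₀)^[n + 1] c₀‖⁻¹ ≤ (ρ / 2)⁻¹ := inv_anti₀ (by positivity) h5
        _ = 2 / ρ := by rw [inv_div]
    have h5 : Summable fun n => ‖bb d c₀ (n + 1)‖ * (2 / ρ) := hsum'.mul_right _
    have h6 := tsum_of_norm_bounded h5.hasSum h4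
    refine h6.trans ?_
    rw [tsum_mul_right, hKb]
    apply mul_le_mul_of_nonneg_right _ (by positivity)
    rw [h.summable_bb.tsum_eq_zero_add]
    linarith [norm_nonneg (bb d c₀ 0)]
  rw [← norm_neg, ← h2, norm_inv, hxc] at h3
  have h4 : Kb + 1 < ε⁻¹ := by
    rw [lt_inv_comm₀ (by positivity) hε0, ← one_div]
    exact hε2
  linarith

end Pool.Agent.Y298.SH
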