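import Mathlib
import Pool.Agent.Y298.SH.Tay

/-!
# Passing to large scale near the critical value, for nearby parameters
-/

set_option autoImplicit false

open Set Filter Metric MeasureTheory

namespace Pool.Agent.Y298.SH

open Pool.Agent.TH279.MD

variable {d M : ℕ} {c₀ : ℂ}

/-- The derivative along the critical orbit. -/
noncomputable def AQ (d M : ℕ) (c₀ : ℂ) (q : ℕ) : ℝ := ‖deriv ((f d c₀)^[M * q]) c₀‖

theorem AQ_zero : AQ d M c₀ 0 = 1 := by simp [AQ]

theorem AQ_succ (q : ℕ) : AQ d M c₀ (q + 1) =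
    ‖deriv ((f d c₀)^[M]) ((f d c₀)^[M * q] c₀)‖ * AQ d M c₀ q := by
  unfold AQ
  rw [show M * (q + 1) = M + M * q by ring, deriv_iter_add, norm_mul]

theorem SHyp.AQ_ge (h : SHyp d M c₀) (q : ℕ) : 2 ^ q ≤ AQ d M c₀ q :=
  h.PP_exp_mul (orb_mem_PP (d := d) (c₀ := c₀) 0) q

theorem SHyp.AQ_dbl (h : SHyp d M c₀) (q : ℕ) : 2 * AQ d M c₀ q ≤ AQ d M c₀ (q + 1) := by
  rw [AQ_succ]
  exact mul_le_mul_of_nonneg_right (h.exp _) (norm_nonneg _)

/-- The invariants of the passage to large scale. -/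
theorem SHyp.passage (h : SHyp d M c₀) {L : ℝ} (hL1 : 1 ≤ L) (HL : Lip d M L)
    {c : ℂ} {s : ℝ} (hs : 0 < s) (hc : ‖c - c₀‖ ≤ s / L) (q : ℕ)
    (hq : AQ d M c₀ q * s ≤ 1 / (32 * L)) :
    (∀ x ∈ ball c₀ s, ‖(f d c)^[M * q] x - (f d c₀)^[M * q] c₀‖ ≤
      s * AQ d M c₀ q * (1 + 16 * L * s * AQ d M c₀ q) + 2 * s * (AQ d M c₀ q - 1)) ∧
    (∀ x ∈ ball c₀ s, (1 - 10 * L * s * AQ d M c₀ q) * AQ d M c₀ q ≤
      ‖deriv ((f d c)^[M * q]) x‖) ∧
    (∀ x ∈ ball c₀ s, ∀ x' ∈ ball c₀ s, (1 - 10 * L * s * AQ d M c₀ q) * AQ d M c₀ q * ‖x - x'‖ ≤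
      ‖(f d c)^[M * q] x - (f d c)^[M * q] x'‖) := by
  have hL0 : 0 < L := by linarith
  induction q with
  | zero =>
    rw [AQ_zero]
    refine ⟨?_, ?_, ?_⟩
    · intro x hx
      rw [mem_ball, dist_eq_norm] at hx
      simp only [mul_zero, Function.iterate_zero, id_eq]
      have : 0 < 16 * L * s := by positivity
      nlinarith
    · intro x _
      have : 0 < 10 * L * s := by positivity
      simp only [mul_zero, Function.iterate_zero]
      rw [deriv_id, norm_one]
      linarith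
    · intro x _ x' _
      have : 0 < 10 * L * s := by positivity
      simp only [mul_zero, Function.iterate_zero, id_eq, mul_one]
      have := norm_nonneg (x - x')
      nlinarith
  | succ q ih =>
    set z : ℂ := (f d c₀)^[M * q] c₀ with hz
    set a : ℝ := ‖deriv ((f d c₀)^[M]) z‖ with ha
    set A : ℝ := AQ d M c₀ q with hA
    have hA' : AQ d M c₀ (q + 1) = a * A := AQ_succ q
    rw [hA'] at hq ⊢
    have ha2 : 2 ≤ a := h.exp _
    have hA1 : 1 ≤ A := (one_le_pow₀ (by norm_num : (1 : ℝ) ≤ 2)).trans (h.AQ_ge q)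
    have hA2 : 2 * A ≤ a * A := by nlinarith
    have hq' : A * s ≤ 1 / (32 * L) := by
      refine le_trans ?_ hq
      nlinarith
    obtain ⟨I1, I2, I3⟩ := ih hq'
    -- the size at the previous step
    have hLsA : L * s * A ≤ 1 / 32 := by
      rw [le_div_iff₀ (by positivity)] at hq'
      linarith
    have hsA : s ≤ s * A := by nlinarith
    have hsA32 : s * A ≤ 1 / 32 := by
      have : s * A ≤ L * s * A := by
        have : 0 < s * A := by positivity
        nlinarith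
      linarith
    set b : ℝ := s * A * (1 + 16 * L * s * A) + 2 * s * (A - 1) with hb
    have hb4 : b ≤ 4 * (s * A) := by
      have h1 : s * A * (1 + 16 * L * s * A) ≤ s * A * (1 + 1 / 2) := by
        apply mul_le_mul_of_nonneg_left _ (by positivity)
        linarith
      have h2 : 2 * s * (A - 1) ≤ 2 * (s * A) := by nlinarith
      have : 0 < s * A := by positivity
      linarith
    have hb0 : 0 ≤ b := by
      have : 0 ≤ A - 1 := by linarith
      positivity
    have hb1 : b ≤ 1 := by linarith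
    have hcs : ‖c - c₀‖ ≤ s := hc.trans (by rw [div_le_iff₀ hL0]; nlinarith)
    have hcs' : L * ‖c - c₀‖ ≤ s := by
      rw [le_div_iff₀ hL0] at hc
      linarith
    have hc₀3 : ‖c₀‖ ≤ 3 := (h.bd 0).trans (by norm_num)
    have hc1 : ‖c‖ ≤ 3 := by
      have h2 : ‖c‖ ≤ ‖c - c₀‖ + ‖c₀‖ := by
        calc ‖c‖ = ‖(c - c₀) + c₀‖ := by congr 1; ring
          _ ≤ _ := norm_add_le _ _
      have := h.bd 0
      simp only [Function.iterate_zero, id_eq] at this
      linarith
    have hzP : z ∈ PP d c₀ := orb_mem_PP _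
    have hz2 : ‖z‖ ≤ 2 := h.PP_bd hzP
    have hn0 := norm_nonneg (c - c₀)
    have hslope : L * (‖c - c₀‖ + b) ≤ 5 * (L * s * A) := by
      have : ‖c - c₀‖ + b ≤ 5 * (s * A) := by linarith
      nlinarith
    have hu4 : ∀ u : ℂ, ‖u - z‖ ≤ b → ‖u‖ ≤ 4 := by
      intro u hu
      calc ‖u‖ = ‖(u - z) + z‖ := by congr 1; ring
        _ ≤ ‖u - z‖ + ‖z‖ := norm_add_le _ _
        _ ≤ 4 := by linarith
    have hfac : (1 - 10 * L * s * (a * A)) * (a * A) ≤
        (1 - 10 * L * s * A) * A * (a - 5 * (L * s * A)) := by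
      set t : ℝ := L * s * A with ht
      have ht0 : 0 < t := by positivity
      have e1 : (1 - 10 * L * s * A) * A * (a - 5 * (L * s * A)) = A * ((1 - 10 * t) * (a - 5 * t)) := by
        rw [ht]; ring
      have e2 : (1 - 10 * L * s * (a * A)) * (a * A) = A * (a * (1 - 10 * a * t)) := by
        rw [ht]; ring
      rw [e1, e2]
      apply mul_le_mul_of_nonneg_left _ (by linarith)
      have h3 : 10 * t * a * (a - 1) ≥ 10 * t * a := by
        have : 0 < 10 * t * a := by positivity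
        nlinarith
      nlinarith
    refine ⟨?_, ?_, ?_⟩
    · intro x hx
      have hu := I1 x hx
      set u : ℂ := (f d c)^[M * q] x with hu'
      have e1 : (f d c)^[M * (q + 1)] x = (f d c)^[M] u := by
        rw [hu', ← Function.iterate_add_apply]
        congr 2
        ring
      have e2 : (f d c₀)^[M * (q + 1)] c₀ = (f d c₀)^[M] z := by
        rw [hz, ← Function.iterate_add_apply]
        congr 2
        ring
      rw [e1, e2]
      have h1 := affine_close (M := M) HL hL0.le hc₀3 hc1 hz2 hb1 le_rfl (u := u) (u' := z) hu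
        (by simpa using hb0)
      have h2 := (HL c c₀ z z hc1 hc₀3 (by linarith) (by linarith) M le_rfl).1
      rw [sub_self, norm_zero, add_zero] at h2
      have h3 : ‖(f d c)^[M] u - (f d c₀)^[M] z‖ ≤
          ‖((f d c)^[M] u - (f d c)^[M] z) - deriv ((f d c₀)^[M]) z * (u - z)‖ +
          ‖deriv ((f d c₀)^[M]) z * (u - z)‖ + ‖(f d c)^[M] z - (f d c₀)^[M] z‖ := by
        calc ‖(f d c)^[M] u - (f d c₀)^[M] z‖ =
            ‖(((f d c)^[M] u - (f d c)^[M] z) - deriv ((f d c₀)^[M]) z * (u - z)) +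
            deriv ((f d c₀)^[M]) z * (u - z) + ((f d c)^[M] z - (f d c₀)^[M] z)‖ := by
              congr 1; ring
          _ ≤ _ := norm_add₃_le
      rw [norm_mul] at h3
      have h4 : L * (‖c - c₀‖ + b) * ‖u - z‖ ≤ L * (‖c - c₀‖ + b) * b :=
        mul_le_mul_of_nonneg_left hu (by positivity)
      have h5 : a * ‖u - z‖ ≤ a * b := mul_le_mul_of_nonneg_left hu (by linarith)
      have h6 : ‖(f d c)^[M] u - (f d c₀)^[M] z‖ ≤ L * (‖c - c₀‖ + b) * b + a * b + s := by
        linarith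
      refine h6.trans ?_
      have h7 : L * (‖c - c₀‖ + b) * b ≤ s + L * b ^ 2 := by
        have : L * ‖c - c₀‖ * b ≤ s * 1 := mul_le_mul hcs' hb1 hb0 hs.le
        nlinarith
      have h8 : L * b ^ 2 ≤ 16 * L * s ^ 2 * A ^ 2 := by
        have : b ^ 2 ≤ (4 * (s * A)) ^ 2 := pow_le_pow_left₀ hb0 hb4 2
        nlinarith
      have h9 : 16 * L * s ^ 2 * A ^ 2 ≤ 16 * L * s ^ 2 * ((a * A) * (a * A - A)) := by
        apply mul_le_mul_of_nonneg_left _ (by positivity)
        nlinarith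
      have h10 : s * (a * A) * (1 + 16 * L * s * (a * A)) + 2 * s * (a * A - 1) =
          a * b + 16 * L * s ^ 2 * ((a * A) * (a * A - A)) + 2 * s * (a - 1) := by
        rw [hb]; ring
      rw [h10]
      have h11 : 2 * s ≤ 2 * s * (a - 1) := by nlinarith
      linarith
    · intro x hx
      have hu := I1 x hx
      have hd' := I2 x hx
      set u : ℂ := (f d c)^[M * q] x with hu'
      have e1 : deriv ((f d c)^[M * (q + 1)]) x = deriv ((f d c)^[M]) u *
          deriv ((f d c)^[M * q]) x := by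
        rw [show M * (q + 1) = M + M * q by ring, deriv_iter_add]
      rw [e1, norm_mul]
      have h1 := (HL c c₀ u z hc1 hc₀3 (hu4 u hu) (by linarith) M le_rfl).2
      have h2 : a - 5 * (L * s * A) ≤ ‖deriv ((f d c)^[M]) u‖ := by
        have h3 : a ≤ ‖deriv ((f d c)^[M]) u‖ +
            ‖deriv ((f d c)^[M]) u - deriv ((f d c₀)^[M]) z‖ := by
          have := norm_sub_le (deriv ((f d c)^[M]) u)
            (deriv ((f d c)^[M]) u - deriv ((f d c₀)^[M]) z)
          rwa [sub_sub_cancel] at this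
        have h4 : L * (‖c - c₀‖ + ‖u - z‖) ≤ L * (‖c - c₀‖ + b) := by gcongr
        linarith
      refine hfac.trans ?_
      rw [mul_comm]
      exact mul_le_mul h2 hd' (mul_nonneg (by linarith) (by linarith)) (norm_nonneg _)
    · intro x hx x' hx'
      have hu := I1 x hx
      have hv := I1 x' hx'
      have hd' := I3 x hx x' hx'
      set u : ℂ := (f d c)^[M * q] x with hu'
      set v : ℂ := (f d c)^[M * q] x' with hv'
      have e1 : (f d c)^[M * (q + 1)] x = (f d c)^[M] u := by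
        rw [hu', ← Function.iterate_add_apply]
        congr 2
        ring
      have e2 : (f d c)^[M * (q + 1)] x' = (f d c)^[M] v := by
        rw [hv', ← Function.iterate_add_apply]
        congr 2
        ring
      rw [e1, e2]
      have h1 := affine_close (M := M) HL hL0.le hc₀3 hc1 hz2 hb1 le_rfl (u := u) (u' := v) hu hv
      have h3 : ‖deriv ((f d c₀)^[M]) z * (u - v)‖ ≤ ‖(f d c)^[M] u - (f d c)^[M] v‖ +
          ‖((f d c)^[M] u - (f d c)^[M] v) - deriv ((f d c₀)^[M]) z * (u - v)‖ := by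
        have := norm_sub_le ((f d c)^[M] u - (f d c)^[M] v)
          (((f d c)^[M] u - (f d c)^[M] v) - deriv ((f d c₀)^[M]) z * (u - v))
        rwa [sub_sub_cancel] at this
      rw [norm_mul] at h3
      have h4 : L * (‖c - c₀‖ + b) * ‖u - v‖ ≤ 5 * (L * s * A) * ‖u - v‖ :=
        mul_le_mul_of_nonneg_right hslope (norm_nonneg _)
      have h5 : (a - 5 * (L * s * A)) * ‖u - v‖ ≤ ‖(f d c)^[M] u - (f d c)^[M] v‖ := by
        rw [sub_mul]
        linarith
      have hn := norm_nonneg (x - x')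
      calc (1 - 10 * L * s * (a * A)) * (a * A) * ‖x - x'‖
          ≤ (1 - 10 * L * s * A) * A * (a - 5 * (L * s * A)) * ‖x - x'‖ := by gcongr
        _ = (a - 5 * (L * s * A)) * ((1 - 10 * L * s * A) * A * ‖x - x'‖) := by ring
        _ ≤ (a - 5 * (L * s * A)) * ‖u - v‖ := by
            apply mul_le_mul_of_nonneg_left hd'
            linarith
        _ ≤ _ := h5

theorem SHyp.deriv_ub (h : SHyp d M c₀) {L : ℝ} (HL : Lip d M L) (j : ℕ) :
    ‖deriv ((f d c₀)^[M]) ((f d c₀)^[j] c₀)‖ ≤ 14 * L := by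
  have hc₀3 : ‖c₀‖ ≤ 3 := (h.bd 0).trans (by norm_num)
  have hd := h.hd
  have hM := h.hM
  have h0 : deriv ((f d c₀)^[M]) 0 = 0 := by
    rw [show M = (M - 1) + 1 by omega, deriv_iter_add, Function.iterate_one, deriv_f,
      zero_pow (by omega), mul_zero, mul_zero]
  have h1 := (HL c₀ c₀ ((f d c₀)^[j] c₀) 0 hc₀3 hc₀3 ((h.bd j).trans (by norm_num)) (by simp) M
    le_rfl).2
  rw [h0, sub_zero, sub_self, norm_zero, zero_add, sub_zero] at h1
  have h2 := h.bd j
  have h3 := h.exp j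
  have h4 := norm_nonneg ((f d c₀)^[j] c₀)
  nlinarith

/-- **Passage to large scale.** -/
theorem SHyp.scale (d M : ℕ) (hM : 1 ≤ M) : ∃ κ s₀ C θ : ℝ, 0 < κ ∧ 0 < s₀ ∧ s₀ ≤ 1 ∧ 0 < C ∧
    0 < θ ∧ θ ≤ 1 ∧ ∀ c₀ : ℂ, SHyp d M c₀ → ∀ (c : ℂ) (s : ℝ), 0 < s → s ≤ s₀ → ‖c - c₀‖ ≤ θ * s →
      ∃ n : ℕ, (n : ℝ) ≤ C * (1 + |Real.log s|) ∧
        InjOn ((f d c)^[n]) (ball c₀ s) ∧ ∀ z ∈ ball c₀ s, κ / s ≤ ‖deriv ((f d c)^[n]) z‖ := by
  obtain ⟨L, hL1, HL⟩ := tay d M
  have hL0 : 0 < L := by linarith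
  set B : ℝ := 14 * L with hBdef
  have hB0 : 0 < B := by positivity
  set ρ : ℝ := 1 / (32 * L) with hρ
  have hρ0 : 0 < ρ := by positivity
  have hρ1 : ρ ≤ 1 := by
    rw [hρ, div_le_one (by positivity)]
    linarith
  have hM0 : 0 < (M : ℝ) := by exact_mod_cast hM
  refine ⟨ρ / (2 * B), ρ, 2 * M, 1 / L, by positivity, hρ0, hρ1, by positivity, by positivity,
    by rw [div_le_one hL0]; exact hL1, ?_⟩
  intro c₀ h c s hs hsρ hc
  have hB := h.deriv_ub HL
  have hc' : ‖c - c₀‖ ≤ s / L := by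
    rw [one_div_mul_eq_div] at hc
    exact hc
  have hex : ∃ q, ρ < AQ d M c₀ (q + 1) * s := by
    obtain ⟨q, hq⟩ := pow_unbounded_of_one_lt (ρ / s) (one_lt_two : (1 : ℝ) < 2)
    refine ⟨q, ?_⟩
    have h1 := h.AQ_ge (q + 1)
    rw [div_lt_iff₀ hs] at hq
    rw [pow_succ] at h1
    have : (0 : ℝ) < 2 ^ q := by positivity
    nlinarith
  classical
  obtain ⟨q, hq1, hq2⟩ : ∃ q, ρ < AQ d M c₀ (q + 1) * s ∧ AQ d M c₀ q * s ≤ ρ := by
    refine ⟨Nat.find hex, Nat.find_spec hex, ?_⟩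
    rcases Nat.eq_zero_or_pos (Nat.find hex) with h0 | hpos
    · rw [h0, AQ_zero, one_mul]
      exact hsρ
    · have h1 := Nat.find_min hex (m := Nat.find hex - 1) (by omega)
      rw [Nat.sub_add_cancel hpos, not_lt] at h1
      exact h1
  obtain ⟨I1, I2, I3⟩ := h.passage hL1 HL hs hc' q hq2
  set A : ℝ := AQ d M c₀ q with hA
  have hA1 : 1 ≤ A := (one_le_pow₀ (by norm_num : (1 : ℝ) ≤ 2)).trans (h.AQ_ge q)
  have hLsA : L * s * A ≤ 1 / 32 := by
    have h1 := hq2
    rw [hρ, le_div_iff₀ (by positivity)] at h1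
    linarith
  have hhalf : 1 / 2 ≤ 1 - 10 * L * s * A := by linarith
  have hAlow : ρ / (B * s) ≤ A := by
    have h1 : AQ d M c₀ (q + 1) ≤ B * A := by
      rw [AQ_succ]
      exact mul_le_mul_of_nonneg_right (hB _) (norm_nonneg _)
    rw [div_le_iff₀ (by positivity)]
    have h2 : AQ d M c₀ (q + 1) * s ≤ B * A * s := mul_le_mul_of_nonneg_right h1 hs.le
    linarith
  refine ⟨M * q, ?_, ?_, ?_⟩
  · have h1 := h.AQ_ge q
    have h2 : (2 : ℝ) ^ q * s ≤ 1 := (mul_le_mul_of_nonneg_right h1 hs.le).trans (hq2.trans hρ1)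
    have h3 : Real.log ((2 : ℝ) ^ q * s) ≤ 0 := Real.log_nonpos (by positivity) h2
    rw [Real.log_mul (by positivity) hs.ne', Real.log_pow] at h3
    have h4 : Real.log 2 > 1 / 2 := by
      have := Real.log_two_gt_d9
      linarith
    have h5 : -Real.log s ≤ |Real.log s| := neg_le_abs _
    have h6 : (q : ℝ) ≤ 2 * |Real.log s| := by
      have h7 : (q : ℝ) * (1 / 2) ≤ q * Real.log 2 :=
        mul_le_mul_of_nonneg_left h4.le (Nat.cast_nonneg q)
      linarith
    push_cast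
    calc (M : ℝ) * q ≤ M * (2 * |Real.log s|) := by gcongr
      _ ≤ 2 * M * (1 + |Real.log s|) := by
          have : 0 ≤ 2 * (M : ℝ) := by positivity
          linarith
  · intro x hx x' hx' hxx
    have h1 := I3 x hx x' hx'
    rw [hxx, sub_self, norm_zero] at h1
    have h2 : 0 < (1 - 10 * L * s * A) * A := by
      apply mul_pos <;> linarith
    have h3 : ‖x - x'‖ ≤ 0 := by
      by_contra hcon
      have := mul_pos h2 (not_le.mp hcon)
      linarith
    exact sub_eq_zero.mp (norm_le_zero_iff.mp h3)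
  · intro x hx
    refine le_trans ?_ (I2 x hx)
    calc ρ / (2 * B) / s = (1 / 2) * (ρ / (B * s)) := by field_simp
      _ ≤ (1 / 2) * A := by gcongr
      _ ≤ _ := mul_le_mul_of_nonneg_right hhalf (by linarith)

end Pool.Agent.Y298.SH
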