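import Mathlib
import Pool.Agent.Y298.SH.Trans2
import Pool.Agent.Y298.SH.Scale
import Pool.Agent.TH279.MD.Final

/-!
# Growth of the derivative of the critical orbit with respect to the parameter
-/

set_option autoImplicit false

open Set Filter Metric MeasureTheory

namespace Pool.Agent.Y298.SH

open Pool.Agent.TH279.MD

/-- the derivative of the critical orbit with respect to the parameter -/
theorem der_sum (d : ℕ) (hd : 2 ≤ d) (c : ℂ) (n : ℕ)
    (h : ∀ k ≤ n, deriv ((f d c)^[k]) c ≠ 0) :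
    HasDerivAt (fun c => (f d c)^[n] c)
      (deriv ((f d c)^[n]) c * ∑ k ∈ Finset.range (n + 1), (deriv ((f d c)^[k]) c)⁻¹) c := by
  induction n with
  | zero =>
    simp only [Function.iterate_zero, id_eq, deriv_id', zero_add, Finset.range_one,
      Finset.sum_singleton, inv_one, mul_one]
    exact hasDerivAt_id c
  | succ n ih =>
    have ih' := ih (fun k hk => h k (by omega))
    have e1 : (fun c => (f d c)^[n + 1] c) = fun c => ((f d c)^[n] c) ^ d + c := by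
      funext c
      rw [Function.iterate_succ_apply']
      rfl
    rw [e1]
    have h1 := (ih'.pow d).add (hasDerivAt_id c)
    refine h1.congr_deriv ?_
    have h2 : deriv ((f d c)^[n + 1]) c = d * ((f d c)^[n] c) ^ (d - 1) * deriv ((f d c)^[n]) c := by
      rw [add_comm, deriv_iter_add, Function.iterate_one, deriv_f]
    have h3 := h (n + 1) le_rfl
    rw [Finset.sum_range_succ _ (n + 1), mul_add, mul_inv_cancel₀ h3, h2]
    ring

variable {d M : ℕ} {c₀ : ℂ}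

theorem Lip.deriv_le {L : ℝ} (hL1 : 1 ≤ L) (HL : Lip d M L) (hd : 2 ≤ d) {c u : ℂ} (hc : ‖c‖ ≤ 3)
    (hu : ‖u‖ ≤ 4) {n : ℕ} (hn : n ≤ M) : ‖deriv ((f d c)^[n]) u‖ ≤ 14 * L := by
  rcases Nat.eq_zero_or_pos n with rfl | hn0
  · simp only [Function.iterate_zero, deriv_id, norm_one]
    linarith
  · have h0 : deriv ((f d c)^[n]) 0 = 0 := by
      rw [show n = (n - 1) + 1 by omega, deriv_iter_add, Function.iterate_one, deriv_f,
        zero_pow (by omega), mul_zero, mul_zero]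
    have h1 := (HL c c u 0 hc hc hu (by simp) n hn).2
    rw [h0, sub_zero, sub_self, norm_zero, zero_add, sub_zero] at h1
    nlinarith

/-- uniform lower bound of the derivative for less than `M` steps -/
theorem SHyp.deriv_lb' (h : SHyp d M c₀) {L : ℝ} (hL1 : 1 ≤ L) (HL : Lip d M L) (j : ℕ) {n : ℕ}
    (hn : n ≤ M) : 1 / (7 * L) ≤ ‖deriv ((f d c₀)^[n]) ((f d c₀)^[j] c₀)‖ := by
  have hc₀3 : ‖c₀‖ ≤ 3 := (h.bd 0).trans (by norm_num)
  have h1 := h.exp j
  rw [show M = (M - n) + n by omega, deriv_iter_add, norm_mul, ← Function.iterate_add_apply] at h1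
  have h2 := Lip.deriv_le hL1 HL h.hd hc₀3 (u := (f d c₀)^[n + j] c₀)
    ((h.bd _).trans (by norm_num)) (n := M - n) (by omega)
  have h3 := norm_nonneg (deriv ((f d c₀)^[n]) ((f d c₀)^[j] c₀))
  rw [div_le_iff₀ (by positivity)]
  nlinarith

/-- the number of steps -/
theorem SHyp.exists_q (h : SHyp d M c₀) {ρ s : ℝ} (hs : 0 < s) (hsρ : s ≤ ρ) :
    ∃ q, ρ < AQ d M c₀ (q + 1) * s ∧ AQ d M c₀ q * s ≤ ρ := by
  have hex : ∃ q, ρ < AQ d M c₀ (q + 1) * s := by
    obtain ⟨q, hq⟩ := pow_unbounded_of_one_lt (ρ / s) (one_lt_two : (1 : ℝ) < 2)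
    refine ⟨q, ?_⟩
    have h1 := h.AQ_ge (q + 1)
    rw [div_lt_iff₀ hs] at hq
    rw [pow_succ] at h1
    have : (0 : ℝ) < 2 ^ q := by positivity
    nlinarith
  classical
  refine ⟨Nat.find hex, Nat.find_spec hex, ?_⟩
  rcases Nat.eq_zero_or_pos (Nat.find hex) with h0 | hpos
  · rw [h0, AQ_zero, one_mul]
    exact hsρ
  · have h1 := Nat.find_min hex (m := Nat.find hex - 1) (by omega)
    rw [Nat.sub_add_cancel hpos, not_lt] at h1
    exact h1

theorem SHyp.AQ_mono (h : SHyp d M c₀) : Monotone (AQ d M c₀) := by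
  apply monotone_nat_of_le_succ
  intro n
  have h1 := h.AQ_dbl n
  have h2 := h.AQ_ge n
  have : (0 : ℝ) < 2 ^ n := by positivity
  linarith

theorem SHyp.AQ_le (h : SHyp d M c₀) {L : ℝ} (hL1 : 1 ≤ L) (HL : Lip d M L) (q : ℕ) :
    AQ d M c₀ q ≤ (14 * L) ^ q := by
  induction q with
  | zero => rw [AQ_zero, pow_zero]
  | succ q ih =>
    rw [AQ_succ, pow_succ, mul_comm]
    exact mul_le_mul ih (h.deriv_ub HL _) (norm_nonneg _) (by positivity)

/-- lower bound of the derivatives of all iterates at the critical value of a nearby parameter -/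
theorem SHyp.near_lb (h : SHyp d M c₀) {L : ℝ} (hL1 : 1 ≤ L) (HL : Lip d M L) {c : ℂ} {s : ℝ}
    (hs : 0 < s) (hc : ‖c - c₀‖ ≤ s / L) (hcs : ‖c - c₀‖ < s) {q : ℕ}
    (hq : AQ d M c₀ q * s ≤ 1 / (70 * L ^ 2)) {k : ℕ} (hk : k ≤ M * q) :
    (1 / (28 * L)) * 2 ^ (k / M) ≤ ‖deriv ((f d c)^[k]) c‖ := by
  have hL0 : 0 < L := by linarith
  have hM := h.hM
  have hc₀3 : ‖c₀‖ ≤ 3 := (h.bd 0).trans (by norm_num)
  set p := k / M with hp
  have hpq : p ≤ q := by
    rw [hp]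
    calc k / M ≤ (M * q) / M := Nat.div_le_div_right hk
      _ = q := Nat.mul_div_cancel_left q (by omega)
  have hAp : AQ d M c₀ p * s ≤ 1 / (70 * L ^ 2) :=
    (mul_le_mul_of_nonneg_right (h.AQ_mono hpq) hs.le).trans hq
  have hle : 1 / (70 * L ^ 2) ≤ 1 / (32 * L) := by
    apply one_div_le_one_div_of_le (by positivity)
    nlinarith
  obtain ⟨I1, I2, -⟩ := h.passage hL1 HL hs hc p (hAp.trans hle)
  have hcb : c ∈ ball c₀ s := by rw [mem_ball, dist_eq_norm]; exact hcs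
  have J1 := I1 c hcb
  have J2 := I2 c hcb
  set A := AQ d M c₀ p with hA
  have hA1 : 2 ^ p ≤ A := h.AQ_ge p
  have hA1' : 1 ≤ A := (one_le_pow₀ (by norm_num)).trans hA1
  have hLA : L ^ 2 * (s * A) ≤ 1 / 70 := by
    rw [le_div_iff₀ (by positivity)] at hAp
    linarith
  have hLA' : L * (s * A) ≤ 1 / 70 := by
    have : L * (s * A) ≤ L ^ 2 * (s * A) := by
      have : 0 < s * A := by positivity
      have : L ≤ L ^ 2 := by nlinarith
      nlinarith
    linarith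
  have hsA1 : s * A ≤ 1 / 70 := by
    have : s * A ≤ L * (s * A) := by
      have : 0 < s * A := by positivity
      nlinarith
    linarith
  have hsA : s ≤ s * A := by nlinarith
  -- distance
  have hb : ‖(f d c)^[M * p] c - (f d c₀)^[M * p] c₀‖ ≤ 4 * (s * A) := by
    refine J1.trans ?_
    have h1 : s * A * (1 + 16 * L * s * A) ≤ s * A * (1 + 1 / 2) := by
      apply mul_le_mul_of_nonneg_left _ (by positivity)
      linarith
    have h2 : 2 * s * (A - 1) ≤ 2 * (s * A) := by nlinarith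
    have : 0 < s * A := by positivity
    linarith
  have hc3 : ‖c‖ ≤ 3 := by
    have h2 : ‖c‖ ≤ ‖c - c₀‖ + ‖c₀‖ := by
      calc ‖c‖ = ‖(c - c₀) + c₀‖ := by congr 1; ring
        _ ≤ _ := norm_add_le _ _
    have := h.bd 0
    simp only [Function.iterate_zero, id_eq] at this
    linarith
  have hz2 := h.bd (M * p)
  have hu4 : ‖(f d c)^[M * p] c‖ ≤ 4 := by
    calc ‖(f d c)^[M * p] c‖ = ‖((f d c)^[M * p] c - (f d c₀)^[M * p] c₀) +
        (f d c₀)^[M * p] c₀‖ := by congr 1; ring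
      _ ≤ _ := norm_add_le _ _
      _ ≤ 4 := by linarith
  have hi : k % M ≤ M := (Nat.mod_lt k (by omega)).le
  have h1 := h.deriv_lb' hL1 HL (M * p) hi
  have h2 := (HL c c₀ ((f d c)^[M * p] c) ((f d c₀)^[M * p] c₀) hc3 hc₀3 hu4 (by linarith)
    (k % M) hi).2
  have h3 : 1 / (14 * L) ≤ ‖deriv ((f d c)^[k % M]) ((f d c)^[M * p] c)‖ := by
    have e1 : ‖deriv ((f d c₀)^[k % M]) ((f d c₀)^[M * p] c₀)‖ ≤
        ‖deriv ((f d c)^[k % M]) ((f d c)^[M * p] c)‖ +
        ‖deriv ((f d c)^[k % M]) ((f d c)^[M * p] c) -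
          deriv ((f d c₀)^[k % M]) ((f d c₀)^[M * p] c₀)‖ := by
      have := norm_sub_le (deriv ((f d c)^[k % M]) ((f d c)^[M * p] c))
        (deriv ((f d c)^[k % M]) ((f d c)^[M * p] c) -
          deriv ((f d c₀)^[k % M]) ((f d c₀)^[M * p] c₀))
      rwa [sub_sub_cancel] at this
    have e2 : L * (‖c - c₀‖ + ‖(f d c)^[M * p] c - (f d c₀)^[M * p] c₀‖) ≤ 1 / (14 * L) := by
      have e3 : ‖c - c₀‖ + ‖(f d c)^[M * p] c - (f d c₀)^[M * p] c₀‖ ≤ 5 * (s * A) := by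
        linarith
      rw [le_div_iff₀ (by positivity)]
      have e4 : L * (‖c - c₀‖ + ‖(f d c)^[M * p] c - (f d c₀)^[M * p] c₀‖) ≤ L * (5 * (s * A)) :=
        mul_le_mul_of_nonneg_left e3 hL0.le
      nlinarith
    have e5 : 1 / (7 * L) = 1 / (14 * L) + 1 / (14 * L) := by field_simp; norm_num
    linarith
  have hk' : k = k % M + M * p := by rw [hp, Nat.mod_add_div]
  have h4 : ‖deriv ((f d c)^[k]) c‖ = ‖deriv ((f d c)^[k % M]) ((f d c)^[M * p] c)‖ *
      ‖deriv ((f d c)^[M * p]) c‖ := by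
    rw [← norm_mul, ← deriv_iter_add, ← hk']
  rw [h4]
  have h5 : 2 ^ p / 2 ≤ ‖deriv ((f d c)^[M * p]) c‖ := by
    refine le_trans ?_ J2
    have e1 : 1 / 2 ≤ 1 - 10 * L * s * A := by linarith
    calc (2 : ℝ) ^ p / 2 = (1 / 2) * 2 ^ p := by ring
      _ ≤ (1 - 10 * L * s * A) * A := mul_le_mul e1 hA1 (by positivity) (by linarith)
  calc (1 / (28 * L)) * 2 ^ p = (1 / (14 * L)) * (2 ^ p / 2) := by field_simp; norm_num
    _ ≤ _ := mul_le_mul h3 h5 (by positivity) (norm_nonneg _)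

/-- **Growth of the derivative of the critical orbit with respect to the parameter.** -/
theorem SHyp.big_deriv (h : SHyp d M c₀) : ∃ κ C ε : ℝ, 0 < κ ∧ 0 < C ∧ 0 < ε ∧
    ∀ c₁ : ℂ, SHyp d M c₁ → ∀ c : ℂ, c ≠ c₁ → ‖c - c₁‖ ≤ ε → ‖c - c₀‖ ≤ ε →
      ∃ i : ℕ, 1 ≤ i ∧ (i : ℝ) ≤ C * (1 + |Real.log ‖c - c₁‖|) ∧
        κ / ‖c - c₁‖ ≤ ‖deriv (Pool.Agent.H712R2.P d i) c‖ := by
  have hd := h.hd
  have hM := h.hM
  have hM0 : (0 : ℝ) < M := by exact_mod_cast hM
  obtain ⟨L, hL1, HL⟩ := tay d M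
  have hL0 : 0 < L := by linarith
  set T : ℂ := ∑' n, bb d c₀ n with hT
  have hT0 : 0 < ‖T‖ := norm_pos_iff.mpr h.trans
  obtain ⟨lam, hl0, hl1, hlam⟩ := pow_div_le M hM
  -- the tails
  have hsum : Summable (bb d c₀) := h.summable_bb.of_norm
  have ht1 : ∀ᶠ k₀ in atTop, ‖(∑ n ∈ Finset.range k₀, bb d c₀ n) - T‖ < ‖T‖ / 4 := by
    have h1 := hsum.hasSum.tendsto_sum_nat
    have h2 := (Metric.tendsto_atTop.mp h1) (‖T‖ / 4) (by positivity)
    obtain ⟨N, hN⟩ := h2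
    filter_upwards [eventually_ge_atTop N] with n hn
    have := hN n hn
    rwa [dist_eq_norm] at this
  have ht2 : ∀ᶠ k₀ : ℕ in atTop, 56 * L / (1 - lam) * lam ^ k₀ < ‖T‖ / 4 := by
    have h1 := (tendsto_pow_atTop_nhds_zero_of_lt_one hl0.le hl1).const_mul (56 * L / (1 - lam))
    rw [mul_zero] at h1
    exact h1.eventually_lt_const (by positivity)
  obtain ⟨k₀, hk1, hk2⟩ := (ht1.and ht2).exists
  -- the head
  have hhead : ∃ ε₁ > 0, ∀ c : ℂ, ‖c - c₀‖ < ε₁ →
      ‖(∑ n ∈ Finset.range k₀, (deriv ((f d c)^[n]) c)⁻¹) - ∑ n ∈ Finset.range k₀, bb d c₀ n‖ <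
        ‖T‖ / 4 := by
    have hcont : ContinuousAt (fun c : ℂ => ∑ n ∈ Finset.range k₀, (deriv ((f d c)^[n]) c)⁻¹) c₀ := by
      apply tendsto_finsetSum
      intro n _
      have h1 : Continuous fun c : ℂ => deriv ((f d c)^[n]) c :=
        (contDiff_deriv d n).continuous.comp (continuous_id.prodMk continuous_id)
      have h2 : deriv ((f d c₀)^[n]) c₀ ≠ 0 := by
        obtain ⟨κ', hκ'0, -, hκ'⟩ := h.deriv_iter_lb
        intro h0
        have h3 := hκ' c₀ (orb_mem_PP (d := d) (c₀ := c₀) 0) n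
        rw [h0, norm_zero] at h3
        have : 0 < κ' * 2 ^ (n / M) := by positivity
        linarith
      exact (h1.continuousAt (x := c₀)).inv₀ h2
    obtain ⟨ε₁, hε₁, H⟩ := Metric.continuousAt_iff.mp hcont (‖T‖ / 4) (by positivity)
    refine ⟨ε₁, hε₁, fun c hc => ?_⟩
    have := H (x := c) (by rw [dist_eq_norm]; exact hc)
    rwa [dist_eq_norm] at this
  obtain ⟨ε₁, hε₁, hhead⟩ := hhead
  set ρ : ℝ := 1 / (70 * L ^ 2) with hρ
  have hρ0 : 0 < ρ := by positivity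
  have hρ1 : ρ ≤ 1 := by
    rw [hρ, div_le_one (by positivity)]
    nlinarith
  have hρ32 : ρ ≤ 1 / (32 * L) := by
    apply one_div_le_one_div_of_le (by positivity)
    nlinarith
  set ε : ℝ := min (ε₁ / 2) (ρ / (2 * L * (14 * L) ^ (k₀ + 1))) with hε
  have hε0 : 0 < ε := by positivity
  set E : ℝ := |Real.log (2 * L)| with hE
  have hE0 : 0 ≤ E := abs_nonneg _
  refine ⟨‖T‖ * ρ / (224 * L ^ 2), 2 * M * (1 + E) + 1, ε, by positivity, by positivity, hε0, ?_⟩
  intro c₁ hc₁ c hcc hce hce'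
  have he0 : 0 < ‖c - c₁‖ := norm_pos_iff.mpr (sub_ne_zero.mpr hcc)
  set s : ℝ := 2 * L * ‖c - c₁‖ with hs
  have hs0 : 0 < s := by positivity
  have hcs1 : ‖c - c₁‖ ≤ s / L := by
    rw [le_div_iff₀ hL0, hs]
    nlinarith
  have hcs2 : ‖c - c₁‖ < s := by
    rw [hs]
    nlinarith
  have hsk : s ≤ ρ / (14 * L) ^ (k₀ + 1) := by
    have h1 : ‖c - c₁‖ ≤ ρ / (2 * L * (14 * L) ^ (k₀ + 1)) := hce.trans (min_le_right _ _)
    rw [le_div_iff₀ (by positivity)] at h1 ⊢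
    rw [hs]
    linarith
  have h14 : (1 : ℝ) ≤ (14 * L) ^ (k₀ + 1) := one_le_pow₀ (by linarith)
  have hsρ : s ≤ ρ := hsk.trans (div_le_self hρ0.le h14)
  obtain ⟨q, hq1, hq2⟩ := hc₁.exists_q hs0 hsρ
  have hqk : k₀ < q + 1 := by
    by_contra hcon
    rw [not_lt] at hcon
    have h1 := hc₁.AQ_le hL1 HL (q + 1)
    have h2 : (14 * L) ^ (q + 1) ≤ (14 * L) ^ (k₀ + 1) :=
      pow_le_pow_right₀ (by linarith) (by omega)
    have h3 : AQ d M c₁ (q + 1) * s ≤ ρ := by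
      rw [le_div_iff₀ (by positivity)] at hsk
      calc AQ d M c₁ (q + 1) * s ≤ (14 * L) ^ (k₀ + 1) * s :=
            mul_le_mul_of_nonneg_right (h1.trans h2) hs0.le
        _ ≤ ρ := by linarith
    linarith
  set n := M * q with hn
  have hnk : k₀ ≤ n + 1 := by
    have : q ≤ M * q := Nat.le_mul_of_pos_left q (by omega)
    omega
  have hlb : ∀ k ≤ n, (1 / (28 * L)) * 2 ^ (k / M) ≤ ‖deriv ((f d c)^[k]) c‖ := fun k hk =>
    hc₁.near_lb hL1 HL hs0 hcs1 hcs2 hq2 hk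
  have hne : ∀ k ≤ n, deriv ((f d c)^[k]) c ≠ 0 := by
    intro k hk h0
    have h1 := hlb k hk
    rw [h0, norm_zero] at h1
    have : 0 < (1 / (28 * L)) * 2 ^ (k / M) := by positivity
    linarith
  have hder := (der_sum d hd c n hne).deriv
  have hP : (fun c => (f d c)^[n] c) = Pool.Agent.H712R2.P d (n + 1) := by
    funext c
    rw [P_eq, Function.iterate_succ_apply]
    congr 1
    unfold f
    rw [zero_pow (by omega), zero_add]
  rw [hP] at hder
  refine ⟨n + 1, by omega, ?_, ?_⟩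
  · have h1 := hc₁.AQ_ge q
    have h2 : (2 : ℝ) ^ q * s ≤ 1 := (mul_le_mul_of_nonneg_right h1 hs0.le).trans (hq2.trans hρ1)
    have h3 : Real.log ((2 : ℝ) ^ q * s) ≤ 0 := Real.log_nonpos (by positivity) h2
    rw [Real.log_mul (by positivity) hs0.ne', Real.log_pow] at h3
    have h4 : Real.log 2 > 1 / 2 := by
      have := Real.log_two_gt_d9
      linarith
    have h5 : -Real.log s ≤ |Real.log s| := neg_le_abs _
    have h6 : (q : ℝ) ≤ 2 * |Real.log s| := by
      have h7 : (q : ℝ) * (1 / 2) ≤ q * Real.log 2 :=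
        mul_le_mul_of_nonneg_left h4.le (Nat.cast_nonneg q)
      linarith
    have h8 : |Real.log s| ≤ E + |Real.log ‖c - c₁‖| := by
      rw [hs, Real.log_mul (by positivity) he0.ne']
      exact abs_add_le _ _
    have h9 := abs_nonneg (Real.log ‖c - c₁‖)
    rw [hn]
    push_cast
    have h10 : (M : ℝ) * q ≤ 2 * M * (E + |Real.log ‖c - c₁‖|) := by
      calc (M : ℝ) * q ≤ M * (2 * |Real.log s|) := by gcongr
        _ ≤ M * (2 * (E + |Real.log ‖c - c₁‖|)) := by gcongr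
        _ = _ := by ring
    have h11 : 2 * M * (E + |Real.log ‖c - c₁‖|) ≤
        2 * M * ((1 + E) * (1 + |Real.log ‖c - c₁‖|)) := by
      apply mul_le_mul_of_nonneg_left _ (by positivity)
      nlinarith
    nlinarith
  · rw [hder, norm_mul]
    -- the sum
    have hS : ‖T‖ / 4 ≤ ‖∑ k ∈ Finset.range (n + 1), (deriv ((f d c)^[k]) c)⁻¹‖ := by
      rw [← Finset.sum_range_add_sum_Ico _ hnk]
      set S1 := ∑ k ∈ Finset.range k₀, (deriv ((f d c)^[k]) c)⁻¹ with hS1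
      set S2 := ∑ k ∈ Finset.Ico k₀ (n + 1), (deriv ((f d c)^[k]) c)⁻¹ with hS2
      have g1 : ‖S1 - ∑ n ∈ Finset.range k₀, bb d c₀ n‖ < ‖T‖ / 4 :=
        hhead c (hce'.trans_lt ((min_le_left _ _).trans_lt (by linarith)))
      have g2 : ‖S2‖ ≤ ‖T‖ / 4 := by
        calc ‖S2‖ ≤ ∑ k ∈ Finset.Ico k₀ (n + 1), ‖(deriv ((f d c)^[k]) c)⁻¹‖ := norm_sum_le _ _
          _ ≤ ∑ k ∈ Finset.Ico k₀ (n + 1), 56 * L * lam ^ k := by
              apply Finset.sum_le_sum
              intro k hk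
              have hk' := (Finset.mem_Ico.mp hk).2
              rw [norm_inv]
              calc ‖deriv ((f d c)^[k]) c‖⁻¹ ≤ ((1 / (28 * L)) * 2 ^ (k / M))⁻¹ :=
                    inv_anti₀ (by positivity) (hlb k (by omega))
                _ = 28 * L * ((2 : ℝ) ^ (k / M))⁻¹ := by
                    rw [mul_inv, one_div, inv_inv]
                _ ≤ 28 * L * (2 * lam ^ k) := by
                    gcongr
                    exact hlam k
                _ = _ := by ring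
          _ = 56 * L * ∑ k ∈ Finset.Ico k₀ (n + 1), lam ^ k := by rw [Finset.mul_sum]
          _ ≤ 56 * L * (lam ^ k₀ / (1 - lam)) := by
              gcongr
              exact geom_sum_Ico_le_of_lt_one hl0.le hl1
          _ = 56 * L / (1 - lam) * lam ^ k₀ := by ring
          _ ≤ ‖T‖ / 4 := hk2.le
      have g3 : ‖T‖ ≤ ‖S1 + S2‖ + ‖S2‖ + ‖S1 - ∑ n ∈ Finset.range k₀, bb d c₀ n‖ +
          ‖(∑ n ∈ Finset.range k₀, bb d c₀ n) - T‖ := by
        have e1 : T = (S1 + S2) - S2 - (S1 - ∑ n ∈ Finset.range k₀, bb d c₀ n) -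
            ((∑ n ∈ Finset.range k₀, bb d c₀ n) - T) := by ring
        calc ‖T‖ = ‖(S1 + S2) - S2 - (S1 - ∑ n ∈ Finset.range k₀, bb d c₀ n) -
            ((∑ n ∈ Finset.range k₀, bb d c₀ n) - T)‖ := by rw [← e1]
          _ ≤ ‖(S1 + S2) - S2 - (S1 - ∑ n ∈ Finset.range k₀, bb d c₀ n)‖ +
            ‖(∑ n ∈ Finset.range k₀, bb d c₀ n) - T‖ := norm_sub_le _ _
          _ ≤ (‖(S1 + S2) - S2‖ + ‖S1 - ∑ n ∈ Finset.range k₀, bb d c₀ n‖) +
            ‖(∑ n ∈ Finset.range k₀, bb d c₀ n) - T‖ := by gcongr; exact norm_sub_le _ _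
          _ ≤ ((‖S1 + S2‖ + ‖S2‖) + ‖S1 - ∑ n ∈ Finset.range k₀, bb d c₀ n‖) +
            ‖(∑ n ∈ Finset.range k₀, bb d c₀ n) - T‖ := by gcongr; exact norm_sub_le _ _
          _ = _ := by ring
      linarith
    have hB : AQ d M c₁ q / 2 ≤ ‖deriv ((f d c)^[n]) c‖ := by
      obtain ⟨-, I2, -⟩ := hc₁.passage hL1 HL hs0 hcs1 q (hq2.trans hρ32)
      refine le_trans ?_ (I2 c (by rw [mem_ball, dist_eq_norm]; exact hcs2))
      have h1 : 10 * L * s * AQ d M c₁ q ≤ 1 / 2 := by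
        have h2 := hq2.trans hρ32
        rw [le_div_iff₀ (by positivity)] at h2
        linarith
      have h3 : 0 ≤ AQ d M c₁ q := norm_nonneg _
      nlinarith
    have hAlow : ρ / (14 * L * s) ≤ AQ d M c₁ q := by
      have h1 : AQ d M c₁ (q + 1) ≤ 14 * L * AQ d M c₁ q := by
        rw [AQ_succ]
        exact mul_le_mul_of_nonneg_right (hc₁.deriv_ub HL _) (norm_nonneg _)
      rw [div_le_iff₀ (by positivity)]
      have h2 := mul_le_mul_of_nonneg_right h1 hs0.le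
      linarith
    calc ‖T‖ * ρ / (224 * L ^ 2) / ‖c - c₁‖ = (ρ / (14 * L * s) / 2) * (‖T‖ / 4) := by
          rw [hs]
          field_simp
          norm_num
      _ ≤ (AQ d M c₁ q / 2) * (‖T‖ / 4) := by gcongr
      _ ≤ _ := mul_le_mul hB hS (by positivity) (norm_nonneg _)

end Pool.Agent.Y298.SH
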