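import Mathlib
import Pool.Agent.Y298.SH.Cut
import Pool.Agent.Y298.SH.Scale

/-!
# The recursion for the areas of the level sets
-/

set_option autoImplicit false

open Set Filter Metric MeasureTheory

namespace Pool.Agent.Y298.SH

open Pool.Agent.TH279.MD

/-- one step of the decomposition -/
theorem split_one {d : ℕ} (hd : 2 ≤ d) {δ : ℝ} (hδ : 0 < δ) (c : ℂ) (r : ℝ) (n : ℕ)
    {φ : ℂ → ℝ} (hφ : Continuous φ) (h0 : ∀ y, 0 ≤ φ y) :
    ∫⁻ y in SL d c r (n + 1), ENNReal.ofReal (φ y) ≤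
      (∫⁻ y in SL d c r (n + 1) ∩ ball 0 (2 * δ), ENNReal.ofReal (φ y)) +
      ∫⁻ w in SL d c r n, ENNReal.ofReal (RO d δ c φ w) := by
  have hm : Measurable fun y => ENNReal.ofReal (φ y) := ENNReal.measurable_ofReal.comp hφ.measurable
  have hm2 : Measurable fun y => ENNReal.ofReal (chi δ y * φ y) :=
    ENNReal.measurable_ofReal.comp ((continuous_chi δ).mul hφ).measurable
  have e1 : ∀ y, ENNReal.ofReal (φ y) ≤ (ball (0 : ℂ) (2 * δ)).indicator
      (fun y => ENNReal.ofReal (φ y)) y + ENNReal.ofReal (chi δ y * φ y) := by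
    intro y
    by_cases hy : y ∈ ball (0 : ℂ) (2 * δ)
    · rw [indicator_of_mem hy]
      exact le_add_of_nonneg_right bot_le
    · rw [mem_ball_zero_iff, not_lt] at hy
      rw [chi_one hδ hy, one_mul]
      exact le_add_of_nonneg_left bot_le
  calc ∫⁻ y in SL d c r (n + 1), ENNReal.ofReal (φ y)
      ≤ ∫⁻ y in SL d c r (n + 1), ((ball (0 : ℂ) (2 * δ)).indicator
          (fun y => ENNReal.ofReal (φ y)) y + ENNReal.ofReal (chi δ y * φ y)) :=
        lintegral_mono e1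
    _ = (∫⁻ y in SL d c r (n + 1), (ball (0 : ℂ) (2 * δ)).indicator
          (fun y => ENNReal.ofReal (φ y)) y) +
          ∫⁻ y in SL d c r (n + 1), ENNReal.ofReal (chi δ y * φ y) :=
        lintegral_add_left (hm.indicator measurableSet_ball) _
    _ = _ := by
        congr 1
        · rw [setLIntegral_indicator measurableSet_ball, inter_comm]
        · rw [SL_succ, dualE hd c (measurableSet_SL d c r n) hm2]
          apply lintegral_congr
          intro w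
          exact LE_ofReal hd hδ h0 w

/-- the decomposition according to the last passage near the critical point -/
theorem split {d : ℕ} (hd : 2 ≤ d) {δ : ℝ} (hδ : 0 < δ) {c : ℂ} (hc : ‖c‖ ≤ 3) {r : ℝ}
    (hr : 4 ≤ r) (N k j : ℕ) :
    ∫⁻ y in SL d c r (N + k), ENNReal.ofReal (psi d δ c j y) ≤
      (∫⁻ w in SL d c r N, ENNReal.ofReal (psi d δ c (j + k) w)) +
      ∑ i ∈ Finset.range k, ∫⁻ y in SL d c r (N + 1) ∩ ball 0 (2 * δ),
        ENNReal.ofReal (psi d δ c (j + i) y) := by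
  induction k generalizing j with
  | zero => simp
  | succ k ih =>
    have h1 := split_one hd hδ c r (N + k) (continuous_psi_right hd hδ c j) (psi_nonneg hδ c j)
    rw [← psi_succ] at h1
    have h2 := ih (j + 1)
    have h3 : ∫⁻ y in SL d c r (N + k + 1) ∩ ball 0 (2 * δ), ENNReal.ofReal (psi d δ c j y) ≤
        ∫⁻ y in SL d c r (N + 1) ∩ ball 0 (2 * δ), ENNReal.ofReal (psi d δ c j y) :=
      lintegral_mono_set (inter_subset_inter_left _ (SL_anti hd hc hr (by omega)))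
    rw [Finset.sum_range_succ', add_zero]
    calc ∫⁻ y in SL d c r (N + (k + 1)), ENNReal.ofReal (psi d δ c j y)
        ≤ _ := h1
      _ ≤ (∫⁻ y in SL d c r (N + 1) ∩ ball 0 (2 * δ), ENNReal.ofReal (psi d δ c j y)) +
          ((∫⁻ w in SL d c r N, ENNReal.ofReal (psi d δ c (j + 1 + k) w)) +
          ∑ i ∈ Finset.range k, ∫⁻ y in SL d c r (N + 1) ∩ ball 0 (2 * δ),
            ENNReal.ofReal (psi d δ c (j + 1 + i) y)) := add_le_add h3 h2
      _ = _ := by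
        have e1 : ∀ i, j + 1 + i = j + (i + 1) := fun i => by ring
        simp only [e1]
        ring

/-- the estimate of the areas -/
theorem vol_split {d : ℕ} (hd : 2 ≤ d) {δ : ℝ} (hδ : 0 < δ) {c : ℂ} (hc : ‖c‖ ≤ 3) {r : ℝ}
    (hr : 4 ≤ r) {m : ℕ} {ε Γ : ℝ} (hε : ∀ w : ℂ, ‖w‖ ≤ r → psi d δ c m w ≤ ε)
    (hΓ : ∀ y : ℂ, ‖y‖ ≤ 2 * δ → ∑ j ∈ Finset.range m, psi d δ c j y ≤ Γ) (N : ℕ) :
    volume (SL d c r (N + m)) ≤ ENNReal.ofReal ε * volume (SL d c r N) +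
      ENNReal.ofReal Γ * volume (SL d c r (N + 1) ∩ ball 0 (2 * δ)) := by
  have h1 := split hd hδ hc hr N m 0
  have e0 : ∫⁻ y in SL d c r (N + m), ENNReal.ofReal (psi d δ c 0 y) =
      volume (SL d c r (N + m)) := by
    have : ∀ y, ENNReal.ofReal (psi d δ c 0 y) = 1 := by
      intro y
      show ENNReal.ofReal 1 = 1
      exact ENNReal.ofReal_one
    simp only [this]
    rw [lintegral_one, Measure.restrict_apply_univ]
  rw [e0] at h1
  simp only [zero_add] at h1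
  refine h1.trans (add_le_add ?_ ?_)
  · rw [← setLIntegral_const]
    apply setLIntegral_mono' (measurableSet_SL d c r N)
    intro w hw
    exact ENNReal.ofReal_le_ofReal (hε w (by simpa using SL_sub hd hc hr N hw))
  · have hm3 : ∀ j ∈ Finset.range m, AEMeasurable (fun y => ENNReal.ofReal (psi d δ c j y))
        (volume.restrict (SL d c r (N + 1) ∩ ball 0 (2 * δ))) := fun j _ =>
      (ENNReal.measurable_ofReal.comp (continuous_psi_right hd hδ c j).measurable).aemeasurable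
    rw [← lintegral_finsetSum' _ hm3, ← setLIntegral_const]
    apply setLIntegral_mono' ((measurableSet_SL d c r (N + 1)).inter measurableSet_ball)
    rintro y ⟨_, hy⟩
    rw [mem_ball_zero_iff] at hy
    rw [← ENNReal.ofReal_sum_of_nonneg (fun j _ => psi_nonneg hδ c j y)]
    exact ENNReal.ofReal_le_ofReal (hΓ y hy.le)

variable {d M : ℕ} {c₀ : ℂ}

/-- The recursion near a parameter with a uniformly expanding critical orbit, with constants which
are uniform for all base points `c₁` near `c₀` with the same expansion. -/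
theorem SHyp.recursion (h : SHyp d M c₀) {r : ℝ} (hr : 4 ≤ r) :
    ∃ (ε₀ C B C₈ : ℝ) (i₀ : ℕ), 0 < ε₀ ∧ ε₀ ≤ 1 ∧ 0 ≤ C ∧ 0 ≤ B ∧ 0 ≤ C₈ ∧
      ∀ (c₁ : ℂ), SHyp d M c₁ → ∀ (c : ℂ), c ≠ c₁ → ‖c - c₁‖ ≤ ε₀ → ‖c - c₀‖ ≤ ε₀ →
        ∃ (a : ℕ → ℝ) (m : ℕ), (∀ n, 0 ≤ a n) ∧ Antitone a ∧
        a 0 ≤ B ∧ (∀ n, a (n + (m + i₀)) ≤ a n / 2 +
          C₈ * (‖c - c₁‖ ^ 2) ^ (1 - al d / 2) * a n ^ (1 - al d / 2)) ∧
        (m : ℝ) ≤ C * (1 + |Real.log ‖c - c₁‖|) ∧
        ∀ n, volume (SL d c r n) ≤ ENNReal.ofReal (a n) := by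
  have hd := h.hd
  have hc₀ : ‖c₀‖ ≤ 2 := h.bd 0
  have hα0 := al_pos hd
  have hα1 := one_le_al hd
  have hα2 := al_lt hd
  have hb0 : 0 < 1 - al d / 2 := by linarith
  have hb1 : 1 - al d / 2 ≤ 1 := by linarith
  set b := 1 - al d / 2 with hb
  obtain ⟨κ, s₀, C₄, θ, hκ, hs₀, hs₀1, hC₄, hθ, hθ1, hexp'⟩ := SHyp.scale d M h.hM
  obtain ⟨C₅, hC₅, hnear⟩ := near_crit (al d) (1 / κ ^ 2) s₀ hα0 hα2 (by positivity) hs₀
  obtain ⟨ρ₀, Γ, hρ₀, hΓ0, hΓ⟩ := h.psi_sum
  set G : ℝ := Γ + 1 with hG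
  have hG0 : 0 < G := by positivity
  -- δ
  obtain ⟨δ, hδ, hδ1, hδ2, hδ3⟩ : ∃ δ : ℝ, 0 < δ ∧ 2 * δ ≤ ρ₀ ∧ (2 * δ) ^ d ≤ s₀ / 8 ∧
      G * C₅ * (2 * δ) ^ 2 ≤ 1 / 8 := by
    set D := min 1 (min ρ₀ (min (s₀ / 8) (1 / (8 * (G * C₅))))) with hD
    have hD0 : 0 < D := by positivity
    have hD1 : D ≤ 1 := min_le_left _ _
    have hDD : D ^ 2 ≤ D := by nlinarith
    have hDd : D ^ d ≤ D := by
      calc D ^ d ≤ D ^ 2 := pow_le_pow_of_le_one hD0.le hD1 hd
        _ ≤ D := hDD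
    refine ⟨D / 2, by positivity, ?_, ?_, ?_⟩
    · rw [mul_div_cancel₀ D two_ne_zero]
      exact (min_le_right _ _).trans (min_le_left _ _)
    · rw [mul_div_cancel₀ D two_ne_zero]
      exact hDd.trans ((min_le_right _ _).trans ((min_le_right _ _).trans (min_le_left _ _)))
    · rw [mul_div_cancel₀ D two_ne_zero]
      have h2 : D ≤ 1 / (8 * (G * C₅)) :=
        (min_le_right _ _).trans ((min_le_right _ _).trans (min_le_right _ _))
      have h3 : D * (8 * (G * C₅)) ≤ 1 := by rwa [le_div_iff₀ (by positivity)] at h2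
      have h4 := mul_le_mul_of_nonneg_left hDD (by positivity : 0 ≤ G * C₅)
      linarith
  -- m₀
  obtain ⟨m₀, hm₀, hpsi⟩ := h.psi_small hδ hr (ε := 1 / 16) (by norm_num)
  obtain ⟨ρ₁, hρ₁, hpert1⟩ := tube (c₀ := c₀) (continuous_psi hd hδ m₀)
    (isCompact_closedBall (0 : ℂ) r) (b := 1 / 8) (fun w hw => by
      have := hpsi w (mem_closedBall_zero_iff.mp hw)
      show psi d δ c₀ m₀ w < 1 / 8
      linarith)
  obtain ⟨ρ₂, hρ₂, hpert2⟩ := tube (c₀ := c₀)
    (F := fun p : ℂ × ℂ => ∑ j ∈ Finset.range m₀, psi d δ p.1 j p.2)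
    (continuous_finsetSum _ fun j _ => continuous_psi hd hδ j)
    (isCompact_closedBall (0 : ℂ) (2 * δ)) (b := G) (fun w hw => by
      have := hΓ δ hδ m₀ w ((mem_closedBall_zero_iff.mp hw).trans hδ1)
      show ∑ j ∈ Finset.range m₀, psi d δ c₀ j w < G
      linarith)
  set ε₀ := min (min 1 (min ρ₁ ρ₂)) (θ * s₀ / 8) with hε₀
  have hε₀0 : 0 < ε₀ := by positivity
  set B : ℝ := (volume (closedBall (0 : ℂ) r)).toReal with hB
  set C₈ : ℝ := G * C₅ * (1 / θ ^ 2) with hC₈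
  set E : ℝ := |Real.log θ| with hE
  have hE0 : 0 ≤ E := abs_nonneg _
  refine ⟨ε₀, C₄ * (1 + E) + 1, B, C₈, m₀, hε₀0, (min_le_left _ _).trans (min_le_left _ _),
    by positivity, ENNReal.toReal_nonneg, by positivity, ?_⟩
  intro c₁ hc₁ c hcc hce hce'
  have hexp := hexp' c₁ hc₁
  have he0 : 0 < ‖c - c₁‖ := norm_pos_iff.mpr (sub_ne_zero.mpr hcc)
  have he1 : ‖c - c₁‖ ≤ 1 := hce.trans ((min_le_left _ _).trans (min_le_left _ _))
  have he1' : ‖c - c₀‖ ≤ 1 := hce'.trans ((min_le_left _ _).trans (min_le_left _ _))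
  have he2 : ‖c - c₀‖ ≤ ρ₁ :=
    hce'.trans ((min_le_left _ _).trans ((min_le_right _ _).trans (min_le_left _ _)))
  have he3 : ‖c - c₀‖ ≤ ρ₂ :=
    hce'.trans ((min_le_left _ _).trans ((min_le_right _ _).trans (min_le_right _ _)))
  have he4 : ‖c - c₁‖ ≤ θ * s₀ / 8 := hce.trans (min_le_right _ _)
  have hc3 : ‖c‖ ≤ 3 := by
    have h2 : ‖c‖ ≤ ‖c - c₀‖ + ‖c₀‖ := by
      calc ‖c‖ = ‖(c - c₀) + c₀‖ := by congr 1; ring
        _ ≤ _ := norm_add_le _ _
    linarith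
  set η := ‖c - c₁‖ / θ with hη
  have hη0 : 0 < η := by positivity
  have hηθ : η * θ = ‖c - c₁‖ := by rw [hη]; field_simp
  have hη1 : ‖c - c₁‖ ≤ η := by
    rw [← hηθ]
    nlinarith
  have hη2 : η ≤ s₀ / 8 := by
    rw [hη, div_le_iff₀ hθ]
    linarith
  -- number of steps
  set m := ⌈C₄ * (1 + |Real.log η|)⌉₊ with hm
  have hfin : ∀ n, volume (SL d c r n) ≠ ⊤ := vol_SL_ne_top hd hc3 hr
  set a : ℕ → ℝ := fun n => (volume (SL d c r n)).toReal with ha
  have ha0 : ∀ n, 0 ≤ a n := fun n => ENNReal.toReal_nonneg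
  have haanti : Antitone a := fun i j hij =>
    ENNReal.toReal_mono (hfin i) (measure_mono (SL_anti hd hc3 hr hij))
  refine ⟨a, m, ha0, haanti, ?_, ?_, ?_, fun n => by rw [ENNReal.ofReal_toReal (hfin n)]⟩
  · exact ENNReal.toReal_mono (isCompact_closedBall (0 : ℂ) r).measure_lt_top.ne
      (measure_mono (SL_sub hd hc3 hr 0))
  · intro n
    set V := a n with hV
    have hV0 : 0 ≤ V := ha0 n
    have hsc : ∀ s : ℝ, η ≤ s → s ≤ s₀ → volume (SL d c r (n + m) ∩ ball c₁ s) ≤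
        ENNReal.ofReal ((1 / κ ^ 2) * s ^ 2 * V) := by
      intro s hs1 hs2
      have hs0 : 0 < s := hη0.trans_le hs1
      obtain ⟨n', hn1, hn2, hn3⟩ := hexp c s hs0 hs2 (by
        rw [← hηθ, mul_comm]
        gcongr)
      have hn' : n' ≤ m := by
        have h2 : |Real.log s| ≤ |Real.log η| := by
          rw [abs_of_nonpos (Real.log_nonpos hs0.le (by linarith)),
            abs_of_nonpos (Real.log_nonpos hη0.le (by linarith))]
          exact neg_le_neg (Real.log_le_log hη0 hs1)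
        have h3 : (n' : ℝ) ≤ C₄ * (1 + |Real.log η|) := hn1.trans (by gcongr)
        exact_mod_cast h3.trans (Nat.le_ceil _)
      exact vol_scale hd hs0 hκ hc3 hr hn' hn2 hn3
    have h2 := hnear c c₁ η V ((2 * δ) ^ d) (SL d c r (n + m)) (measurableSet_SL d c r (n + m)) hη0
      hη1 hV0 (by positivity) hη2 hδ2 hsc
    rw [pow_two_sub_al hd (by positivity : 0 ≤ 2 * δ), ← hb] at h2
    have h3 := vol_pre hd (by positivity : 0 < 2 * δ) (measurableSet_SL d c r (n + m)) h2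
    rw [← SL_succ] at h3
    have h4 := vol_split hd hδ hc3 hr (m := m₀) (ε := 1 / 8) (Γ := G)
      (fun w hw => hpert1 c he2 w (mem_closedBall_zero_iff.mpr hw))
      (fun y hy => hpert2 c he3 y (mem_closedBall_zero_iff.mpr hy)) (n + m)
    have hnn : 0 ≤ C₅ * ((2 * δ) ^ 2 * V + (η ^ 2 * V) ^ b) := by positivity
    have h5 : volume (SL d c r (n + m + m₀)) ≤ ENNReal.ofReal (1 / 8 * a (n + m) +
        G * (C₅ * ((2 * δ) ^ 2 * V + (η ^ 2 * V) ^ b))) := by
      refine h4.trans ?_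
      rw [ENNReal.ofReal_add (mul_nonneg (by norm_num) (ha0 _)) (by positivity),
        ENNReal.ofReal_mul (by norm_num), ENNReal.ofReal_toReal (hfin _),
        ENNReal.ofReal_mul (by positivity)]
      gcongr
    have h6 := ENNReal.toReal_mono ENNReal.ofReal_ne_top h5
    rw [ENNReal.toReal_ofReal (add_nonneg (mul_nonneg (by norm_num) (ha0 _)) (by positivity))] at h6
    have h7 : a (n + (m + m₀)) ≤ 1 / 8 * a (n + m) +
        G * (C₅ * ((2 * δ) ^ 2 * V + (η ^ 2 * V) ^ b)) := by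
      rw [← add_assoc]
      exact h6
    have h8 : a (n + m) ≤ V := haanti (by omega)
    have h9 : (η ^ 2 * V) ^ b ≤ (1 / θ ^ 2) * ((‖c - c₁‖ ^ 2) ^ b * V ^ b) := by
      have e1 : η ^ 2 * V = (1 / θ ^ 2) * (‖c - c₁‖ ^ 2 * V) := by
        rw [hη]; field_simp
      rw [e1, Real.mul_rpow (by positivity) (by positivity), Real.mul_rpow (by positivity) hV0]
      apply mul_le_mul_of_nonneg_right _ (by positivity)
      have h10 : (1 : ℝ) ≤ 1 / θ ^ 2 := by
        rw [le_div_iff₀ (by positivity), one_mul]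
        exact pow_le_one₀ hθ.le hθ1
      calc (1 / θ ^ 2) ^ b ≤ (1 / θ ^ 2) ^ (1 : ℝ) := Real.rpow_le_rpow_of_exponent_le h10 hb1
        _ = _ := Real.rpow_one _
    have h10 : G * (C₅ * (η ^ 2 * V) ^ b) ≤ C₈ * (‖c - c₁‖ ^ 2) ^ b * V ^ b := by
      calc G * (C₅ * (η ^ 2 * V) ^ b) ≤ G * (C₅ * ((1 / θ ^ 2) * ((‖c - c₁‖ ^ 2) ^ b * V ^ b))) := by
            gcongr
        _ = _ := by rw [hC₈]; ring
    have h11 : G * (C₅ * ((2 * δ) ^ 2 * V)) ≤ 1 / 8 * V := by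
      calc G * (C₅ * ((2 * δ) ^ 2 * V)) = (G * C₅ * (2 * δ) ^ 2) * V := by ring
        _ ≤ _ := mul_le_mul_of_nonneg_right hδ3 hV0
    have h12 : G * (C₅ * ((2 * δ) ^ 2 * V + (η ^ 2 * V) ^ b)) =
        G * (C₅ * ((2 * δ) ^ 2 * V)) + G * (C₅ * (η ^ 2 * V) ^ b) := by ring
    rw [h12] at h7
    linarith
  · have h1 : (m : ℝ) ≤ C₄ * (1 + |Real.log η|) + 1 :=
      (Nat.ceil_lt_add_one (by positivity)).le
    have h2 : |Real.log η| ≤ |Real.log ‖c - c₁‖| + E := by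
      rw [hη, Real.log_div he0.ne' hθ.ne']
      exact abs_sub _ _
    have h3 := abs_nonneg (Real.log ‖c - c₁‖)
    have h4 : C₄ * (1 + |Real.log η|) ≤ C₄ * (1 + E) * (1 + |Real.log ‖c - c₁‖|) := by
      rw [mul_assoc]
      apply mul_le_mul_of_nonneg_left _ hC₄.le
      nlinarith
    nlinarith

end Pool.Agent.Y298.SH
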