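import Mathlib
import Pool.Agent.Y298.SH.Rec
import Pool.Agent.TH279.MD.Final

/-!
# The area of the level sets near a parameter with a uniformly expanding critical orbit
-/

set_option autoImplicit false

open Set Filter Metric MeasureTheory

namespace Pool.Agent.Y298.SH

open Pool.Agent.TH279.MD

variable {d M : ℕ} {c₀ : ℂ}

/-- The area of level sets near a parameter with a uniformly expanding critical orbit. -/
theorem SHyp.level_area (h : SHyp d M c₀) {r : ℝ} (hr : 4 ≤ r) :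
    ∃ C ε₀ : ℝ, 0 ≤ C ∧ 0 < ε₀ ∧ ∀ c₁ : ℂ, SHyp d M c₁ → ∀ c : ℂ, c ≠ c₁ → ‖c - c₁‖ ≤ ε₀ →
    ‖c - c₀‖ ≤ ε₀ → ∃ n : ℕ, 2 ≤ n ∧ (n : ℝ) ≤ C * (1 + |Real.log ‖c - c₁‖|) ^ 2 ∧
      volume (SL d c r n) ≤ ENNReal.ofReal (C * ‖c - c₁‖ ^ (2 / ((d : ℝ) - 1))) := by
  have hd := h.hd
  have hc₀ : ‖c₀‖ ≤ 2 := h.bd 0
  obtain ⟨ε₀, C, B, C₈, i₀, hε₀, hε₀1, hC, hB, hC₈, H⟩ := h.recursion hr
  have ha := al_pos hd
  have ha2 := al_lt hd
  set X₀ : ℝ := (4 * C₈) ^ (1 / (al d / 2)) with hX₀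
  have hX₀0 : 0 ≤ X₀ := by positivity
  set C' : ℝ := max (B + X₀) (8 * (C + i₀) + 4 * (C + i₀) + 2) with hC'
  refine ⟨C', ε₀, ?_, hε₀, ?_⟩
  · exact le_trans (by positivity) (le_max_left _ _)
  intro c₁ hc₁ c hcc hce hce'
  obtain ⟨a, m, ha0, hanti, haB, hrec, hm, hvol⟩ := H c₁ hc₁ c hcc hce hce'
  have he0 : 0 < ‖c - c₁‖ := norm_pos_iff.mpr (sub_ne_zero.mpr hcc)
  set e := ‖c - c₁‖ with he
  have he1 : e ≤ 1 := hce.trans hε₀1
  have hc3 : ‖c‖ ≤ 3 := by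
    have h2 : ‖c‖ ≤ ‖c - c₀‖ + ‖c₀‖ := by
      calc ‖c‖ = ‖(c - c₀) + c₀‖ := by congr 1; ring
        _ ≤ _ := norm_add_le _ _
    linarith
  set ℓ := |Real.log e| with hℓ
  have hℓ0 : 0 ≤ ℓ := abs_nonneg _
  set j := ⌈8 * ℓ⌉₊ with hj
  set q : ℝ := 2 / ((d : ℝ) - 1) with hq
  have hdR : (2 : ℝ) ≤ d := by exact_mod_cast hd
  have hq2 : q ≤ 2 := by
    rw [hq, div_le_iff₀ (by linarith)]
    linarith
  have hq0 : 0 ≤ q := div_nonneg (by norm_num) (by linarith)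
  set X : ℝ := (4 * (C₈ * (e ^ 2) ^ (1 - al d / 2))) ^ (1 / (al d / 2)) with hX
  have hXe : X = X₀ * e ^ q := by
    rw [hX, hX₀, hq, ← exponents hd he0.le, ← mul_assoc,
      Real.mul_rpow (by positivity) (by positivity)]
  have hdec := seq_decay (b := 1 - al d / 2) (β := C₈ * (e ^ 2) ^ (1 - al d / 2)) (X := X)
    (by linarith) (by positivity) (by
      rw [hX, ← Real.rpow_mul (by positivity), sub_sub_cancel, one_div, inv_mul_cancel₀ (by positivity),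
        Real.rpow_one]) hanti haB hrec j
  have hpow : (3 / 4 : ℝ) ^ j ≤ e ^ q := by
    have h1 : 8 * ℓ ≤ j := Nat.le_ceil _
    have h2 : Real.log ((3 / 4 : ℝ) ^ j) ≤ Real.log (e ^ q) := by
      rw [Real.log_pow, Real.log_rpow he0]
      have h3 : Real.log e = -ℓ := by
        rw [hℓ, abs_of_nonpos (Real.log_nonpos he0.le he1), neg_neg]
      have h4 : Real.log (3 / 4) ≤ -(1 / 4) := by
        have := Real.log_le_sub_one_of_pos (by norm_num : (0 : ℝ) < 3 / 4)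
        linarith
      rw [h3]
      have h5 : (j : ℝ) * Real.log (3 / 4) ≤ (j : ℝ) * (-(1 / 4)) :=
        mul_le_mul_of_nonneg_left h4 (Nat.cast_nonneg j)
      have h6 : q * ℓ ≤ 2 * ℓ := mul_le_mul_of_nonneg_right hq2 hℓ0
      linarith
    exact (Real.log_le_log_iff (by positivity) (by positivity)).mp h2
  have haj : a (j * (m + i₀)) ≤ (B + X₀) * e ^ q := by
    have h0 : 0 ≤ e ^ q := by positivity
    refine hdec.trans (max_le ?_ ?_)
    · have h2 : 0 ≤ X₀ * e ^ q := by positivity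
      have h3 : B * (3 / 4) ^ j ≤ B * e ^ q := by gcongr
      linarith
    · have h2 : 0 ≤ B * e ^ q := by positivity
      rw [hXe]
      linarith
  refine ⟨j * (m + i₀) + 2, by omega, ?_, ?_⟩
  · have h1 : (j : ℝ) ≤ 8 * ℓ + 1 := (Nat.ceil_lt_add_one (by positivity)).le
    have h2 : (m : ℝ) + i₀ ≤ (C + i₀) * (1 + ℓ) := by
      have : 0 ≤ (i₀ : ℝ) * ℓ := by positivity
      linarith
    have h3 : (j : ℝ) * (m + i₀) ≤ (8 * ℓ + 1) * ((C + i₀) * (1 + ℓ)) :=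
      mul_le_mul h1 h2 (by positivity) (by positivity)
    have h4 : (8 * ℓ + 1) * ((C + i₀) * (1 + ℓ)) ≤ 8 * (C + i₀) * (1 + ℓ) ^ 2 := by
      have h5 : 0 ≤ (C + i₀) * (1 + ℓ) := by positivity
      have h6 : 8 * (C + i₀) * (1 + ℓ) ^ 2 = (8 * ℓ + 8) * ((C + i₀) * (1 + ℓ)) := by ring
      rw [h6]
      exact mul_le_mul_of_nonneg_right (by linarith) h5
    have h7 : (2 : ℝ) ≤ 2 * (1 + ℓ) ^ 2 := by
      have : (1 : ℝ) ≤ (1 + ℓ) ^ 2 := one_le_pow₀ (by linarith)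
      linarith
    have h8 : C' ≥ 8 * (C + i₀) + 4 * (C + i₀) + 2 := le_max_right _ _
    have h9 : (8 * (C + i₀) + 2) * (1 + ℓ) ^ 2 ≤ C' * (1 + ℓ) ^ 2 := by
      apply mul_le_mul_of_nonneg_right _ (by positivity)
      have : 0 ≤ 4 * (C + i₀) := by positivity
      linarith
    push_cast
    linarith
  · have h1 : SL d c r (j * (m + i₀) + 2) ⊆ SL d c r (j * (m + i₀)) := SL_anti hd hc3 hr (by omega)
    refine (measure_mono h1).trans ((hvol _).trans ?_)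
    apply ENNReal.ofReal_le_ofReal
    have h0 : 0 ≤ e ^ q := by positivity
    calc a (j * (m + i₀)) ≤ (B + X₀) * e ^ q := haj
      _ ≤ C' * e ^ q := mul_le_mul_of_nonneg_right (le_max_left _ _) h0

/-- The class in terms of the Multibrot set. -/
theorem shyp_of_mem {d M : ℕ} (hd : 2 ≤ d) {c₀ : ℂ} (hM : c₀ ∈ N62a1eb23.multibrotSet d)
    (hexp : ∀ j : ℕ, 2 ≤ ‖deriv ((f d c₀)^[M]) ((f d c₀)^[j] c₀)‖) : SHyp d M c₀ := by
  refine ⟨hd, ?_, ?_, hexp⟩
  · by_contra hcon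
    have h0 : M = 0 := by omega
    have h1 := hexp 0
    rw [h0] at h1
    simp only [Function.iterate_zero, deriv_id, norm_one] at h1
    norm_num at h1
  · intro j
    have h1 := (Pool.Agent.H712R2.mem_multibrot_iff hd c₀).mp hM (j + 1)
    have h2 : Pool.Agent.H712R2.P d (j + 1) c₀ = (f d c₀)^[j] c₀ := by
      rw [P_eq, Function.iterate_succ_apply]
      congr 1
      unfold f
      rw [zero_pow (by omega), zero_add]
    rwa [h2] at h1

end Pool.Agent.Y298.SH
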