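import Mathlib
import Pool.Agent.Y298.SH.Lev
import Pool.Agent.Y298.SH.Grow

/-!
# Density of hyperbolicity near parameters with a uniformly expanding critical orbit
-/

set_option autoImplicit false

open Set Filter Metric MeasureTheory

namespace Pool.Agent.Y298.SH

open Pool.Agent.TH279.MD
open Pool.Agent.H713R2 Pool.Agent.H712R2 Pool.Agent.H713R2.AR Pool.Agent.H548R3.MB
open Pool.Agent.TH574.J2489 (sqrt_level)

variable {d M : ℕ} {c₀ : ℂ}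

/-- The three upper bounds, locally. -/
theorem SHyp.local_upper (h : SHyp d M c₀) :
    ∃ C ε : ℝ, 0 < C ∧ 0 < ε ∧ ∀ c₁ : ℂ, SHyp d M c₁ → ∀ c ∈ N62a1eb23.multibrotSet d, c ≠ c₁ →
    ‖c - c₁‖ ≤ ε → ‖c - c₀‖ ≤ ε →
    volume (KK d c) ≤ ENNReal.ofReal (C * ‖c - c₁‖ ^ (2 / ((d : ℝ) - 1))) ∧
    (∃ c' : ℂ, ‖c' - c‖ ≤ C * ‖c - c₁‖ ^ ((d : ℝ) / ((d : ℝ) - 1)) ∧ ∃ p : ℕ, 1 ≤ p ∧
      (fun z : ℂ => z ^ d + c')^[p] 0 = 0 ∧
      N62a1eb23.IsAttractingCycle (fun z : ℂ => z ^ d + c') p 0 ∧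
      (p : ℝ) ≤ C * (1 + |Real.log ‖c - c₁‖|) ^ 2) ∧
    (∀ V : Set ℂ, IsOpen V → IsPreconnected V →
      ((∀ c₁ ∈ V, ¬ ∃ m z, N62a1eb23.IsAttractingCycle (fun z : ℂ => z ^ d + c₁) m z) ∨
        V ⊆ N62a1eb23.multibrotSet d) →
      ∀ γ : ℂ → ℂ, DifferentiableOn ℂ γ (ball 0 1) → (∀ t ∈ ball (0 : ℂ) 1, γ t ∈ V) → γ 0 = c →
        ‖deriv γ 0‖ ≤ C * ‖c - c₁‖ ^ ((d : ℝ) / ((d : ℝ) - 1))) := by
  have hd := h.hd
  have hdR : (2 : ℝ) ≤ d := by exact_mod_cast hd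
  obtain ⟨κ, Cg, εg, hκ, hCg, hεg, hgrow⟩ := h.big_deriv
  have hM1 := one_le_MM d 1
  set r : ℝ := H548R3.MB.MM d 1 + 3 with hr
  have hr4 : 4 ≤ r := by linarith
  obtain ⟨Ca, εa, hCa, hεa, hlev⟩ := h.level_area hr4
  obtain ⟨Cs, hCs, hsq⟩ := vol_sqrt
  have hpi := Real.pi_gt_three
  set q : ℝ := 2 / ((d : ℝ) - 1) with hq
  set q' : ℝ := (d : ℝ) / ((d : ℝ) - 1) with hq'
  have hd1 : 0 < (d : ℝ) - 1 := by linarith
  have hqq : q' = 1 + q / 2 := by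
    rw [hq', hq]
    field_simp
    ring
  have hq0 : 0 ≤ q := by positivity
  have hq'0 : 0 ≤ q' := by positivity
  set ε₁ : ℝ := min (min εg εa) 1 with hε₁
  have hε₁0 : 0 < ε₁ := by positivity
  -- the main estimate
  have hmain : ∀ c₁ c : ℂ, c ≠ c₁ → ‖c - c₁‖ ≤ ε₁ → ∀ S : Set ℂ, MeasurableSet S → ∀ x : ℂ,
      volume S ≤ ENNReal.ofReal (Ca * ‖c - c₁‖ ^ q) → ∀ D : ℝ, 0 ≤ D → κ / ‖c - c₁‖ ≤ D →
      ∀ g : ℝ, 0 ≤ g → (1 / 4) * (g * D) ≤ 2 / Real.pi * (volume {u : ℂ | u ^ 2 + x ∈ S}).toReal →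
      g ≤ (8 * Cs * √Ca / κ) * ‖c - c₁‖ ^ q' := by
    intro c₁ c hcc hce S hS x hvol D hD hκD g hg h
    have he0 : 0 < ‖c - c₁‖ := norm_pos_iff.mpr (sub_ne_zero.mpr hcc)
    set e := ‖c - c₁‖ with he
    have h1 := hsq x S (Ca * e ^ q) hS (by positivity) hvol
    have h2 : (volume {u : ℂ | u ^ 2 + x ∈ S}).toReal ≤ Cs * √(Ca * e ^ q) := by
      have h3 := ENNReal.toReal_mono ENNReal.ofReal_ne_top h1
      rwa [ENNReal.toReal_ofReal (by positivity)] at h3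
    have h3 : √(Ca * e ^ q) = √Ca * e ^ (q / 2) := by
      rw [Real.sqrt_mul hCa, Real.sqrt_eq_rpow (e ^ q), ← Real.rpow_mul he0.le]
      congr 2
      ring
    have h4 : 2 / Real.pi ≤ 1 := by rw [div_le_one (by linarith)]; linarith
    have h5 : (1 / 4) * (g * D) ≤ Cs * (√Ca * e ^ (q / 2)) := by
      refine h.trans ?_
      rw [← h3]
      calc 2 / Real.pi * (volume {u : ℂ | u ^ 2 + x ∈ S}).toReal
          ≤ 1 * (Cs * √(Ca * e ^ q)) := mul_le_mul h4 h2 ENNReal.toReal_nonneg (by norm_num)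
        _ = _ := one_mul _
    have h6 : g * (κ / e) ≤ g * D := mul_le_mul_of_nonneg_left hκD hg
    have h7 : g * κ / e ≤ 4 * (Cs * (√Ca * e ^ (q / 2))) := by
      have : g * κ / e = g * (κ / e) := by ring
      rw [this]
      linarith
    have h8 : g * κ ≤ 4 * (Cs * (√Ca * e ^ (q / 2))) * e := by
      rwa [div_le_iff₀ he0] at h7
    have h9 : e ^ (q / 2) * e = e ^ q' := by
      rw [hqq, add_comm, Real.rpow_add he0, Real.rpow_one]
    have h10 : g * κ ≤ 4 * Cs * √Ca * e ^ q' := by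
      rw [← h9]
      linarith
    have h11 : 0 ≤ 4 * Cs * √Ca * e ^ q' := by positivity
    have h12 : (8 * Cs * √Ca / κ) * e ^ q' = (8 * Cs * √Ca * e ^ q') / κ := by ring
    rw [h12, le_div_iff₀ hκ]
    linarith
  set C₁ : ℝ := max (max (Ca + 1) (8 * Cs * √Ca / κ)) (Cg + Ca + 2) with hC₁
  have hC₁a : Ca + 1 ≤ C₁ := (le_max_left _ _).trans (le_max_left _ _)
  have hC₁b : 8 * Cs * √Ca / κ ≤ C₁ := (le_max_right _ _).trans (le_max_left _ _)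
  have hC₁d : Cg + Ca + 2 ≤ C₁ := le_max_right _ _
  have hC₁0 : 0 < C₁ := by linarith
  refine ⟨C₁, ε₁, hC₁0, hε₁0, ?_⟩
  intro c₁ hc₁ c hc hc2 hce hce'
  have hc2' : ‖c‖ ≤ 2 := norm_le_two hd hc
  have hcea : ‖c - c₁‖ ≤ εa := hce.trans ((min_le_left _ _).trans (min_le_right _ _))
  have hceg : ‖c - c₁‖ ≤ εg := hce.trans ((min_le_left _ _).trans (min_le_left _ _))
  have hcea' : ‖c - c₀‖ ≤ εa := hce'.trans ((min_le_left _ _).trans (min_le_right _ _))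
  have hceg' : ‖c - c₀‖ ≤ εg := hce'.trans ((min_le_left _ _).trans (min_le_left _ _))
  have hL1 : 1 ≤ 1 + |Real.log ‖c - c₁‖| := by linarith [abs_nonneg (Real.log ‖c - c₁‖)]
  have hLL : 1 ≤ (1 + |Real.log ‖c - c₁‖|) ^ 2 := one_le_pow₀ hL1
  refine ⟨?_, ?_, ?_⟩
  · obtain ⟨n, _, _, hn3⟩ := hlev c₁ hc₁ c hc2 hcea hcea'
    refine (measure_mono (KK_sub hd (by linarith) hr4 n)).trans (hn3.trans ?_)
    apply ENNReal.ofReal_le_ofReal
    have : 0 ≤ ‖c - c₁‖ ^ q := by positivity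
    nlinarith
  · obtain ⟨n, hn1, hn2, hn3⟩ := hlev c₁ hc₁ c hc2 hcea hcea'
    obtain ⟨i, hi1, hi2, hi3⟩ := hgrow c₁ hc₁ c hc2 hceg hceg'
    obtain ⟨j, rfl⟩ : ∃ j, n = j + 1 := ⟨n - 1, by omega⟩
    obtain ⟨c', hc', hdist⟩ := (isClosed_centre d (i + j + 2)).exists_infDist_eq_dist
      ⟨0, centre_zero hd (by omega)⟩ c
    obtain ⟨p, hp1, hp2, hp3⟩ := hc'
    refine ⟨c', ?_, p, hp1, hp3, att_of_centre hd hp1 hp3, ?_⟩
    · set R : ℝ := dist c c' with hR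
      have hRn : ‖c' - c‖ = R := by rw [hR, dist_comm, dist_eq_norm]
      rw [hRn]
      have hR0 : 0 ≤ R := dist_nonneg
      have hder : deriv (fun t : ℂ => c + R * t) 0 = R := by
        have h4 : HasDerivAt (fun t : ℂ => c + (R : ℂ) * t) R 0 := by
          simpa using ((hasDerivAt_id (0 : ℂ)).const_mul (R : ℂ)).const_add c
        exact h4.deriv
      rcases hR0.eq_or_lt with h0 | h0
      · rw [← h0]; positivity
      have h1 := disc_sqrt hd (i := i) (j := j) hi1 (γ := fun t : ℂ => c + R * t) (by fun_prop)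
        (by simpa using hc) ?_
      · rw [hder] at h1
        simp only [mul_zero, add_zero] at h1
        rw [Complex.norm_real, Real.norm_eq_abs, abs_of_nonneg hR0] at h1
        have h2 := hmain c₁ c hc2 hce (SL d c r (j + 1)) (measurableSet_SL d c r (j + 1))
          (P d i c) hn3 ‖deriv (P d i) c‖ (norm_nonneg _) hi3 R hR0 h1
        refine h2.trans (mul_le_mul_of_nonneg_right hC₁b (by positivity))
      · intro t ht hcen
        rw [mem_ball_zero_iff] at ht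
        have h2 : infDist c {c : ℂ | Centre d (i + j + 2) c} ≤ dist c (c + R * t) :=
          infDist_le_dist_of_mem hcen
        rw [hdist, dist_eq_norm, show c - (c + R * t) = -(R * t) by ring, norm_neg, norm_mul,
          Complex.norm_real, Real.norm_eq_abs, abs_of_nonneg hR0] at h2
        nlinarith
    · have h1 : (p : ℝ) ≤ ((i + j + 2 : ℕ) : ℝ) := by exact_mod_cast hp2
      refine h1.trans ?_
      push_cast
      push_cast at hn2
      have h2 : (i : ℝ) ≤ Cg * (1 + |Real.log ‖c - c₁‖|) ^ 2 := by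
        refine hi2.trans ?_
        apply mul_le_mul_of_nonneg_left _ hCg.le
        nlinarith
      have h3 : (Cg + Ca + 2) * (1 + |Real.log ‖c - c₁‖|) ^ 2 ≤
          C₁ * (1 + |Real.log ‖c - c₁‖|) ^ 2 := by gcongr
      nlinarith
  · intro V hV hVc hno γ hγ hγV hγc
    have hVM : V ⊆ N62a1eb23.multibrotSet d := by
      rcases hno with h | h
      · exact open_subset hd hV hVc (hγV 0 (mem_ball_self one_pos)) (by rw [hγc]; exact hc) h
      · exact h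
    have hγM : ∀ t ∈ ball (0 : ℂ) 1, γ t ∈ N62a1eb23.multibrotSet d := fun t ht => hVM (hγV t ht)
    obtain ⟨n, hn1, hn2, hn3⟩ := hlev c₁ hc₁ c hc2 hcea hcea'
    obtain ⟨i, hi1, hi2, hi3⟩ := hgrow c₁ hc₁ c hc2 hceg hceg'
    obtain ⟨j, rfl⟩ : ∃ j, n = j + 1 := ⟨n - 1, by omega⟩
    have h1 := sqrt_level hd (M := 2) (M' := r) (by norm_num) (by linarith) (by linarith) hγ i j hi1
      (fun t ht m _ _ => (mem_multibrot_iff hd _).mp (hγM t ht) m)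
    rw [hγc] at h1
    have h3 : HasDerivAt γ (deriv γ 0) 0 :=
      (hγ.differentiableAt (ball_mem_nhds 0 one_pos)).hasDerivAt
    have h6 : HasDerivAt (P d i) (deriv (P d i) c) (γ 0) := by
      rw [hγc]
      exact (differentiable_P d i _).hasDerivAt
    have h7 := (h6.comp (0 : ℂ) h3).deriv
    have h8 : deriv (fun t => P d i (γ t)) 0 = deriv (P d i) c * deriv γ 0 := h7
    rw [h8, norm_mul] at h1
    have h9 := hmain c₁ c hc2 hce (SL d c r (j + 1)) (measurableSet_SL d c r (j + 1))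
      (P d i c) hn3 ‖deriv (P d i) c‖ (norm_nonneg _) hi3 ‖deriv γ 0‖ (norm_nonneg _) (by
        have h10 : 0 ≤ ‖deriv (P d i) c‖ * ‖deriv γ 0‖ := by positivity
        have h11 : (1 / 4) * (‖deriv γ 0‖ * ‖deriv (P d i) c‖) ≤
            ‖deriv (P d i) c‖ * ‖deriv γ 0‖ := by nlinarith
        exact h11.trans h1)
    exact h9.trans (mul_le_mul_of_nonneg_right hC₁b (by positivity))

/-- The class of parameters is compact. -/
theorem isCompact_SHyp (d M : ℕ) : IsCompact {c₀ : ℂ | SHyp d M c₀} := by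
  by_cases hdM : 2 ≤ d ∧ 1 ≤ M
  · obtain ⟨hd, hM⟩ := hdM
    have h1 : {c₀ : ℂ | SHyp d M c₀} = {c₀ : ℂ | (∀ j : ℕ, ‖(f d c₀)^[j] c₀‖ ≤ 2) ∧
        ∀ j : ℕ, 2 ≤ ‖deriv ((f d c₀)^[M]) ((f d c₀)^[j] c₀)‖} := by
      ext c
      exact ⟨fun h => ⟨h.bd, h.exp⟩, fun h => ⟨hd, hM, h.1, h.2⟩⟩
    have hc : ∀ j : ℕ, Continuous fun c : ℂ => (f d c)^[j] c := fun j =>
      (contDiff_iter d j).continuous.comp (continuous_id.prodMk continuous_id)
    have hc' : ∀ j : ℕ, Continuous fun c : ℂ => deriv ((f d c)^[M]) ((f d c)^[j] c) := fun j =>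
      (contDiff_deriv d M).continuous.comp (continuous_id.prodMk (hc j))
    have hcl : IsClosed {c₀ : ℂ | SHyp d M c₀} := by
      rw [h1, setOf_and, setOf_forall, setOf_forall]
      refine IsClosed.inter (isClosed_iInter fun j => ?_) (isClosed_iInter fun j => ?_)
      · exact isClosed_le (hc j).norm continuous_const
      · exact isClosed_le continuous_const (hc' j).norm
    refine (isCompact_closedBall (0 : ℂ) 2).of_isClosed_subset hcl ?_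
    intro c hc
    rw [mem_closedBall_zero_iff]
    exact hc.bd 0
  · have h1 : {c₀ : ℂ | SHyp d M c₀} = ∅ := by
      ext c
      simp only [mem_setOf_eq, mem_empty_iff_false, iff_false]
      exact fun h => hdM ⟨h.hd, h.hM⟩
    rw [h1]
    exact isCompact_empty

/-- **The three upper bounds, uniformly.** -/
theorem upper_uniform {d : ℕ} (hd : 2 ≤ d) (M : ℕ) :
    ∃ C : ℝ, 0 < C ∧ ∀ c₁ : ℂ, SHyp d M c₁ → ∀ c ∈ N62a1eb23.multibrotSet d, c ≠ c₁ →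
    volume (KK d c) ≤ ENNReal.ofReal (C * ‖c - c₁‖ ^ (2 / ((d : ℝ) - 1))) ∧
    (∃ c' : ℂ, ‖c' - c‖ ≤ C * ‖c - c₁‖ ^ ((d : ℝ) / ((d : ℝ) - 1)) ∧ ∃ p : ℕ, 1 ≤ p ∧
      (fun z : ℂ => z ^ d + c')^[p] 0 = 0 ∧
      N62a1eb23.IsAttractingCycle (fun z : ℂ => z ^ d + c') p 0 ∧
      (p : ℝ) ≤ C * (1 + |Real.log ‖c - c₁‖|) ^ 2) ∧
    (∀ V : Set ℂ, IsOpen V → IsPreconnected V →
      ((∀ c₁ ∈ V, ¬ ∃ m z, N62a1eb23.IsAttractingCycle (fun z : ℂ => z ^ d + c₁) m z) ∨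
        V ⊆ N62a1eb23.multibrotSet d) →
      ∀ γ : ℂ → ℂ, DifferentiableOn ℂ γ (ball 0 1) → (∀ t ∈ ball (0 : ℂ) 1, γ t ∈ V) → γ 0 = c →
        ‖deriv γ 0‖ ≤ C * ‖c - c₁‖ ^ ((d : ℝ) / ((d : ℝ) - 1))) := by
  have hdR : (2 : ℝ) ≤ d := by exact_mod_cast hd
  set q : ℝ := 2 / ((d : ℝ) - 1) with hq
  set q' : ℝ := (d : ℝ) / ((d : ℝ) - 1) with hq'
  have hd1 : 0 < (d : ℝ) - 1 := by linarith
  have hq0 : 0 ≤ q := by positivity
  have hq'0 : 0 ≤ q' := by positivity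
  -- local constants
  have hloc : ∀ c₀ : ℂ, ∃ C ε : ℝ, 0 < C ∧ 0 < ε ∧ (SHyp d M c₀ → ∀ c₁ : ℂ, SHyp d M c₁ →
      ∀ c ∈ N62a1eb23.multibrotSet d, c ≠ c₁ → ‖c - c₁‖ ≤ ε → ‖c - c₀‖ ≤ ε →
    volume (KK d c) ≤ ENNReal.ofReal (C * ‖c - c₁‖ ^ q) ∧
    (∃ c' : ℂ, ‖c' - c‖ ≤ C * ‖c - c₁‖ ^ q' ∧ ∃ p : ℕ, 1 ≤ p ∧
      (fun z : ℂ => z ^ d + c')^[p] 0 = 0 ∧
      N62a1eb23.IsAttractingCycle (fun z : ℂ => z ^ d + c') p 0 ∧
      (p : ℝ) ≤ C * (1 + |Real.log ‖c - c₁‖|) ^ 2) ∧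
    (∀ V : Set ℂ, IsOpen V → IsPreconnected V →
      ((∀ c₁ ∈ V, ¬ ∃ m z, N62a1eb23.IsAttractingCycle (fun z : ℂ => z ^ d + c₁) m z) ∨
        V ⊆ N62a1eb23.multibrotSet d) →
      ∀ γ : ℂ → ℂ, DifferentiableOn ℂ γ (ball 0 1) → (∀ t ∈ ball (0 : ℂ) 1, γ t ∈ V) → γ 0 = c →
        ‖deriv γ 0‖ ≤ C * ‖c - c₁‖ ^ q')) := by
    intro c₀
    by_cases h : SHyp d M c₀
    · obtain ⟨C, ε, hC, hε, H⟩ := h.local_upper
      exact ⟨C, ε, hC, hε, fun _ => H⟩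
    · exact ⟨1, 1, one_pos, one_pos, fun h' => absurd h' h⟩
  choose CC εε hCC hεε H using hloc
  obtain ⟨t, htS, ht⟩ := (isCompact_SHyp d M).elim_nhds_subcover (fun c₀ => ball c₀ (εε c₀ / 2))
    (fun c₀ _ => ball_mem_nhds c₀ (by have := hεε c₀; positivity))
  -- global constants
  obtain ⟨ε, hε0, hε⟩ : ∃ ε : ℝ, 0 < ε ∧ ∀ c₀ ∈ t, ε ≤ εε c₀ / 2 := by
    by_cases hne : t.Nonempty
    · exact ⟨t.inf' hne (fun c₀ => εε c₀ / 2), (Finset.lt_inf'_iff hne).mpr fun c₀ _ => by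
        have := hεε c₀; positivity, fun c₀ hc₀ => Finset.inf'_le _ hc₀⟩
    · rw [Finset.not_nonempty_iff_eq_empty] at hne
      exact ⟨1, one_pos, fun c₀ hc₀ => by rw [hne] at hc₀; simp at hc₀⟩
  set Cs : ℝ := ∑ c₀ ∈ t, CC c₀ with hCs
  have hCs0 : 0 ≤ Cs := Finset.sum_nonneg fun c₀ _ => (hCC c₀).le
  have hCsle : ∀ c₀ ∈ t, CC c₀ ≤ Cs := fun c₀ hc₀ =>
    Finset.single_le_sum (f := CC) (fun c₀ _ => (hCC c₀).le) hc₀
  set V₀ : ℝ := (volume (closedBall (0 : ℂ) 4)).toReal with hV₀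
  have hV₀0 : 0 ≤ V₀ := ENNReal.toReal_nonneg
  have hV₀fin : volume (closedBall (0 : ℂ) 4) ≠ ⊤ := (isCompact_closedBall _ _).measure_lt_top.ne
  have hKsub : ∀ c : ℂ, ‖c‖ ≤ 3 → KK d c ⊆ closedBall 0 4 := by
    intro c hc
    exact (KK_sub hd hc le_rfl 0).trans (SL_sub hd hc le_rfl 0)
  set C₁ : ℝ := Cs + ((V₀ + 2) / ε ^ q + (V₀ + 4) / ε ^ q') + 2 with hC₁
  have hεq : 0 < ε ^ q := by positivity
  have hεq' : 0 < ε ^ q' := by positivity
  have hC₁0 : 0 < C₁ := by positivity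
  have hCsC₁ : Cs ≤ C₁ := by
    have : 0 ≤ (V₀ + 2) / ε ^ q + (V₀ + 4) / ε ^ q' := by positivity
    linarith
  have hfar : ∀ x : ℝ, ε < x → V₀ + 2 ≤ C₁ * x ^ q := by
    intro x hce
    have h1 : (V₀ + 2) / ε ^ q ≤ C₁ := by
      have : 0 ≤ (V₀ + 4) / ε ^ q' := by positivity
      linarith
    rw [div_le_iff₀ hεq] at h1
    have h2 : ε ^ q ≤ x ^ q := Real.rpow_le_rpow hε0.le hce.le hq0
    nlinarith
  have hfar' : ∀ x : ℝ, ε < x → V₀ + 4 ≤ C₁ * x ^ q' := by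
    intro x hce
    have h1 : (V₀ + 4) / ε ^ q' ≤ C₁ := by
      have : 0 ≤ (V₀ + 2) / ε ^ q := by positivity
      linarith
    rw [div_le_iff₀ hεq'] at h1
    have h2 : ε ^ q' ≤ x ^ q' := Real.rpow_le_rpow hε0.le hce.le hq'0
    nlinarith
  refine ⟨C₁, hC₁0, ?_⟩
  intro c₁ hc₁ c hc hc2
  have hc2' : ‖c‖ ≤ 2 := norm_le_two hd hc
  rcases le_or_gt ‖c - c₁‖ ε with hce | hce
  · -- near
    have h1 := ht hc₁
    rw [mem_iUnion₂] at h1
    obtain ⟨c₀, hc₀t, hc₀⟩ := h1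
    rw [mem_ball, dist_eq_norm] at hc₀
    have hεc := hε c₀ hc₀t
    have hpos := hεε c₀
    have e1 : ‖c - c₁‖ ≤ εε c₀ := by linarith
    have e2 : ‖c - c₀‖ ≤ εε c₀ := by
      calc ‖c - c₀‖ = ‖(c - c₁) + (c₁ - c₀)‖ := by congr 1; ring
        _ ≤ ‖c - c₁‖ + ‖c₁ - c₀‖ := norm_add_le _ _
        _ ≤ εε c₀ := by linarith
    obtain ⟨H1, ⟨c', H2, p, H3, H4, H5, H6⟩, H7⟩ := H c₀ (htS c₀ hc₀t) c₁ hc₁ c hc hc2 e1 e2
    have hCle : CC c₀ ≤ C₁ := (hCsle c₀ hc₀t).trans hCsC₁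
    have hp1 : 0 ≤ ‖c - c₁‖ ^ q := by positivity
    have hp2 : 0 ≤ ‖c - c₁‖ ^ q' := by positivity
    refine ⟨H1.trans (ENNReal.ofReal_le_ofReal (mul_le_mul_of_nonneg_right hCle hp1)),
      ⟨c', H2.trans (mul_le_mul_of_nonneg_right hCle hp2), p, H3, H4, H5,
        H6.trans (mul_le_mul_of_nonneg_right hCle (by positivity))⟩, ?_⟩
    intro V hV hVc hno γ hγ hγV hγc
    exact (H7 V hV hVc hno γ hγ hγV hγc).trans (mul_le_mul_of_nonneg_right hCle hp2)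
  · -- far
    have hL1 : 1 ≤ 1 + |Real.log ‖c - c₁‖| := by linarith [abs_nonneg (Real.log ‖c - c₁‖)]
    have hLL : 1 ≤ (1 + |Real.log ‖c - c₁‖|) ^ 2 := one_le_pow₀ hL1
    have f1 := hfar _ hce
    have f2 := hfar' _ hce
    refine ⟨?_, ⟨0, ?_, 1, le_rfl, ?_, ?_, ?_⟩, ?_⟩
    · refine (measure_mono (hKsub c (by linarith))).trans ?_
      rw [← ENNReal.ofReal_toReal hV₀fin]
      apply ENNReal.ofReal_le_ofReal
      linarith
    · rw [zero_sub, norm_neg]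
      linarith
    · simp [show d ≠ 0 by omega]
    · exact att_of_centre hd le_rfl (by simp [show d ≠ 0 by omega])
    · have : 2 ≤ C₁ := by
        have : 0 ≤ (V₀ + 2) / ε ^ q + (V₀ + 4) / ε ^ q' := by positivity
        linarith
      push_cast
      nlinarith
    · intro V hV hVc hno γ hγ hγV hγc
      have hVM : V ⊆ N62a1eb23.multibrotSet d := by
        rcases hno with h | h
        · exact open_subset hd hV hVc (hγV 0 (mem_ball_self one_pos)) (by rw [hγc]; exact hc) h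
        · exact h
      have hγM : ∀ t ∈ ball (0 : ℂ) 1, γ t ∈ N62a1eb23.multibrotSet d :=
        fun t ht => hVM (hγV t ht)
      have h1 : ‖deriv γ 0‖ ≤ 4 := by
        have h2 : ∀ R : ℝ, 0 < R → R < 1 → ‖deriv γ 0‖ ≤ 2 / R := by
          intro R hR0 hR1
          apply Complex.norm_deriv_le_of_forall_mem_sphere_norm_le hR0
          · apply DifferentiableOn.diffContOnCl
            rw [closure_ball _ hR0.ne']
            exact hγ.mono (closedBall_subset_ball hR1)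
          · intro t ht
            exact norm_le_two hd (hγM t (closedBall_subset_ball hR1 (sphere_subset_closedBall ht)))
        have := h2 (1 / 2) (by norm_num) (by norm_num)
        linarith
      linarith

end Pool.Agent.Y298.SH
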